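import Pool.Agent.TF.R.Sp
import Pool.Agent.TF.E.Coef

/-!
# Row RC2: the coefficients and the field `w`
-/

set_option autoImplicit false

namespace Pool.Agent.TF

open MeasureTheory Set Filter Topology Pool.Agent.TO Pool.Agent.TB Pool.Agent.TC Pool.Agent.TP
open scoped ENNReal NNReal Real InnerProductSpace SchwartzMap LineDeriv

namespace CoR

open EIn ECo

theorem nL_nonneg (m : E3 → ℝ) : 0 ≤ nL m := ENNReal.toReal_nonneg

theorem nL_sq {m : E3 → ℝ} (hm : MemLp m 2 (volume : Measure E3)) : nL m ^ 2 = ∫ x, m x ^ 2 := by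
  have h1 : nL m = ‖hm.toLp m‖ := by
    rw [Lp.norm_toLp]
    rfl
  rw [h1, ← real_inner_self_eq_norm_sq, L2.inner_def]
  apply integral_congr_ae
  filter_upwards [hm.coeFn_toLp] with x hx
  rw [hx, real_inner_self_eq_norm_sq, Real.norm_eq_abs, sq_abs]

theorem norm_sq_cvO {κ : E3 → ℝ} {L : ℝ} (h : KK κ L) (f : V3) :
    ‖cvO κ f‖ ^ 2 = ∫ x, ‖cvf κ f x‖ ^ 2 := by
  rw [← real_inner_self_eq_norm_sq, L2.inner_def]
  apply integral_congr_ae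
  filter_upwards [coe_cvO h f] with x hx
  rw [hx, real_inner_self_eq_norm_sq]

theorem sqrt_sum_add_le (a b : Fin 3 → ℝ) :
    √(∑ i, (a i + b i) ^ 2) ≤ √(∑ i, a i ^ 2) + √(∑ i, b i ^ 2) := by
  have h := norm_add_le (WithLp.toLp 2 a : EuclideanSpace ℝ (Fin 3)) (WithLp.toLp 2 b)
  rw [EuclideanSpace.norm_eq, EuclideanSpace.norm_eq, EuclideanSpace.norm_eq] at h
  simpa only [PiLp.add_apply, Real.norm_eq_abs, sq_abs] using h

theorem sqrt_sum_le {x a b : Fin 3 → ℝ} (hx : ∀ i, 0 ≤ x i) (h : ∀ i, x i ≤ a i + b i) :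
    √(∑ i, x i ^ 2) ≤ √(∑ i, a i ^ 2) + √(∑ i, b i ^ 2) := by
  refine le_trans (Real.sqrt_le_sqrt ?_) (sqrt_sum_add_le a b)
  exact Finset.sum_le_sum fun i _ => pow_le_pow_left₀ (hx i) (h i) 2

theorem sqrt_const {c : ℝ} (hc : 0 ≤ c) : √(∑ _i : Fin 3, c ^ 2) ≤ 2 * c := by
  rw [Finset.sum_const, Finset.card_univ, Fintype.card_fin, nsmul_eq_mul]
  rw [show (2 : ℝ) * c = √((2 * c) ^ 2) from (Real.sqrt_sq (by positivity)).symm]
  apply Real.sqrt_le_sqrt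
  push_cast
  nlinarith [sq_nonneg c]

variable {r : ℝ}

theorem memLp_gS (hr : 0 < r) (w : V3) : MemLp (gS r w) 2 (volume : Measure E3) := by
  have h1 : ∀ i, MemLp (cvf (dE i r) w) 2 (volume : Measure E3) := fun i => by
    rw [dE_eq hr]
    exact memLp_cvf (kk1 hr i) w
  have h2 : MemLp (fun x => ∑ i, ‖cvf (dE i r) w x‖) 2 (volume : Measure E3) :=
    memLp_finsetSum _ fun i _ => (h1 i).norm
  have hc : Continuous (gS r w) := continuous_gS hr w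
  refine h2.mono hc.aestronglyMeasurable (Eventually.of_forall fun x => ?_)
  have h4 : 0 ≤ ∑ i, ‖cvf (dE i r) w x‖ := Finset.sum_nonneg fun i _ => norm_nonneg _
  rw [Real.norm_eq_abs, Real.norm_eq_abs, abs_of_nonneg (gS_nonneg w x), abs_of_nonneg h4]
  unfold gS
  rw [Real.sqrt_le_left h4]
  exact Finset.sum_sq_le_sq_sum_of_nonneg fun i _ => norm_nonneg _

theorem nL_gS (hr : 0 < r) (w : V3) : nL (gS r w) = √(∑ i, ‖cvO (pd i (et0 r)) w‖ ^ 2) := by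
  have h1 : nL (gS r w) ^ 2 = ∑ i, ‖cvO (pd i (et0 r)) w‖ ^ 2 := by
    rw [nL_sq (memLp_gS hr w)]
    have h2 : ∀ x, gS r w x ^ 2 = ∑ i, ‖cvf (pd i (et0 r)) w x‖ ^ 2 := by
      intro x
      unfold gS
      rw [Real.sq_sqrt (Finset.sum_nonneg fun i _ => by positivity)]
      simp only [dE_eq hr]
    simp only [h2]
    rw [integral_finsetSum]
    · exact Finset.sum_congr rfl fun i _ => (norm_sq_cvO (kk1 hr i) w).symm
    · intro i _
      have h3 := (memLp_cvf (kk1 hr i) w).integrable_norm_pow (p := 2) (by norm_num)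
      simpa using h3
  rw [← h1, Real.sqrt_sq (nL_nonneg _)]

theorem memLp_lO (hr : 0 < r) (w : V3) : MemLp (lO r w) 2 (volume : Measure E3) := by
  have h1 := (memLp_cvf_fun (kk_et0 hr) (continuous_gS hr w).stronglyMeasurable
    (memLp_gS hr w)).const_mul 8
  exact h1

theorem nL_lO (hr : 0 < r) (w : V3) : nL (lO r w) ≤ 8 * nL (gS r w) := by
  have h1 := eLpNorm_cvf_le (kk_et0 hr) (continuous_gS hr w).stronglyMeasurable
  rw [ENNReal.ofReal_one, one_mul] at h1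
  have h2 : nL (lO r w) = 8 * nL (cvf (et0 r) (gS r w)) := by
    unfold nL
    have h3 : lO r w = (8 : ℝ) • cvf (et0 r) (gS r w) := rfl
    rw [h3, eLpNorm_const_smul, ENNReal.toReal_mul]
    simp
  rw [h2]
  have h4 : nL (cvf (et0 r) (gS r w)) ≤ nL (gS r w) :=
    ENNReal.toReal_mono (memLp_gS hr w).2.ne h1
  linarith

theorem norm_S (hr : 0 < r) (f : V3) : ‖cvO (et0 r) f‖ ≤ ‖f‖ := by
  have := norm_cvO_le (kk_et0 hr) f
  rwa [one_mul] at this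

theorem cvO_pd (hr : 0 < r) {k : Fin 3} {f df : V3} (h : IsWeakDeriv k f df) :
    cvO (pd k (et0 r)) f = cvO (et0 r) df := by
  rw [← vL_pd_moll hr h, pd_moll hr, vL_cvf_V3 (kk1 hr k)]

theorem vL_pd_bO (hr : 0 < r) (k : Fin 3) (w₀ : V3) :
    vL (pd k (bO r w₀)) = cvO (pd k (et0 r)) (cvO (et0 r) w₀) := by
  unfold bO
  rw [pd_moll hr, vL_cvf_V3 (kk1 hr k)]

theorem dist_bO (hr : 0 < r) {w w₀ : V3} {dw : Fin 3 → V3} (hw : ∀ l, IsWeakDeriv l w (dw l)) :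
    ‖w - cvO (et0 r) (cvO (et0 r) w₀)‖ ≤
      4 * cg * (r * √(∑ l, ‖dw l‖ ^ 2)) + ‖cvO (et0 r) (w - w₀)‖ := by
  have h1 : ‖w - cvO (et0 r) w‖ ≤ 2 * cg * r * √(∑ l, ‖dw l‖ ^ 2) := by
    rw [cvO_eq (kk_et0 hr)]
    exact SP_close hr hw
  have hn : ∀ f, ‖cvO (et0 r) f‖ ≤ ‖f‖ := norm_S hr
  generalize cvO (et0 r) = S at h1 hn ⊢
  generalize √(∑ l, ‖dw l‖ ^ 2) = D at h1 ⊢
  have h2 : w - S (S w₀) = (w - S w) + S (w - S w) + S (S (w - w₀)) := by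
    simp only [map_sub]
    abel
  rw [h2]
  have h3 := hn (w - S w)
  have h4 := hn (S (w - w₀))
  have h5 := norm_add_le ((w - S w) + S (w - S w)) (S (S (w - w₀)))
  have h6 := norm_add_le (w - S w) (S (w - S w))
  linarith

theorem pd_bO_le (hr : 0 < r) {w w₀ : V3} {dw : Fin 3 → V3} (hw : ∀ l, IsWeakDeriv l w (dw l))
    (k : Fin 3) : ‖vL (pd k (bO r w₀))‖ ≤ ‖dw k‖ + 7 / r * ‖cvO (et0 r) (w - w₀)‖ := by
  have h1 : cvO (pd k (et0 r)) (cvO (et0 r) w) = cvO (et0 r) (cvO (et0 r) (dw k)) :=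
    cvO_pd hr (weak_cvO (et0 r) (hw k))
  have hn : ∀ f, ‖cvO (et0 r) f‖ ≤ ‖f‖ := norm_S hr
  have hk : ∀ f, ‖cvO (pd k (et0 r)) f‖ ≤ 7 / r * ‖f‖ := norm_cvO_le (kk1 hr k)
  rw [vL_pd_bO hr]
  generalize cvO (et0 r) = S at h1 hn ⊢
  generalize cvO (pd k (et0 r)) = P at h1 hk ⊢
  have e : P (S w₀) = S (S (dw k)) - P (S (w - w₀)) := by
    rw [← h1]
    simp only [map_sub]
    abel
  rw [e]
  exact (norm_sub_le _ _).trans (add_le_add ((hn _).trans (hn _)) (hk _))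

theorem grad_le (hr : 0 < r) {w w₀ : V3} {dw : Fin 3 → V3} (hw : ∀ l, IsWeakDeriv l w (dw l))
    (i : Fin 3) : ‖cvO (pd i (et0 r)) w₀‖ ≤ ‖dw i‖ + ‖cvO (pd i (et0 r)) (w - w₀)‖ := by
  have h1 : cvO (pd i (et0 r)) w = cvO (et0 r) (dw i) := cvO_pd hr (hw i)
  have hn : ‖cvO (et0 r) (dw i)‖ ≤ ‖dw i‖ := norm_S hr _
  rw [← h1] at hn
  generalize cvO (pd i (et0 r)) = P at hn ⊢
  have e : P w₀ = P w - P (w - w₀) := by
    simp only [map_sub]
    abel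
  rw [e]
  exact (norm_sub_le _ _).trans (add_le_add hn le_rfl)

end CoR

open CoR EIn ECo in
theorem co_ok : SpCo := by
  have hcg := cg_pos
  refine ⟨120 + 4 * cg, by positivity, fun r w₀ w dw hr hr1 hw => ?_⟩
  have hN : Nc (bO r w₀) := nc_cvf_V3 (smN_et0 hr) _
  have hri : 1 ≤ 1 / r := by
    rw [le_div_iff₀ hr]
    linarith
  have hvb : vL (bO r w₀) = cvO (et0 r) (cvO (et0 r) w₀) := vL_cvf_V3 (kk_et0 hr) _
  have h1 := dist_bO hr (w₀ := w₀) hw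
  have h2 := sqrt_sum_le (fun k => norm_nonneg _) (pd_bO_le hr (w₀ := w₀) hw)
  have h3 := sqrt_sum_le (fun i => norm_nonneg _) (grad_le hr (w₀ := w₀) hw)
  have h4 := sqrt_const (c := 7 / r * ‖cvO (et0 r) (w - w₀)‖) (by positivity)
  have h5 : 0 ≤ ‖cvO (et0 r) (w - w₀)‖ := norm_nonneg _
  have h6 : 0 ≤ √(∑ i, ‖cvO (pd i (et0 r)) (w - w₀)‖ ^ 2) := Real.sqrt_nonneg _
  have hD0 : 0 ≤ √(∑ l, ‖dw l‖ ^ 2) := Real.sqrt_nonneg _
  refine ⟨hN.c1, hN.m1, ⟨hN.m0, memLp_lO hr w₀, ?_, ?_⟩, ?_, ?_, ?_⟩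
  · rw [hvb]
    calc ‖cvO (et0 r) (cvO (et0 r) w₀)‖ ≤ ‖w₀‖ := (norm_S hr _).trans (norm_S hr _)
      _ ≤ (120 + 4 * cg) * ‖w₀‖ * (1 / r) := by
          have h0 := norm_nonneg w₀
          have h1 : ‖w₀‖ ≤ (120 + 4 * cg) * ‖w₀‖ := by nlinarith
          nlinarith
      _ = _ := by ring
  · refine (nL_lO hr w₀).trans ?_
    rw [nL_gS hr]
    have h1 : √(∑ i, ‖cvO (pd i (et0 r)) w₀‖ ^ 2) ≤ 2 * (7 / r * ‖w₀‖) := by
      refine le_trans (Real.sqrt_le_sqrt ?_) (sqrt_const (by positivity))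
      exact Finset.sum_le_sum fun i _ => pow_le_pow_left₀ (norm_nonneg _)
        (norm_cvO_le (kk1 hr i) w₀) 2
    calc 8 * √(∑ i, ‖cvO (pd i (et0 r)) w₀‖ ^ 2) ≤ 8 * (2 * (7 / r * ‖w₀‖)) := by linarith
      _ = 112 * (‖w₀‖ / r) := by ring
      _ ≤ (120 + 4 * cg) * (‖w₀‖ / r) := by
          have : 0 ≤ ‖w₀‖ / r := by positivity
          nlinarith
      _ = _ := by ring
  · rw [hvb]
    generalize ‖cvO (et0 r) (w - w₀)‖ = X at h1 h5 ⊢
    generalize √(∑ l, ‖dw l‖ ^ 2) = D at h1 hD0 ⊢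
    refine h1.trans ?_
    have h7 : 0 ≤ r * D := by positivity
    have h9 : 0 ≤ cg * X := by positivity
    linarith
  · refine h2.trans ?_
    have e : 7 / r * ‖cvO (et0 r) (w - w₀)‖ = 7 * (‖cvO (et0 r) (w - w₀)‖ / r) := by ring
    rw [e] at h4
    rw [e]
    have h7 : 0 ≤ ‖cvO (et0 r) (w - w₀)‖ / r := by positivity
    generalize ‖cvO (et0 r) (w - w₀)‖ / r = X at h4 h7 ⊢
    generalize √(∑ l, ‖dw l‖ ^ 2) = D at hD0 ⊢
    have h8 : 0 ≤ cg * X := by positivity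
    have h9 : 0 ≤ cg * D := by positivity
    linarith
  · refine (nL_lO hr w₀).trans ?_
    rw [nL_gS hr]
    generalize √(∑ i, ‖cvO (pd i (et0 r)) (w - w₀)‖ ^ 2) = X at h3 h6 ⊢
    generalize √(∑ l, ‖dw l‖ ^ 2) = D at h3 hD0 ⊢
    have h8 : 0 ≤ cg * X := by positivity
    have h9 : 0 ≤ cg * D := by positivity
    linarith

end Pool.Agent.TF
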