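import Pool.Agent.TF.R.Sp
import Pool.Agent.TF.E.JL2

/-!
# Project TF, block R: row RB4, the damping term and the error of the forcing term (helper67)
-/

set_option autoImplicit false

namespace Pool.Agent.TF

open MeasureTheory Set Filter Topology Pool.Agent.TO Pool.Agent.TB Pool.Agent.TC Pool.Agent.TP
open scoped ENNReal NNReal Real InnerProductSpace SchwartzMap LineDeriv Laplacian

namespace DamR

/-- domination by the coefficients -/
theorem dom {g b : E3 → E3} {lam : E3 → ℝ} {A B : ℝ} (hg : AEStronglyMeasurable g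
    (volume : Measure E3)) (hl : MemLp lam 2 (volume : Measure E3))
    (hb : MemLp b 2 (volume : Measure E3)) (hA : 0 ≤ A) (hB : 0 ≤ B)
    (h : ∀ x, ‖g x‖ ≤ A * |lam x| + B * ‖b x‖) :
    MemLp g 2 (volume : Measure E3) ∧ ‖vL g‖ ≤ A * nL lam + B * ‖vL b‖ := by
  have h1 : MemLp (fun x => A * ‖lam x‖) 2 (volume : Measure E3) := hl.norm.const_mul A
  have h2 : MemLp (fun x => B * ‖b x‖) 2 (volume : Measure E3) := hb.norm.const_mul B
  have hh : MemLp (fun x => A * ‖lam x‖ + B * ‖b x‖) 2 (volume : Measure E3) := h1.add h2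
  have hle : ∀ x, ‖g x‖ ≤ ‖A * ‖lam x‖ + B * ‖b x‖‖ := fun x =>
    (h x).trans (le_abs_self _)
  have hg2 : MemLp g 2 (volume : Measure E3) := hh.mono hg (Eventually.of_forall hle)
  refine ⟨hg2, ?_⟩
  have e1 : eLpNorm (fun x => A * ‖lam x‖) 2 (volume : Measure E3) ≤
      ENNReal.ofReal A * eLpNorm lam 2 (volume : Measure E3) :=
    eLpNorm_le_mul_eLpNorm_of_ae_le_mul (Eventually.of_forall fun x => by
      rw [Real.norm_eq_abs, abs_mul, abs_of_nonneg hA, abs_norm]) 2
  have e2 : eLpNorm (fun x => B * ‖b x‖) 2 (volume : Measure E3) ≤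
      ENNReal.ofReal B * eLpNorm b 2 (volume : Measure E3) :=
    eLpNorm_le_mul_eLpNorm_of_ae_le_mul (Eventually.of_forall fun x => by
      rw [Real.norm_eq_abs, abs_mul, abs_of_nonneg hB, abs_norm]) 2
  have e3 : eLpNorm g 2 (volume : Measure E3) ≤
      ENNReal.ofReal A * eLpNorm lam 2 (volume : Measure E3) +
        ENNReal.ofReal B * eLpNorm b 2 (volume : Measure E3) :=
    (eLpNorm_mono hle).trans ((eLpNorm_add_le h1.1 h2.1 (by norm_num)).trans (add_le_add e1 e2))
  have hf1 : ENNReal.ofReal A * eLpNorm lam 2 (volume : Measure E3) ≠ ⊤ :=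
    ENNReal.mul_ne_top ENNReal.ofReal_ne_top hl.2.ne
  have hf2 : ENNReal.ofReal B * eLpNorm b 2 (volume : Measure E3) ≠ ⊤ :=
    ENNReal.mul_ne_top ENNReal.ofReal_ne_top hb.2.ne
  rw [norm_vL hg2, norm_vL hb]
  have e4 := ENNReal.toReal_mono (ENNReal.add_ne_top.2 ⟨hf1, hf2⟩) e3
  rw [ENNReal.toReal_add hf1 hf2, ENNReal.toReal_mul, ENNReal.toReal_mul,
    ENNReal.toReal_ofReal hA, ENNReal.toReal_ofReal hB] at e4
  exact e4

theorem damp (a : ℝ) (lam : E3 → ℝ) (f : E3 → E3) (hl : MemLp lam 2 (volume : Measure E3))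
    (hf : Continuous f) (hfa : ∀ x, ‖f x‖ ≤ a) :
    MemLp (fun x => lam x • f x) 2 (volume : Measure E3) ∧
      ‖vL fun x => lam x • f x‖ ≤ a * nL lam := by
  have ha : 0 ≤ a := (norm_nonneg _).trans (hfa 0)
  have h := dom (g := fun x => lam x • f x) (b := fun _ => (0 : E3)) (B := 0)
    (hl.1.smul hf.aestronglyMeasurable) hl (MemLp.zero' : MemLp (fun _ : E3 => (0 : E3)) 2 _) ha
    le_rfl (fun x => by
      rw [norm_smul, Real.norm_eq_abs, zero_mul, add_zero, mul_comm]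
      exact mul_le_mul_of_nonneg_right (hfa x) (abs_nonneg _))
  rw [zero_mul, add_zero] at h
  exact h

/-- bound of a sum over the coordinates of `b` -/
theorem sum_coord_le (v : E3) (w : Fin 3 → E3) {K : ℝ} (hw : ∀ i, ‖w i‖ ≤ K) :
    ‖∑ i, v i • w i‖ ≤ 3 * K * ‖v‖ := by
  have hK : 0 ≤ K := (norm_nonneg _).trans (hw 0)
  calc ‖∑ i, v i • w i‖ ≤ ∑ i, ‖v i • w i‖ := norm_sum_le _ _
    _ ≤ ∑ _i : Fin 3, ‖v‖ * K := Finset.sum_le_sum fun i _ => by
        rw [norm_smul]
        exact mul_le_mul (PiLp.norm_apply_le v i) (hw i) (norm_nonneg _) (norm_nonneg _)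
    _ = 3 * K * ‖v‖ := by
        rw [Finset.sum_const, Finset.card_univ, Fintype.card_fin, nsmul_eq_mul]
        push_cast
        ring

theorem cd_pd {f : E3 → E3} (hf : ContDiff ℝ 2 f) (i : Fin 3) : ContDiff ℝ 1 (pd i f) :=
  (hf.fderiv_right (m := 1) (by norm_num)).clm_apply contDiff_const

theorem cd_coord {b : E3 → E3} (hb : ContDiff ℝ 2 b) (i : Fin 3) :
    ContDiff ℝ 1 fun x => (b x) i :=
  ((EuclideanSpace.proj i : E3 →L[ℝ] ℝ).contDiff.comp hb).of_le (by norm_num)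

theorem cd_bg {b f : E3 → E3} (hb : ContDiff ℝ 2 b) (hf : ContDiff ℝ 2 f) :
    ContDiff ℝ 1 (bg b f) :=
  ContDiff.sum fun i _ => (cd_coord hb i).smul (cd_pd hf i)

theorem cd_tr0 {b f : E3 → E3} {lam : E3 → ℝ} (hb : ContDiff ℝ 2 b) (hl : ContDiff ℝ 2 lam)
    (hf : ContDiff ℝ 2 f) : ContDiff ℝ 1 (tr0 b lam f) :=
  ((hl.of_le (by norm_num)).smul (hf.of_le (by norm_num))).add (cd_bg hb hf)

theorem pd_coord {b : E3 → E3} (hb : ContDiff ℝ 2 b) (k i : Fin 3) (x : E3) :
    fderiv ℝ (fun x => (b x) i) x (ee k) = (pd k b x) i := by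
  have h : HasFDerivAt (fun x => (b x) i)
      ((EuclideanSpace.proj i : E3 →L[ℝ] ℝ).comp (fderiv ℝ b x)) x :=
    (EuclideanSpace.proj i : E3 →L[ℝ] ℝ).hasFDerivAt.comp x
      ((hb.differentiable (by norm_num)) x).hasFDerivAt
  rw [h.fderiv]
  rfl

theorem pd_tr0 {b f : E3 → E3} {lam : E3 → ℝ} (hb : ContDiff ℝ 2 b) (hl : ContDiff ℝ 2 lam)
    (hf : ContDiff ℝ 2 f) (k : Fin 3) (x : E3) : pd k (tr0 b lam f) x =
      (pd k lam x • f x + lam x • pd k f x) +
        ((∑ i, (pd k b x) i • pd i f x) + ∑ i, (b x) i • pd k (pd i f) x) := by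
  have hlx := ((hl.differentiable (by norm_num)) x).hasFDerivAt
  have hfx := ((hf.differentiable (by norm_num)) x).hasFDerivAt
  have h1 := hlx.smul hfx
  have h2 : ∀ i ∈ Finset.univ, HasFDerivAt (fun x => (b x) i • pd i f x)
      ((b x) i • fderiv ℝ (pd i f) x +
        (fderiv ℝ (fun x => (b x) i) x).smulRight (pd i f x)) x := fun i _ =>
    (((cd_coord hb i).differentiable (by norm_num)) x).hasFDerivAt.smul
      (((cd_pd hf i).differentiable (by norm_num)) x).hasFDerivAt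
  have h3 : HasFDerivAt (fun x => lam x • f x + ∑ i, (b x) i • pd i f x)
      (lam x • fderiv ℝ f x + (fderiv ℝ lam x).smulRight (f x) + ∑ i, ((b x) i • fderiv ℝ (pd i f) x +
        (fderiv ℝ (fun x => (b x) i) x).smulRight (pd i f x))) x :=
    h1.add (HasFDerivAt.fun_sum h2)
  have e : pd k (tr0 b lam f) x = fderiv ℝ (fun x => lam x • f x +
      ∑ i, (b x) i • pd i f x) x (ee k) := rfl
  rw [e, h3.fderiv]
  simp only [ContinuousLinearMap.add_apply, ContinuousLinearMap.sum_apply,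
    ContinuousLinearMap.smul_apply, ContinuousLinearMap.smulRight_apply, pd_coord hb]
  rw [Finset.sum_add_distrib]
  unfold pd
  abel

end DamR

open DamR in
theorem dam_ok (h0 : SpWk) (h1 : SpJd) (h2 : SpHt) : SpDam := by
  obtain ⟨CJ, hCJ, hJ⟩ := h1
  obtain ⟨CH, hCH, -, hH1, hH2, -, -⟩ := h2
  refine ⟨damp, fun N hN => ?_⟩
  have hN0 : 0 < N := lt_of_lt_of_le one_pos hN
  set K : ℝ := (N ^ 3 + 2 * N) * N + 3 * N * N with hK
  have hK0 : 0 < K := by positivity
  refine ⟨CJ * N * N * (N + N + N) + CH * (2 * K), by positivity, ?_⟩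
  intro r d b lam f hr hc hL hF hd hdN s hs
  have hr0 : 0 < r := lt_of_lt_of_le (by positivity) hr
  have hrN : 1 / r ≤ N := by
    rw [div_le_iff₀ hr0]
    rw [div_le_iff₀ hN0] at hr
    linarith
  have hf2 := hF.nc.c2
  have hfc : Continuous f := hf2.continuous
  obtain ⟨hlf, -⟩ := damp N lam f hL.ml hfc hF.f0
  have hbg : MemLp (bg b f) 2 (volume : Measure E3) :=
    (dom (A := 0) (B := 3 * N) (cd_bg hc.cb hf2).continuous.aestronglyMeasurable hL.ml hL.mb
      le_rfl (by positivity) fun x => by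
        rw [zero_mul, zero_add]
        exact sum_coord_le (b x) (fun i => pd i f x) fun i => hF.f1 i x).1
  refine ⟨hbg, ?_⟩
  have htr : MemLp (tr0 b lam f) 2 (volume : Measure E3) := hlf.add hbg
  have hFe : vL (tr0 b lam f) = vL (fun x => lam x • f x) + vL (bg b f) := vL_add hlf hbg
  have hpd : ∀ k, MemLp (pd k (tr0 b lam f)) 2 (volume : Measure E3) ∧
      ‖vL (pd k (tr0 b lam f))‖ ≤ K := by
    intro k
    have hm : Continuous (pd k (tr0 b lam f)) :=
      ((cd_tr0 hc.cb hc.cl hf2).continuous_fderiv (by norm_num)).clm_apply continuous_const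
    have h := dom (A := N ^ 3 + 2 * N) (B := 3 * N) hm.aestronglyMeasurable hL.ml hL.mb
      (by positivity) (by positivity) (fun x => ?_)
    · refine ⟨h.1, h.2.trans ?_⟩
      rw [hK]
      exact add_le_add (mul_le_mul_of_nonneg_left hL.nl (by positivity))
        (mul_le_mul_of_nonneg_left hL.nb (by positivity))
    · rw [pd_tr0 hc.cb hc.cl hf2, abs_of_nonneg (hc.l0 x)]
      have hl := hc.l0 x
      have a1 : ‖pd k lam x • f x‖ ≤ N ^ 3 * lam x := by
        rw [norm_smul, Real.norm_eq_abs]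
        have e1 : |pd k lam x| ≤ N * lam x * N := by
          refine (hc.l1 k x).trans ?_
          rw [div_eq_mul_one_div]
          exact mul_le_mul_of_nonneg_left hrN (by positivity)
        calc |pd k lam x| * ‖f x‖ ≤ (N * lam x * N) * N :=
              mul_le_mul e1 (hF.f0 x) (norm_nonneg _) (by positivity)
          _ = _ := by ring
      have a2 : ‖lam x • pd k f x‖ ≤ N * lam x := by
        rw [norm_smul, Real.norm_eq_abs, abs_of_nonneg hl, mul_comm]
        exact mul_le_mul_of_nonneg_right (hF.f1 k x) hl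
      have a3 : ‖∑ i, (pd k b x) i • pd i f x‖ ≤ N * lam x := by
        refine (sum_coord_le (pd k b x) (fun i => pd i f x) fun i => hF.f1 i x).trans ?_
        have e1 := hc.pdb k x
        calc 3 * N * ‖pd k b x‖ ≤ 3 * N * (lam x / 8) :=
              mul_le_mul_of_nonneg_left e1 (by positivity)
          _ ≤ N * lam x := by nlinarith [mul_nonneg hN0.le hl]
      have a4 : ‖∑ i, (b x) i • pd k (pd i f) x‖ ≤ 3 * N * ‖b x‖ :=
        sum_coord_le (b x) (fun i => pd k (pd i f) x) fun i => hF.f2 k i x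
      calc ‖(pd k lam x • f x + lam x • pd k f x) +
            ((∑ i, (pd k b x) i • pd i f x) + ∑ i, (b x) i • pd k (pd i f) x)‖
          ≤ (‖pd k lam x • f x‖ + ‖lam x • pd k f x‖) +
            (‖∑ i, (pd k b x) i • pd i f x‖ + ‖∑ i, (b x) i • pd k (pd i f) x‖) :=
            (norm_add_le _ _).trans (add_le_add (norm_add_le _ _) (norm_add_le _ _))
        _ ≤ (N ^ 3 * lam x + N * lam x) + (N * lam x + 3 * N * ‖b x‖) :=
            add_le_add (add_le_add a1 a2) (add_le_add a3 a4)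
        _ = _ := by ring
  have hs0 : 0 < s := hs.1
  have hs1 : s ≤ 1 := by
    have : d ≤ 1 := by nlinarith
    exact hs.2.trans this
  have hss : s ≤ √s := by
    have e1 : √s * √s = s := Real.mul_self_sqrt hs0.le
    have e2 : √s ≤ 1 := Real.sqrt_le_one.2 hs1
    nlinarith [Real.sqrt_nonneg s]
  have hw := hH2 s hs0 (vL (tr0 b lam f)) (fun k => vL (pd k (tr0 b lam f))) fun k =>
    h0 k (tr0 b lam f) (cd_tr0 hc.cb hc.cl hf2) htr (hpd k).1
  have hsq : √(∑ k, ‖vL (pd k (tr0 b lam f))‖ ^ 2) ≤ 2 * K := by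
    rw [Real.sqrt_le_left (by positivity), Fin.sum_univ_three]
    have e : ∀ k, ‖vL (pd k (tr0 b lam f))‖ ^ 2 ≤ K ^ 2 := fun k =>
      pow_le_pow_left₀ (norm_nonneg _) (hpd k).2 2
    have e0 := e 0
    have e1 := e 1
    have e2 := e 2
    nlinarith
  obtain ⟨hJ1, hJ2⟩ := hJ N r N N N N N d b lam f hc hL hF hd hdN
  have hd0 : (0 : ℝ) ∈ Icc 0 d := ⟨le_rfl, hd.le⟩
  have hJ3 := hJ2 s ⟨hs0.le, hs.2⟩ 0 hd0
  have hz : vL (dJst 0 b lam f) = -vL (tr0 b lam f) := by
    rw [← vL_neg htr]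
    congr 1
    funext x
    simp only [dJst, tr0, bg, zero_smul, sub_zero, zero_mul, one_smul]
    abel
  rw [hz, sub_zero, abs_of_pos hs0] at hJ3
  rw [← hFe]
  have e5 : cvO (hk s) (vL (dJst s b lam f)) + vL (tr0 b lam f) =
      cvO (hk s) (vL (dJst s b lam f) - -vL (tr0 b lam f)) -
        (cvO (hk s) (vL (tr0 b lam f)) - vL (tr0 b lam f)) := by
    rw [map_sub, map_neg]
    abel
  rw [e5]
  calc ‖cvO (hk s) (vL (dJst s b lam f) - -vL (tr0 b lam f)) -
        (cvO (hk s) (vL (tr0 b lam f)) - vL (tr0 b lam f))‖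
      ≤ ‖cvO (hk s) (vL (dJst s b lam f) - -vL (tr0 b lam f))‖ +
        ‖cvO (hk s) (vL (tr0 b lam f)) - vL (tr0 b lam f)‖ := norm_sub_le _ _
    _ ≤ CJ * N * N * (N + N + N) * s + CH * √s * (2 * K) :=
        add_le_add ((hH1 s hs0 _).trans hJ3)
          (hw.trans (mul_le_mul_of_nonneg_left hsq (by positivity)))
    _ ≤ CJ * N * N * (N + N + N) * √s + CH * √s * (2 * K) :=
        add_le_add (mul_le_mul_of_nonneg_left hss (by positivity)) le_rfl
    _ = _ := by ring

end Pool.Agent.TF
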