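import Pool.Agent.TF.R.Sp
import Pool.Agent.TF.E.Div
import Pool.Agent.TF.E.NcC
import Pool.Agent.TF.E.Src

/-!
# Block R, row RA5: the equation of the interpolated field
-/

set_option autoImplicit false

namespace Pool.Agent.TF

open MeasureTheory Set Filter Topology Pool.Agent.TO Pool.Agent.TB Pool.Agent.TC Pool.Agent.TP
open scoped ENNReal NNReal Real InnerProductSpace SchwartzMap LineDeriv Laplacian

namespace EqR

/-- the heat semigroup, the identity for `s ≤ 0` -/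
noncomputable def Et (s : ℝ) (f : V3) : V3 := by
  classical
  exact if s ≤ 0 then f else cvO (hk s) f

theorem Et_pos {s : ℝ} (hs : 0 < s) (f : V3) : Et s f = cvO (hk s) f := by
  unfold Et
  rw [if_neg (not_le.2 hs)]

theorem Et_nonpos {s : ℝ} (hs : s ≤ 0) (f : V3) : Et s f = f := by
  unfold Et
  rw [if_pos hs]

theorem Et_symm (h2 : SpHt) (s : ℝ) (f g : V3) : ⟪f, Et s g⟫_ℝ = ⟪Et s f, g⟫_ℝ := by
  obtain ⟨C, hC, h, -⟩ := h2
  rcases le_or_gt s 0 with hs | hs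
  · rw [Et_nonpos hs, Et_nonpos hs]
  · rw [Et_pos hs, Et_pos hs, h s hs]

theorem continuous_Et (h2 : SpHt) (h3 : SpHd) (f : V3) : Continuous fun s => Et s f := by
  obtain ⟨C, hC, -, -, -, ht, -⟩ := h2
  rw [continuous_iff_continuousAt]
  intro s
  rcases lt_trichotomy s 0 with hs | hs | hs
  · refine (continuousAt_const (y := f)).congr ?_
    filter_upwards [eventually_lt_nhds hs] with τ hτ
    exact (Et_nonpos hτ.le f).symm
  · subst hs
    unfold ContinuousAt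
    have e0 : (fun s => Et s f) 0 = f := Et_nonpos le_rfl f
    rw [e0, ← nhdsLE_sup_nhdsGT, tendsto_sup]
    constructor
    · refine (tendsto_const_nhds (x := f)).congr' ?_
      filter_upwards [self_mem_nhdsWithin] with τ hτ
      exact (Et_nonpos hτ f).symm
    · refine (ht f).congr' ?_
      filter_upwards [self_mem_nhdsWithin] with τ hτ
      exact (Et_pos hτ f).symm
  · refine ((h3.2 f).continuousAt (Ioi_mem_nhds hs)).congr ?_
    filter_upwards [eventually_gt_nhds hs] with τ hτ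
    exact (Et_pos hτ f).symm

/-- continuity of the pairings -/
theorem cnt (h2 : SpHt) (h3 : SpHd) {d : ℝ} {G : ℝ → V3} (hG : ContinuousOn G (Icc 0 d))
    (ψ : V3) : ContinuousOn (fun s => ⟪ψ, Et s (G s)⟫_ℝ) (Icc 0 d) := by
  simp only [Et_symm h2]
  exact (continuous_Et h2 h3 ψ).continuousOn.inner hG

/-- the product rule -/
theorem der (h2 : SpHt) (h3 : SpHd) {d s : ℝ} {G : ℝ → V3} {G' χ ψ : V3} {df ddf : Fin 3 → V3}
    (w1 : ∀ k, IsWeakDeriv k ψ (df k)) (w2 : ∀ k, IsWeakDeriv k (df k) (ddf k))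
    (hχ : ∑ k, ddf k = χ) (hs : s ∈ Ioo 0 d) (hG : HasDerivWithinAt G G' (Icc 0 d) s) :
    HasDerivAt (fun s => ⟪ψ, Et s (G s)⟫_ℝ) (⟪χ, Et s (G s)⟫_ℝ + ⟪ψ, Et s G'⟫_ℝ) s := by
  simp only [Et_symm h2]
  have h4 := h3.1 s hs.1 ψ df ddf w1 w2
  rw [hχ, ← Et_pos hs.1] at h4
  have h5 : HasDerivAt (fun s => Et s ψ) (Et s χ) s := by
    refine h4.congr_of_eventuallyEq ?_
    filter_upwards [eventually_gt_nhds hs.1] with τ hτ
    exact Et_pos hτ ψ
  have h6 : HasDerivAt G G' s := hG.hasDerivAt (Icc_mem_nhds hs.1 hs.2)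
  have h7 := h5.inner ℝ h6
  rw [add_comm]
  exact h7

theorem lap_comm (φ : 𝓢(E3, E3)) (k : Fin 3) :
    ∑ i, ∂_{ee i} (∂_{ee i} (∂_{ee k} φ)) = (∂_{ee k} (Δ φ) : 𝓢(E3, E3)) := by
  have h1 : ∀ i : Fin 3, (∂_{ee i} (∂_{ee i} (∂_{ee k} φ)) : 𝓢(E3, E3)) =
      ∂_{ee k} (∂_{ee i} (∂_{ee i} φ)) := by
    intro i
    rw [lineDeriv_comm φ i k, lineDeriv_comm _ i k]
  simp only [h1]
  rw [laplacian_real, Fin.sum_univ_three, Fin.sum_univ_three]
  simp only [LineDeriv.lineDerivOp_add]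

theorem test_pd {φ : 𝓢(E3, E3)} (h : TestDivFree φ) (i : Fin 3) : TestDivFree (∂_{ee i} φ) := by
  intro x
  have h1 : ∀ k : Fin 3, HasLineDerivAt ℝ (fun x => (∂_{ee k} φ) x k)
      ((∂_{ee k} (∂_{ee i} φ)) x k) x (ee i) := by
    intro k
    have h2 := line_schwartz (∂_{ee k} φ) i x
    rw [lineDeriv_comm φ i k] at h2
    unfold HasLineDerivAt at h2 ⊢
    exact ((EuclideanSpace.proj (𝕜 := ℝ) k : E3 →L[ℝ] ℝ).hasFDerivAt).comp_hasDerivAt _ h2
  have h3 : HasDerivAt (fun t : ℝ => ∑ k, (∂_{ee k} φ) (x + t • ee i) k)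
      (∑ k, (∂_{ee k} (∂_{ee i} φ)) x k) 0 := HasDerivAt.fun_sum fun k _ => h1 k
  have h4 : (fun t : ℝ => ∑ k, (∂_{ee k} φ) (x + t • ee i) k) = fun _ => 0 := by
    funext t
    exact h _
  rw [h4] at h3
  exact h3.unique (hasDerivAt_const 0 0)

theorem test_add {φ φ' : 𝓢(E3, E3)} (h : TestDivFree φ) (h' : TestDivFree φ') :
    TestDivFree (φ + φ') := by
  intro x
  have h1 : ∀ k : Fin 3, (∂_{ee k} (φ + φ')) x k = (∂_{ee k} φ) x k + (∂_{ee k} φ') x k := by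
    intro k
    rw [LineDeriv.lineDerivOp_add]
    rfl
  simp only [h1, Finset.sum_add_distrib]
  rw [h x, h' x, add_zero]

theorem test_lap {φ : 𝓢(E3, E3)} (h : TestDivFree φ) : TestDivFree (Δ φ) := by
  rw [laplacian_real, Fin.sum_univ_three]
  exact test_add (test_add (test_pd (test_pd h _) _) (test_pd (test_pd h _) _))
    (test_pd (test_pd h _) _)

/-- the derivative of the smoothed function -/
theorem weak_heat {s : ℝ} (hs : 0 < s) {F : E3 → E3} (hF : Continuous F)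
    (h2 : MemLp F 2 (volume : Measure E3)) (k : Fin 3) :
    IsWeakDeriv k (cvO (hk s) (vL F)) (vL (pd k (heat s F))) := by
  have hs1 : SmN 1 (hk s) := (smN_hk hs).mono (by norm_num)
  have hk' : KK (pd k (hk s)) _ := ((smN_hk hs).pd k).kk
  rw [heat_eq_cvf, pd_cvf (gf_l2 h2) hs1 k, vL_cvf hk' hF.stronglyMeasurable h2]
  refine weak_kernel (kk_hk hs) hk' (fun y => ?_) (vL F)
  exact ((hs1.cd.differentiable one_ne_zero) y).hasFDerivAt.hasLineDerivAt (ee k)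

/-- the pairing with a derivative -/
theorem pair {R : Fin 3 → V3 →L[ℝ] V3} (hR : RZ R) (h4 : SpLP) (j : Option (Fin 3)) {k : Fin 3}
    {f g : V3} (h : IsWeakDeriv k f g) (φ : 𝓢(E3, E3)) :
    ⟪emb φ, To R j g⟫_ℝ = -(sj j * ⟪To R j (emb (∂_{ee k} φ)), f⟫_ℝ) := by
  obtain ⟨a1, -, -, a4, -⟩ := h4 R hR
  have h1 := weak_iff.1 (a4 j k f g h) φ
  rw [a1] at h1
  rw [h1, neg_neg]

variable {R : Fin 3 → V3 →L[ℝ] V3} {c r Λ d η : ℝ} {b : E3 → E3} {lam : E3 → ℝ} {σ : Sta}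

/-- the functional -/
noncomputable def Pf (R : Fin 3 → V3 →L[ℝ] V3) (η : ℝ) (b : E3 → E3) (lam : E3 → ℝ) (σ : Sta)
    (φ : 𝓢(E3, E3)) (s : ℝ) : ℝ :=
  -(∑ k, ∑ j, sj j * ⟪To R j (emb (∂_{ee k} φ)), Et s (vL (Jst s b lam (σ.g k j)))⟫_ℝ) -
    (∑ k, ⟪emb (∂_{ee k} φ), Et s (vL (Jst s b lam (σ.h k)) + s • vL (src R η σ k))⟫_ℝ) +
    ⟪emb φ, Et s σ.l⟫_ℝ

theorem src_nc (hη : 0 < η) (k : Fin 3) : Nc (src R η σ k) := by
  have h1 : Nc (heat η (tens k (Hh R σ) (Hh R σ) : V3)) :=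
    nc_cvf_V3 (smN_hk hη) _
  exact nc_neg h1

theorem jst_zero (f : E3 → E3) : Jst 0 b lam f = f := by
  funext x
  simp [Jst]

theorem cont_J (hc : Coef c r Λ b lam) (s : ℝ) {f : E3 → E3} (hf : Continuous f) :
    Continuous (Jst s b lam f) :=
  (continuous_const.sub (continuous_const.mul hc.cl.continuous)).smul
    (hf.comp (hc.continuous_shift s))

/-- the pairing with the field -/
theorem rep (h4 : SpLP) (hR : RZ R) (hc : Coef c r Λ b lam)
    (hdΛ : d * Λ ≤ 1) (hη : 0 < η) (hσ : NcS σ)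
    {φ : 𝓢(E3, E3)} (hφ : TestDivFree φ) {s : ℝ} (hs : s ∈ Icc 0 d) :
    ⟪emb φ, Us R η b lam σ s⟫_ℝ = Pf R η b lam σ φ s := by
  have key : ∀ σ' : Sta, (∀ k j, IsWeakDeriv k (Et s (vL (Jst s b lam (σ.g k j))))
      (vL (pd k (σ'.g k j)))) →
      (∀ k, IsWeakDeriv k (Et s (vL (Jst s b lam (σ.h k)) + s • vL (src R η σ k)))
        (vL (pd k (σ'.h k)))) → σ'.l = Et s σ.l → ⟪emb φ, Hh R σ'⟫_ℝ = Pf R η b lam σ φ s := by
    intro σ' e1 e2 e3
    obtain ⟨-, a2, a3, -, -⟩ := h4 R hR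
    unfold Hh Pf
    rw [inner_add_right, inner_add_right, a2 |> fun h => (h (emb φ) _).symm,
      a3 _ (div_schwartz hφ), e3]
    congr 1
    rw [sub_eq_add_neg]
    congr 1
    · rw [inner_sum, ← Finset.sum_neg_distrib]
      refine Finset.sum_congr rfl fun k _ => ?_
      rw [inner_sum, ← Finset.sum_neg_distrib]
      exact Finset.sum_congr rfl fun j _ => pair hR h4 j (e1 k j) φ
    · rw [inner_sum, ← Finset.sum_neg_distrib]
      refine Finset.sum_congr rfl fun k _ => ?_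
      rw [weak_iff.1 (e2 k) φ, neg_neg]
  unfold Us Ss
  by_cases h0 : s ≤ 0
  · rw [if_pos h0]
    have h0' : s = 0 := le_antisymm h0 hs.1
    subst h0'
    refine key σ (fun k j => ?_) (fun k => ?_) ?_
    · rw [Et_nonpos le_rfl, jst_zero]
      exact dv_weak_Nc (hσ.1 k j) k
    · rw [Et_nonpos le_rfl, jst_zero, zero_smul, add_zero]
      exact dv_weak_Nc (hσ.2 k) k
    · rw [Et_nonpos le_rfl]
  · rw [if_neg h0]
    have h0' : 0 < s := not_le.1 h0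
    refine key _ (fun k j => ?_) (fun k => ?_) ?_
    · rw [Et_pos h0']
      have hn := hσ.1 k j
      exact weak_heat h0' (cont_J hc s hn.cont) (hc.memLp_Jst hs.1
        ((mul_le_mul_of_nonneg_right hs.2 hc.Λ0).trans hdΛ) hn.cont hn.m0).1 k
    · rw [Et_pos h0']
      have hn := hσ.2 k
      have hsrc := src_nc (R := R) (σ := σ) hη k
      have m1 := (hc.memLp_Jst hs.1
        ((mul_le_mul_of_nonneg_right hs.2 hc.Λ0).trans hdΛ) hn.cont hn.m0).1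
      have m2 : MemLp (fun x => s • src R η σ k x) 2 (volume : Measure E3) :=
        hsrc.m0.const_smul s
      rw [← vL_smul s hsrc.m0, ← vL_add m1 m2]
      exact weak_heat h0' ((cont_J hc s hn.cont).add (hsrc.cont.const_smul s))
        (m1.add m2) k
    · rw [Et_pos h0']
      rfl

/-- the derivative of the functional -/
noncomputable def Pf' (R : Fin 3 → V3 →L[ℝ] V3) (η : ℝ) (b : E3 → E3) (lam : E3 → ℝ) (σ : Sta)
    (φ : 𝓢(E3, E3)) (s : ℝ) : ℝ :=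
  -(∑ k, ∑ j, sj j * (⟪To R j (emb (∂_{ee k} (Δ φ))), Et s (vL (Jst s b lam (σ.g k j)))⟫_ℝ +
      ⟪To R j (emb (∂_{ee k} φ)), Et s (vL (dJst s b lam (σ.g k j)))⟫_ℝ)) -
    (∑ k, (⟪emb (∂_{ee k} (Δ φ)), Et s (vL (Jst s b lam (σ.h k)) + s • vL (src R η σ k))⟫_ℝ +
      ⟪emb (∂_{ee k} φ), Et s (vL (dJst s b lam (σ.h k)) + vL (src R η σ k))⟫_ℝ)) +
    (⟪emb (Δ φ), Et s σ.l⟫_ℝ + ⟪emb φ, Et s 0⟫_ℝ)

theorem hasDeriv (h1 : SpJd) (h2 : SpHt) (h3 : SpHd) (h4 : SpLP) (hR : RZ R)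
    {B : ℝ} (hc : Coef c r Λ b lam) (hl : CoL B b lam) (hd : 0 < d) (hdΛ : d * Λ ≤ 1)
    (hσ : NcS σ) (φ : 𝓢(E3, E3)) {s : ℝ} (hs : s ∈ Ioo 0 d) :
    HasDerivAt (Pf R η b lam σ φ) (Pf' R η b lam σ φ s) s := by
  obtain ⟨-, -, -, a4, -⟩ := h4 R hR
  obtain ⟨C, hC, hJ⟩ := h1
  have hs' : s ∈ Icc 0 d := Ioo_subset_Icc_self hs
  have hJ' : ∀ f, Nc f → HasDerivWithinAt (fun s => vL (Jst s b lam f)) (vL (dJst s b lam f))
      (Icc 0 d) s := by
    intro f hf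
    obtain ⟨F₀, h0⟩ := hf.b0
    obtain ⟨F₁, h1⟩ := hf.b1
    obtain ⟨F₂, h2⟩ := hf.b2
    exact ((hJ c r Λ B F₀ F₁ F₂ d b lam f hc hl ⟨hf, h0, h1, h2⟩ hd hdΛ).1 s hs').2.2.2.2.2.2.2
  unfold Pf Pf'
  refine HasDerivAt.add (HasDerivAt.sub (HasDerivAt.neg ?_) ?_) ?_
  · refine HasDerivAt.fun_sum fun k _ => HasDerivAt.fun_sum fun j _ => HasDerivAt.const_mul _ ?_
    refine der h2 h3 (df := fun i => To R j (emb (∂_{ee i} (∂_{ee k} φ))))
      (ddf := fun i => To R j (emb (∂_{ee i} (∂_{ee i} (∂_{ee k} φ)))))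
      (fun i => a4 j i _ _ (weak_schwartz _ i)) (fun i => a4 j i _ _ (weak_schwartz _ i))
      ?_ hs (hJ' _ (hσ.1 k j))
    rw [← map_sum, ← map_sum, lap_comm]
  · refine HasDerivAt.fun_sum fun k _ => ?_
    refine der h2 h3 (df := fun i => emb (∂_{ee i} (∂_{ee k} φ)))
      (ddf := fun i => emb (∂_{ee i} (∂_{ee i} (∂_{ee k} φ))))
      (fun i => weak_schwartz _ i) (fun i => weak_schwartz _ i)
      ?_ hs ((hJ' _ (hσ.2 k)).add ?_)
    · rw [← map_sum, lap_comm]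
    · have := ((hasDerivAt_id s).smul_const (vL (src R η σ k))).hasDerivWithinAt (s := Icc 0 d)
      rwa [one_smul] at this
  · refine der h2 h3 (df := fun i => emb (∂_{ee i} φ))
      (ddf := fun i => emb (∂_{ee i} (∂_{ee i} φ)))
      (fun i => weak_schwartz _ i) (fun i => weak_schwartz _ i)
      ?_ hs (hasDerivWithinAt_const s _ _)
    rw [← map_sum, laplacian_real]

theorem contPf (h1 : SpJd) (h2 : SpHt) (h3 : SpHd)
    {B : ℝ} (hc : Coef c r Λ b lam) (hl : CoL B b lam) (hd : 0 < d) (hdΛ : d * Λ ≤ 1)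
    (hσ : NcS σ) (φ : 𝓢(E3, E3)) :
    ContinuousOn (Pf R η b lam σ φ) (Icc 0 d) ∧ ContinuousOn (Pf' R η b lam σ φ) (Icc 0 d) := by
  obtain ⟨C, hC, hJ⟩ := h1
  have hJ' : ∀ f, Nc f → ContinuousOn (fun s => vL (Jst s b lam f)) (Icc 0 d) ∧
      ContinuousOn (fun s => vL (dJst s b lam f)) (Icc 0 d) := by
    intro f hf
    obtain ⟨F₀, h0⟩ := hf.b0
    obtain ⟨F₁, h1⟩ := hf.b1
    obtain ⟨F₂, h2⟩ := hf.b2
    obtain ⟨g1, g2⟩ := hJ c r Λ B F₀ F₁ F₂ d b lam f hc hl ⟨hf, h0, h1, h2⟩ hd hdΛ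
    refine ⟨fun s hs => (g1 s hs).2.2.2.2.2.2.2.continuousWithinAt, ?_⟩
    set K : ℝ := C * B * Λ * (F₀ + F₁ + F₂) with hK
    have hlip : LipschitzOnWith (Real.toNNReal K) (fun s => vL (dJst s b lam f)) (Icc 0 d) := by
      refine LipschitzOnWith.of_dist_le_mul fun s hs s' hs' => ?_
      rw [dist_eq_norm, Real.dist_eq]
      exact (g2 s hs s' hs').trans
        (mul_le_mul_of_nonneg_right (Real.le_coe_toNNReal _) (abs_nonneg _))
    exact hlip.continuousOn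
  have hsm : ∀ v : V3, ContinuousOn (fun s : ℝ => s • v) (Icc 0 d) := fun v =>
    (continuous_id.smul continuous_const).continuousOn
  constructor
  · unfold Pf
    refine ContinuousOn.add (ContinuousOn.sub (ContinuousOn.neg ?_) ?_) ?_
    · refine continuousOn_finsetSum _ fun k _ => continuousOn_finsetSum _ fun j _ =>
        continuousOn_const.mul ?_
      exact cnt h2 h3 (hJ' _ (hσ.1 k j)).1 _
    · refine continuousOn_finsetSum _ fun k _ => ?_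
      exact cnt h2 h3 ((hJ' _ (hσ.2 k)).1.add (hsm _)) _
    · exact cnt h2 h3 continuousOn_const _
  · unfold Pf'
    refine ContinuousOn.add (ContinuousOn.sub (ContinuousOn.neg ?_) ?_) (ContinuousOn.add ?_ ?_)
    · refine continuousOn_finsetSum _ fun k _ => continuousOn_finsetSum _ fun j _ =>
        continuousOn_const.mul (ContinuousOn.add ?_ ?_)
      · exact cnt h2 h3 (hJ' _ (hσ.1 k j)).1 _
      · exact cnt h2 h3 (hJ' _ (hσ.1 k j)).2 _
    · refine continuousOn_finsetSum _ fun k _ => ContinuousOn.add ?_ ?_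
      · exact cnt h2 h3 ((hJ' _ (hσ.2 k)).1.add (hsm _)) _
      · exact cnt h2 h3 ((hJ' _ (hσ.2 k)).2.add continuousOn_const) _
    · exact cnt h2 h3 continuousOn_const _
    · exact cnt h2 h3 continuousOn_const _

/-- the derivative of the functional is the right side of the equation -/
theorem rep' (h4 : SpLP) (hR : RZ R) (hc : Coef c r Λ b lam)
    (hdΛ : d * Λ ≤ 1) (hη : 0 < η) (hσ : NcS σ)
    {φ : 𝓢(E3, E3)} (hφ : TestDivFree φ) {s : ℝ} (hs : s ∈ Ioc 0 d) :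
    Pf' R η b lam σ φ s = ⟪emb (Δ φ), Us R η b lam σ s⟫_ℝ -
      ∑ k, ⟪emb (∂_{ee k} φ), Kf R η b lam σ s k⟫_ℝ := by
  obtain ⟨a1, -, -, -, -⟩ := h4 R hR
  rw [rep h4 hR hc hdΛ hη hσ (test_lap hφ) (Ioc_subset_Icc_self hs)]
  have hz : Et s (0 : V3) = 0 := by rw [Et_pos hs.1, map_zero]
  have e1 : ∀ k, ⟪emb (∂_{ee k} φ), Kf R η b lam σ s k⟫_ℝ =
      (∑ j, sj j * ⟪To R j (emb (∂_{ee k} φ)), Et s (vL (dJst s b lam (σ.g k j)))⟫_ℝ) +
      ⟪emb (∂_{ee k} φ), Et s (vL (dJst s b lam (σ.h k)) + vL (src R η σ k))⟫_ℝ := by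
    intro k
    unfold Kf
    rw [inner_add_right, inner_sum, ← Et_pos hs.1]
    congr 1
    refine Finset.sum_congr rfl fun j _ => ?_
    rw [a1, ← Et_pos hs.1]
  simp only [e1]
  unfold Pf' Pf
  rw [hz, inner_zero_right]
  simp only [mul_add, Finset.sum_add_distrib]
  ring

end EqR

open EqR in
theorem eq_ok (_h0 : SpWk) (h1 : SpJd) (h2 : SpHt) (h3 : SpHd) (h4 : SpLP) : SpEq := by
  intro c r Λ B M d η R b lam σ hR hc hl hd hdΛ hη hσ _hM φ hφ s s' h0s hss' hs'd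
  have m1 : s' ∈ Icc 0 d := ⟨h0s.trans hss', hs'd⟩
  have m0 : s ∈ Icc 0 d := ⟨h0s, hss'.trans hs'd⟩
  rw [rep h4 hR hc hdΛ hη hσ hφ m1, rep h4 hR hc hdΛ hη hσ hφ m0]
  obtain ⟨c1, c2⟩ := contPf (R := R) (η := η) h1 h2 h3 hc hl hd hdΛ hσ φ
  have hsub : Icc s s' ⊆ Icc 0 d := Icc_subset_Icc h0s hs'd
  have key := intervalIntegral.integral_eq_sub_of_hasDerivAt_of_le hss' (c1.mono hsub)
    (fun x hx => hasDeriv h1 h2 h3 h4 hR hc hl hd hdΛ hσ φ
      ⟨h0s.trans_lt hx.1, hx.2.trans_le hs'd⟩)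
    ((c2.mono hsub).intervalIntegrable_of_Icc hss')
  rw [← key, intervalIntegral.integral_of_le hss', intervalIntegral.integral_of_le hss']
  refine setIntegral_congr_fun measurableSet_Ioc fun τ hτ => ?_
  exact rep' h4 hR hc hdΛ hη hσ hφ ⟨h0s.trans_lt hτ.1, hτ.2.trans hs'd⟩

end Pool.Agent.TF
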