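import Pool.Agent.TF.R.Sp
import Pool.Agent.TF.Poi
import Pool.Agent.TF.E.Dk2

/-!
# Block R, row RA3: the heat equation in `L²`
-/

set_option autoImplicit false

namespace Pool.Agent.TF

open MeasureTheory Set Filter Topology Pool.Agent.TO Pool.Agent.TB Pool.Agent.TC Pool.Agent.TP
open scoped ENNReal NNReal Real InnerProductSpace SchwartzMap LineDeriv

namespace Hd

/-- the derivative of the heat kernel in time -/
noncomputable def lk (s : ℝ) (x : E3) : ℝ := hk s x * (‖x‖ ^ 2 / (4 * s ^ 2) - 3 / (2 * s))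

theorem hasDerivAt_hk {s : ℝ} (hs : 0 < s) (x : E3) :
    HasDerivAt (fun s => hk s x) (lk s x) s := by
  have hp := Real.pi_pos
  have h1 : HasDerivAt (fun s : ℝ => 4 * π * s) (4 * π) s := by
    simpa using (hasDerivAt_id s).const_mul (4 * π)
  have h2 := h1.rpow_const (p := (-(3 / 2) : ℝ)) (Or.inl (by positivity))
  have h3 : HasDerivAt (fun s : ℝ => -‖x‖ ^ 2 / (4 * s)) (‖x‖ ^ 2 / (4 * s ^ 2)) s := by
    have h4 : HasDerivAt (fun s : ℝ => 4 * s) 4 s := by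
      simpa using (hasDerivAt_id s).const_mul 4
    have h5 := (hasDerivAt_const s (-‖x‖ ^ 2)).div h4 (by positivity)
    refine h5.congr_deriv ?_
    field_simp
    ring
  have h6 := h2.mul h3.exp
  unfold hk
  refine h6.congr_deriv ?_
  unfold lk hk
  have h7 : (4 * π * s) ^ (-(3 / 2) - 1 : ℝ) = (4 * π * s) ^ (-(3 / 2) : ℝ) / (4 * π * s) :=
    Real.rpow_sub_one (by positivity) _
  rw [h7]
  field_simp
  ring

theorem hasFDerivAt_hk (s : ℝ) (hs : 0 < s) (x : E3) :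
    HasFDerivAt (hk s) ((-(1 / (2 * s)) * hk s x) • innerSL ℝ x) x := by
  have h := (hasFDerivAt_gau (1 / (4 * s)) x).const_mul ((4 * π * s) ^ (-(3 / 2) : ℝ))
  have e : hk s = fun y => (4 * π * s) ^ (-(3 / 2) : ℝ) * Real.exp (-(1 / (4 * s)) * ‖y‖ ^ 2) :=
    funext fun y => hk_eq s y
  rw [e]
  refine h.congr_fderiv ?_
  ext v
  simp only [smul_apply, innerSL_apply_apply, smul_eq_mul]
  field_simp
  ring

theorem pd_hk {s : ℝ} (hs : 0 < s) (k : Fin 3) :
    pd k (hk s) = fun x => -(1 / (2 * s)) * (x k * hk s x) := by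
  funext x
  unfold pd
  rw [(hasFDerivAt_hk s hs x).fderiv, smul_apply, inner_ee', smul_eq_mul]
  ring

theorem pd_pd_hk {s : ℝ} (hs : 0 < s) (k : Fin 3) (x : E3) :
    pd k (pd k (hk s)) x = (x k ^ 2 / (4 * s ^ 2) - 1 / (2 * s)) * hk s x := by
  rw [pd_hk hs]
  unfold pd
  have h1 := hasFDerivAt_coord k x
  have h2 : HasFDerivAt (fun x : E3 => -(1 / (2 * s)) * (x k * hk s x)) _ x :=
    (h1.mul (hasFDerivAt_hk s hs x)).const_mul (-(1 / (2 * s)))
  rw [h2.fderiv]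
  have e : (EuclideanSpace.proj (𝕜 := ℝ) k : E3 →L[ℝ] ℝ) (ee k) = 1 := by
    rw [show (EuclideanSpace.proj (𝕜 := ℝ) k : E3 →L[ℝ] ℝ) (ee k) = if k = k then 1 else 0 from
      ee_apply k k, if_pos rfl]
  simp only [smul_apply, add_apply, inner_ee', smul_eq_mul, e]
  field_simp
  ring

theorem sum_pd_pd_hk {s : ℝ} (hs : 0 < s) (x : E3) :
    ∑ k, pd k (pd k (hk s)) x = lk s x := by
  have hn : ‖x‖ ^ 2 = x 0 ^ 2 + x 1 ^ 2 + x 2 ^ 2 := by
    rw [EuclideanSpace.norm_sq_eq, Fin.sum_univ_three]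
    simp only [Real.norm_eq_abs, sq_abs]
  rw [Fin.sum_univ_three, pd_pd_hk hs, pd_pd_hk hs, pd_pd_hk hs]
  unfold lk
  rw [hn]
  ring

/-- the bound of the time derivative -/
theorem abs_lk_le {y : ℝ} (hy : 0 < y) : ∃ C : ℝ, ∀ s, y / 2 < s → s < 2 * y → ∀ x : E3,
    |lk s x| ≤ C * sg y x ^ 4 := by
  have hp := Real.pi_pos
  set c : ℝ := (2 * π * y) ^ (-(3 / 2) : ℝ) with hc
  have hc0 : 0 < c := by positivity
  refine ⟨c * ((24 * y) ^ 3 * (1 + y / 24) ^ 2 / y ^ 2), fun s h1 h2 x => ?_⟩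
  have hs : 0 < s := by linarith
  set t : ℝ := ‖x‖ ^ 2 with ht
  have ht0 : 0 ≤ t := by positivity
  have e1 : (4 * π * s) ^ (-(3 / 2) : ℝ) ≤ c := by
    rw [hc]
    apply Real.rpow_le_rpow_of_nonpos (by positivity) _ (by norm_num)
    nlinarith
  have e2 : Real.exp (-‖x‖ ^ 2 / (4 * s)) ≤ Real.exp (-(t / (8 * y))) := by
    rw [Real.exp_le_exp, neg_div, neg_le_neg_iff]
    exact div_le_div_of_nonneg_left ht0 (by positivity) (by linarith)
  have e3 : Real.exp (-(t / (8 * y))) ≤ ((24 * y) / (24 * y + t)) ^ 3 := by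
    have h3 : 1 + t / (24 * y) ≤ Real.exp (t / (24 * y)) := by
      have := Real.add_one_le_exp (t / (24 * y))
      linarith
    have h4 : (1 + t / (24 * y)) ^ 3 ≤ Real.exp (t / (8 * y)) := by
      calc (1 + t / (24 * y)) ^ 3 ≤ Real.exp (t / (24 * y)) ^ 3 :=
            pow_le_pow_left₀ (by positivity) h3 3
        _ = Real.exp (t / (8 * y)) := by
            rw [← Real.exp_nat_mul]
            congr 1
            push_cast
            field_simp
            ring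
    rw [Real.exp_neg, inv_le_comm₀ (Real.exp_pos _) (by positivity), ← inv_pow, inv_div]
    refine le_trans (le_of_eq ?_) h4
    congr 1
    field_simp
  have e4 : |t / (4 * s ^ 2) - 3 / (2 * s)| ≤ (24 * y + t) / y ^ 2 := by
    have h5 : t / (4 * s ^ 2) ≤ t / y ^ 2 := by
      apply div_le_div_of_nonneg_left ht0 (by positivity)
      nlinarith
    have h6 : 3 / (2 * s) ≤ 3 / y := by
      apply div_le_div_of_nonneg_left (by norm_num) hy
      linarith
    have h7 : 0 ≤ t / (4 * s ^ 2) := by positivity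
    have h8 : 0 ≤ 3 / (2 * s) := by positivity
    have h9 : (24 * y + t) / y ^ 2 = t / y ^ 2 + 24 / y := by
      field_simp
      ring
    have h10 : 3 / y ≤ 24 / y := by
      apply div_le_div_of_nonneg_right _ hy.le
      norm_num
    have h11 : 0 ≤ t / y ^ 2 := by positivity
    have h12 : 0 ≤ 24 / y := by positivity
    rw [h9, abs_le]
    constructor <;> linarith
  have e5 : |lk s x| ≤ c * ((24 * y) / (24 * y + t)) ^ 3 * ((24 * y + t) / y ^ 2) := by
    unfold lk hk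
    rw [abs_mul, abs_mul, abs_of_pos (Real.exp_pos _), abs_of_pos (by positivity)]
    refine mul_le_mul (mul_le_mul e1 (e2.trans e3) (Real.exp_pos _).le hc0.le) e4 (abs_nonneg _)
      (by positivity)
  refine e5.trans ?_
  have e6 : sg y x ^ 4 * (y ^ 2 + t) ^ 2 = 1 := by
    have := sg_sq hy x
    calc sg y x ^ 4 * (y ^ 2 + t) ^ 2 = (sg y x ^ 2 * (y ^ 2 + ‖x‖ ^ 2)) ^ 2 := by rw [ht]; ring
      _ = 1 := by rw [this, one_pow]
  have e7 : sg y x ^ 4 = 1 / (y ^ 2 + t) ^ 2 := by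
    rw [eq_div_iff (by positivity)]
    exact e6
  have e8 : y ^ 2 + t ≤ (1 + y / 24) * (24 * y + t) := by
    nlinarith [mul_nonneg hy.le ht0]
  have e9 : (y ^ 2 + t) ^ 2 ≤ ((1 + y / 24) * (24 * y + t)) ^ 2 :=
    pow_le_pow_left₀ (by positivity) e8 2
  rw [e7, mul_one_div, le_div_iff₀ (by positivity)]
  calc c * ((24 * y) / (24 * y + t)) ^ 3 * ((24 * y + t) / y ^ 2) * (y ^ 2 + t) ^ 2
      ≤ c * ((24 * y) / (24 * y + t)) ^ 3 * ((24 * y + t) / y ^ 2) *
        ((1 + y / 24) * (24 * y + t)) ^ 2 := mul_le_mul_of_nonneg_left e9 (by positivity)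
    _ = c * ((24 * y) ^ 3 * (1 + y / 24) ^ 2 / y ^ 2) := by
        field_simp

theorem kk_pd {s : ℝ} (hs : 0 < s) (k : Fin 3) : KK (pd k (hk s)) (∫ x, |pd k (hk s) x|) :=
  ((smN_hk hs).pd k).kk

theorem kk_pd_pd {s : ℝ} (hs : 0 < s) (k : Fin 3) :
    KK (pd k (pd k (hk s))) (∫ x, |pd k (pd k (hk s)) x|) :=
  (((smN_hk hs).pd k).pd k).kk

theorem lk_eq {s : ℝ} (hs : 0 < s) : lk s = fun x => ∑ k, pd k (pd k (hk s)) x := by
  funext x
  exact (sum_pd_pd_hk hs x).symm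

theorem kk_lk {s : ℝ} (hs : 0 < s) : ∃ L, KK (lk s) L := by
  have e : lk s = fun x => (pd 0 (pd 0 (hk s)) x + pd 1 (pd 1 (hk s)) x) +
      pd 2 (pd 2 (hk s)) x := by
    rw [lk_eq hs]
    funext x
    rw [Fin.sum_univ_three]
  rw [e]
  exact ⟨_, kk_add (kk_add (kk_pd_pd hs 0) (kk_pd_pd hs 1)) (kk_pd_pd hs 2)⟩

theorem deriv_cvO_hk {s : ℝ} (hs : 0 < s) (f : V3) :
    HasDerivAt (fun s => cvO (hk s) f) (cvO (lk s) f) s := by
  obtain ⟨C, hC⟩ := abs_lk_le hs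
  exact hasDerivAt_cvO (κ := hk) (κ' := lk) hs (C := C)
    (fun r h1 _ x => hasDerivAt_hk (by linarith) x) hC (fun r hr => ⟨1, kk_hk hr⟩) (kk_lk hs) f

theorem line_hk {s : ℝ} (hs : 0 < s) (k : Fin 3) (x : E3) :
    HasLineDerivAt ℝ (hk s) (pd k (hk s) x) x (ee k) := by
  have h := ((smN_hk hs).cd.differentiable two_ne_zero x).hasFDerivAt
  exact h.hasLineDerivAt (ee k)

theorem line_pd_hk {s : ℝ} (hs : 0 < s) (k : Fin 3) (x : E3) :
    HasLineDerivAt ℝ (pd k (hk s)) (pd k (pd k (hk s)) x) x (ee k) := by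
  have h := (((smN_hk hs).pd k).cd.differentiable one_ne_zero x).hasFDerivAt
  exact h.hasLineDerivAt (ee k)

theorem cvO_lk {s : ℝ} (hs : 0 < s) {f : V3} {df ddf : Fin 3 → V3}
    (h1 : ∀ k, IsWeakDeriv k f (df k)) (h2 : ∀ k, IsWeakDeriv k (df k) (ddf k)) :
    cvO (lk s) f = cvO (hk s) (∑ k, ddf k) := by
  rw [lk_eq hs, cvO_sum3 (fun k => kk_pd_pd hs k), map_sum]
  refine Finset.sum_congr rfl fun k _ => ?_
  have e1 : cvO (pd k (hk s)) f = cvO (hk s) (df k) :=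
    weak_unique (weak_kernel (kk_hk hs) (kk_pd hs k) (line_hk hs k) f) (weak_cvO (hk s) (h1 k))
  have e2 := weak_kernel (kk_pd hs k) (kk_pd_pd hs k) (line_pd_hk hs k) f
  rw [e1] at e2
  exact weak_unique e2 (weak_cvO (hk s) (h2 k))

end Hd

/-- Row RA3: the heat equation in `L²`. -/
theorem hd_ok : SpHd := by
  refine ⟨fun s hs f df ddf h1 h2 => ?_, fun f s hs => ?_⟩
  · rw [← Hd.cvO_lk hs h1 h2]
    exact Hd.deriv_cvO_hk hs f
  · exact (Hd.deriv_cvO_hk hs f).continuousAt.continuousWithinAt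

end Pool.Agent.TF
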