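import Pool.Agent.TF.R.Sp
import Pool.Agent.TF.E.Dk2
import Pool.Agent.TF.Poi

/-!
# Block R, row RA2: the heat semigroup near `s = 0` (helper72)
-/

set_option autoImplicit false

namespace Pool.Agent.TF

open MeasureTheory Set Filter Topology Pool.Agent.TO Pool.Agent.TB Pool.Agent.TC Pool.Agent.TP
open scoped ENNReal NNReal Real InnerProductSpace SchwartzMap LineDeriv

/-! ### moments of the heat kernel -/

theorem Ht.sq {s : ℝ} (hs : 0 < s) :
    Integrable (fun y : E3 => hk s y * ‖y‖ ^ 2) (volume : Measure E3) ∧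
      ∫ y : E3, hk s y * ‖y‖ ^ 2 ≤ 24 * s := by
  have h1 := second_moment hs
  rw [lintegral_gam s (by fun_prop)] at h1
  have e : ∀ y : E3, ENNReal.ofReal (hk s y) * ‖y‖ₑ ^ 2 = ENNReal.ofReal (hk s y * ‖y‖ ^ 2) := by
    intro y
    rw [← ofReal_norm, ← ENNReal.ofReal_pow (norm_nonneg _), ← ENNReal.ofReal_mul (hk_pos hs y).le]
  simp only [e] at h1
  have hc : Continuous fun y : E3 => hk s y * ‖y‖ ^ 2 :=
    (continuous_hk s).mul (continuous_norm.pow 2)
  have h0 : ∀ y : E3, 0 ≤ hk s y * ‖y‖ ^ 2 := fun y =>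
    mul_nonneg (hk_pos hs y).le (by positivity)
  have hi : Integrable (fun y : E3 => hk s y * ‖y‖ ^ 2) (volume : Measure E3) := by
    refine ⟨hc.aestronglyMeasurable, ?_⟩
    rw [hasFiniteIntegral_iff_ofReal (Eventually.of_forall h0)]
    exact h1.trans_lt ENNReal.ofReal_lt_top
  refine ⟨hi, ?_⟩
  rw [← ofReal_integral_eq_lintegral_ofReal hi (Eventually.of_forall h0)] at h1
  exact (ENNReal.ofReal_le_ofReal_iff (by positivity)).1 h1

theorem Ht.norm_le {s : ℝ} (hs : 0 < s) (y : E3) :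
    ‖y‖ ≤ √s / 2 + (√s)⁻¹ / 2 * ‖y‖ ^ 2 := by
  have hq : 0 < √s := Real.sqrt_pos.2 hs
  have h1 : 0 ≤ (√s)⁻¹ / 2 * (‖y‖ - √s) ^ 2 := by positivity
  have h2 : (√s)⁻¹ / 2 * (‖y‖ - √s) ^ 2 = √s / 2 + (√s)⁻¹ / 2 * ‖y‖ ^ 2 - ‖y‖ := by
    field_simp
    ring
  linarith

theorem Ht.one {s : ℝ} (hs : 0 < s) :
    Integrable (fun y : E3 => hk s y * ‖y‖) (volume : Measure E3) ∧
      ∫ y : E3, hk s y * ‖y‖ ≤ 13 * √s := by
  have hq : 0 < √s := Real.sqrt_pos.2 hs
  obtain ⟨h2, h3⟩ := Ht.sq hs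
  have hc : Continuous fun y : E3 => hk s y * ‖y‖ := (continuous_hk s).mul continuous_norm
  have h0 : ∀ y : E3, 0 ≤ hk s y * ‖y‖ := fun y => mul_nonneg (hk_pos hs y).le (norm_nonneg _)
  have hle : ∀ y : E3, hk s y * ‖y‖ ≤ √s / 2 * hk s y + (√s)⁻¹ / 2 * (hk s y * ‖y‖ ^ 2) := by
    intro y
    have := mul_le_mul_of_nonneg_left (Ht.norm_le hs y) (hk_pos hs y).le
    linarith
  have hg : Integrable (fun y : E3 => √s / 2 * hk s y + (√s)⁻¹ / 2 * (hk s y * ‖y‖ ^ 2))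
      (volume : Measure E3) := ((integrable_hk hs).const_mul _).add (h2.const_mul _)
  have hi : Integrable (fun y : E3 => hk s y * ‖y‖) (volume : Measure E3) := by
    refine hg.mono' hc.aestronglyMeasurable (Eventually.of_forall fun y => ?_)
    rw [Real.norm_eq_abs, abs_of_nonneg (h0 y)]
    exact hle y
  refine ⟨hi, ?_⟩
  calc ∫ y : E3, hk s y * ‖y‖
      ≤ ∫ y : E3, (√s / 2 * hk s y + (√s)⁻¹ / 2 * (hk s y * ‖y‖ ^ 2)) :=
        integral_mono hi hg hle
    _ = √s / 2 * 1 + (√s)⁻¹ / 2 * ∫ y : E3, hk s y * ‖y‖ ^ 2 := by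
        rw [integral_add ((integrable_hk hs).const_mul _) (h2.const_mul _), integral_const_mul,
          integral_const_mul, integral_hk hs]
    _ ≤ √s / 2 * 1 + (√s)⁻¹ / 2 * (24 * s) := by
        gcongr
    _ ≤ 13 * √s := by
        have e : (√s)⁻¹ / 2 * (24 * s) = 12 * √s := by
          have : s = √s * √s := (Real.mul_self_sqrt hs.le).symm
          calc (√s)⁻¹ / 2 * (24 * s) = (√s)⁻¹ / 2 * (24 * (√s * √s)) := by rw [← this]
            _ = 12 * √s := by field_simp; ring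
        rw [e]
        linarith

/-! ### translations -/

theorem Ht.cs (z : E3) (g : Fin 3 → V3) :
    ‖∑ k, z k • g k‖ ≤ ‖z‖ * √(∑ k, ‖g k‖ ^ 2) := by
  have h1 : ‖∑ k, z k • g k‖ ≤ ∑ k, |z k| * ‖g k‖ := by
    refine (norm_sum_le _ _).trans (Finset.sum_le_sum fun k _ => ?_)
    rw [norm_smul, Real.norm_eq_abs]
  have h2 : ∑ k, |z k| * ‖g k‖ ≤ √(∑ k, |z k| ^ 2) * √(∑ k, ‖g k‖ ^ 2) :=
    Real.sum_mul_le_sqrt_mul_sqrt _ _ _
  have h3 : √(∑ k, |z k| ^ 2) = ‖z‖ := by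
    rw [EuclideanSpace.norm_eq]
    simp [Real.norm_eq_abs]
  rw [h3] at h2
  exact h1.trans h2

theorem Ht.lint (z : E3) (g : E3 → E3) (hg : Continuous g) :
    ∫⁻ x, ∫⁻ t in Ioc (0:ℝ) 1, ‖g (x - t • z)‖ₑ ^ 2 = ∫⁻ x, ‖g x‖ₑ ^ 2 := by
  rw [lintegral_lintegral_swap]
  · have : ∀ t : ℝ, ∫⁻ x, ‖g (x - t • z)‖ₑ ^ 2 = ∫⁻ x, ‖g x‖ₑ ^ 2 := fun t =>
      lintegral_sub_right_eq_self (fun x => ‖g x‖ₑ ^ 2) (t • z)
    simp only [this, lintegral_const, Measure.restrict_apply_univ, Real.volume_Ioc, sub_zero,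
      ENNReal.ofReal_one, mul_one]
  · have hc : Continuous (Function.uncurry fun (x : E3) (t : ℝ) => ‖g (x - t • z)‖ₑ ^ 2) := by
      simp only [Function.uncurry_def]
      fun_prop
    exact hc.measurable.aemeasurable

/-- the difference of a Schwartz field and its translate -/
theorem Ht.pt (ψ : 𝓢(E3, E3)) (z x : E3) :
    ‖ψ (x - z) - ψ x‖ₑ ^ 2 ≤
      ∫⁻ t in Ioc (0:ℝ) 1, ‖(∑ k, z k • ∂_{ee k} ψ : 𝓢(E3, E3)) (x - t • z)‖ₑ ^ 2 := by
  have hz : z = ∑ k, z k • (ee k : E3) := by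
    have := (EuclideanSpace.basisFun (Fin 3) ℝ).sum_repr z
    simpa using this.symm
  have hd : ∀ t : ℝ, HasDerivAt (fun t : ℝ => ψ (x - t • z))
      (-(∑ k, z k • ∂_{ee k} ψ : 𝓢(E3, E3)) (x - t • z)) t := by
    intro t
    have h1 : HasFDerivAt ψ (fderiv ℝ ψ (x - t • z)) (x - t • z) :=
      ψ.differentiableAt.hasFDerivAt
    have h2 : HasDerivAt (fun t : ℝ => x - t • z) (-z) t := by
      have h3 : HasDerivAt (fun t : ℝ => t • z) ((1:ℝ) • z) t := (hasDerivAt_id t).smul_const z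
      rw [one_smul] at h3
      exact h3.const_sub x
    have h4 := h1.comp_hasDerivAt t h2
    have h5 : fderiv ℝ ψ (x - t • z) (-z) =
        -(∑ k, z k • ∂_{ee k} ψ : 𝓢(E3, E3)) (x - t • z) := by
      rw [map_neg]
      congr 1
      conv_lhs => rw [hz]
      rw [map_sum]
      simp only [map_smul, SchwartzMap.sum_apply, SchwartzMap.smul_apply,
        SchwartzMap.lineDerivOp_apply_eq_fderiv]
      rw [← hz]
    rw [← h5]
    exact h4
  have hcont : Continuous fun t : ℝ => -(∑ k, z k • ∂_{ee k} ψ : 𝓢(E3, E3)) (x - t • z) :=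
    ((∑ k, z k • ∂_{ee k} ψ : 𝓢(E3, E3)).continuous.comp (by fun_prop)).neg
  have hint := intervalIntegral.integral_eq_sub_of_hasDerivAt (a := 0) (b := 1)
    (fun t _ => hd t) (hcont.intervalIntegrable _ _)
  simp only [one_smul, zero_smul, sub_zero] at hint
  rw [← hint, intervalIntegral.integral_of_le zero_le_one]
  haveI : IsProbabilityMeasure ((volume : Measure ℝ).restrict (Ioc (0:ℝ) 1)) := by
    constructor
    rw [Measure.restrict_apply_univ, Real.volume_Ioc, sub_zero, ENNReal.ofReal_one]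
  refine (pow_le_pow_left₀ zero_le (enorm_integral_le_lintegral_enorm _) 2).trans ?_
  simp only [enorm_neg]
  refine sq_lintegral_le ?_
  exact (((∑ k, z k • ∂_{ee k} ψ : 𝓢(E3, E3)).continuous.comp
    (by fun_prop : Continuous fun t : ℝ => x - t • z)).enorm.measurable).aemeasurable

theorem Ht.enorm_sq (f : V3) : ‖f‖ₑ ^ 2 = ∫⁻ x, ‖f x‖ₑ ^ 2 := by
  rw [Lp.enorm_def, eLpNorm_eq_lintegral_rpow_enorm_toReal (by norm_num) (by norm_num)]
  simp only [ENNReal.toReal_ofNat, one_div]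
  rw [← ENNReal.rpow_natCast, ← ENNReal.rpow_mul]
  norm_num

theorem Ht.emb_diff (ψ : 𝓢(E3, E3)) (z : E3) :
    ‖tau z (emb ψ) - emb ψ‖ ≤ ‖z‖ * √(∑ k, ‖emb (∂_{ee k} ψ)‖ ^ 2) := by
  set G : 𝓢(E3, E3) := ∑ k, z k • ∂_{ee k} ψ with hG
  have hGe : emb G = ∑ k, z k • emb (∂_{ee k} ψ) := by
    rw [hG, map_sum]
    simp only [map_smul]
  have h1 : ‖tau z (emb ψ) - emb ψ‖ₑ ^ 2 ≤ ‖emb G‖ₑ ^ 2 := by
    rw [Ht.enorm_sq, Ht.enorm_sq]
    have e1 : ∫⁻ x, ‖(tau z (emb ψ) - emb ψ : V3) x‖ₑ ^ 2 = ∫⁻ x, ‖ψ (x - z) - ψ x‖ₑ ^ 2 := by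
      apply lintegral_congr_ae
      have hc : (emb ψ : E3 → E3) =ᵐ[volume] ψ := SchwartzMap.coeFn_toLp ψ 2 volume
      filter_upwards [Lp.coeFn_sub (tau z (emb ψ)) (emb ψ), coe_tau z (emb ψ), hc,
        (mp_sub z).quasiMeasurePreserving.ae hc] with x a1 a2 a3 a4
      rw [a1, Pi.sub_apply, a2, a3, a4]
    have e2 : ∫⁻ x, ‖(emb G : V3) x‖ₑ ^ 2 = ∫⁻ x, ‖G x‖ₑ ^ 2 := by
      apply lintegral_congr_ae
      have hc : (emb G : E3 → E3) =ᵐ[volume] G := SchwartzMap.coeFn_toLp G 2 volume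
      filter_upwards [hc] with x a1
      rw [a1]
    rw [e1, e2, ← Ht.lint z G G.continuous]
    exact lintegral_mono fun x => Ht.pt ψ z x
  have h2 : ‖tau z (emb ψ) - emb ψ‖ₑ ≤ ‖emb G‖ₑ := by
    exact (ENNReal.pow_le_pow_left_iff (n := 2) (by norm_num)).1 h1
  have h3 : ‖tau z (emb ψ) - emb ψ‖ ≤ ‖emb G‖ := by
    rw [← ofReal_norm, ← ofReal_norm] at h2
    exact (ENNReal.ofReal_le_ofReal_iff (norm_nonneg _)).1 h2
  refine h3.trans ?_
  rw [hGe]
  exact Ht.cs z _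

theorem Ht.diff {f : V3} {df : Fin 3 → V3} (h : ∀ k, IsWeakDeriv k f (df k)) (z : E3) :
    ‖tau z f - f‖ ≤ ‖z‖ * √(∑ k, ‖df k‖ ^ 2) := by
  obtain ⟨ψ, h1, h2⟩ := exists_seq_H1 h
  have l1 : Tendsto (fun n => ‖tau z (emb (ψ n)) - emb (ψ n)‖) atTop (𝓝 ‖tau z f - f‖) :=
    ((((tau z).continuous.tendsto _).comp h1).sub h1).norm
  have l2 : Tendsto (fun n => ‖z‖ * √(∑ k, ‖emb (∂_{ee k} (ψ n))‖ ^ 2)) atTop
      (𝓝 (‖z‖ * √(∑ k, ‖df k‖ ^ 2))) := by
    refine Tendsto.const_mul _ ?_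
    refine (Real.continuous_sqrt.tendsto _).comp ?_
    exact tendsto_finsetSum _ fun k _ => ((h2 k).norm).pow 2
  exact le_of_tendsto_of_tendsto' l1 l2 fun n => Ht.emb_diff (ψ n) z

/-! ### the difference of the semigroup and the identity -/

theorem Ht.cv {s : ℝ} (hs : 0 < s) (f : V3) :
    Integrable (fun z => hk s z * ‖tau z f - f‖) (volume : Measure E3) ∧
      ‖cvO (hk s) f - f‖ ≤ ∫ z, hk s z * ‖tau z f - f‖ := by
  have hcont : Continuous fun z => hk s z * ‖tau z f - f‖ :=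
    (continuous_hk s).mul ((continuous_tau f).sub continuous_const).norm
  have hi : Integrable (fun z => hk s z * ‖tau z f - f‖) (volume : Measure E3) := by
    refine Integrable.mono' ((integrable_hk hs).mul_const (2 * ‖f‖)) hcont.aestronglyMeasurable
      (Eventually.of_forall fun z => ?_)
    rw [norm_mul, norm_norm, Real.norm_eq_abs, abs_of_nonneg (hk_pos hs z).le]
    apply mul_le_mul_of_nonneg_left _ (hk_pos hs z).le
    refine (norm_sub_le _ _).trans ?_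
    rw [norm_tau]; linarith
  refine ⟨hi, ?_⟩
  have key : ∀ h : V3, |⟪h, cvO (hk s) f - f⟫_ℝ| ≤ ‖h‖ * ∫ z, hk s z * ‖tau z f - f‖ := by
    intro h
    have e1 : ⟪h, cvO (hk s) f - f⟫_ℝ = ∫ z, hk s z * ⟪h, tau z f - f⟫_ℝ := by
      rw [cvO_eq (kk_hk hs), inner_sub_right, inner_cvL_tau]
      have e2 : ⟪h, f⟫_ℝ = ∫ z, hk s z * ⟪h, f⟫_ℝ := by
        rw [integral_mul_const, integral_hk hs, one_mul]
      rw [e2, ← integral_sub]
      · congr 1
        ext z
        rw [inner_sub_right]; ring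
      · refine Integrable.mono' ((integrable_hk hs).mul_const (‖h‖ * ‖f‖))
          ((continuous_hk s).mul ((continuous_const).inner
            (continuous_tau f))).aestronglyMeasurable (Eventually.of_forall fun z => ?_)
        rw [norm_mul, Real.norm_eq_abs, abs_of_nonneg (hk_pos hs z).le]
        apply mul_le_mul_of_nonneg_left _ (hk_pos hs z).le
        refine (norm_inner_le_norm _ _).trans ?_
        rw [norm_tau]
      · exact (integrable_hk hs).mul_const _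
    rw [e1, ← integral_const_mul, ← Real.norm_eq_abs]
    refine norm_integral_le_of_norm_le (hi.const_mul ‖h‖) (Eventually.of_forall fun z => ?_)
    rw [norm_mul, Real.norm_eq_abs, abs_of_nonneg (hk_pos hs z).le]
    calc hk s z * ‖⟪h, tau z f - f⟫_ℝ‖ ≤ hk s z * (‖h‖ * ‖tau z f - f‖) :=
          mul_le_mul_of_nonneg_left (norm_inner_le_norm _ _) (hk_pos hs z).le
      _ = _ := by ring
  have h1 := key (cvO (hk s) f - f)
  rw [real_inner_self_eq_norm_sq, abs_of_nonneg (by positivity), pow_two] at h1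
  rcases eq_or_lt_of_le (norm_nonneg (cvO (hk s) f - f)) with h0 | h0
  · rw [← h0]
    exact integral_nonneg fun z => mul_nonneg (hk_pos hs z).le (norm_nonneg _)
  · exact le_of_mul_le_mul_left h1 h0

theorem Ht.weak {s : ℝ} (hs : 0 < s) {f : V3} {df : Fin 3 → V3}
    (h : ∀ k, IsWeakDeriv k f (df k)) :
    ‖cvO (hk s) f - f‖ ≤ 13 * √s * √(∑ k, ‖df k‖ ^ 2) := by
  obtain ⟨hi, h1⟩ := Ht.cv hs f
  obtain ⟨h2, h3⟩ := Ht.one hs
  set D := √(∑ k, ‖df k‖ ^ 2) with hD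
  have hD0 : 0 ≤ D := Real.sqrt_nonneg _
  calc ‖cvO (hk s) f - f‖ ≤ ∫ z, hk s z * ‖tau z f - f‖ := h1
    _ ≤ ∫ z : E3, hk s z * ‖z‖ * D := by
        refine integral_mono hi (h2.mul_const D) fun z => ?_
        simp only
        rw [mul_assoc]
        exact mul_le_mul_of_nonneg_left (Ht.diff h z) (hk_pos hs z).le
    _ = (∫ z : E3, hk s z * ‖z‖) * D := integral_mul_const _ _
    _ ≤ 13 * √s * D := mul_le_mul_of_nonneg_right h3 hD0

theorem Ht.lim (f : V3) : Tendsto (fun s => cvO (hk s) f) (𝓝[>] 0) (𝓝 f) := by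
  rw [Metric.tendsto_nhds]
  intro ε hε
  have hc : Tendsto (fun z => ‖tau z f - f‖) (𝓝 (0 : E3)) (𝓝 0) := by
    have h2 : Continuous fun z => ‖tau z f - f‖ := ((continuous_tau f).sub continuous_const).norm
    have h3 := h2.tendsto 0
    simpa only [tau_zero, sub_self, norm_zero] using h3
  rw [Metric.tendsto_nhds] at hc
  obtain ⟨δ, hδ, hδb⟩ := Metric.eventually_nhds_iff.1 (hc (ε / 2) (by positivity))
  have hb : ∀ z : E3, ‖tau z f - f‖ ≤ ε / 2 + 2 * ‖f‖ / δ * ‖z‖ := by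
    intro z
    by_cases hz : ‖z‖ < δ
    · have h4 := hδb (show dist z 0 < δ by rwa [dist_zero_right])
      rw [dist_zero_right, norm_norm] at h4
      have : 0 ≤ 2 * ‖f‖ / δ * ‖z‖ := by positivity
      linarith
    · have h4 : ‖tau z f - f‖ ≤ 2 * ‖f‖ := by
        refine (norm_sub_le _ _).trans ?_
        rw [norm_tau]; linarith
      have h5 : 2 * ‖f‖ ≤ 2 * ‖f‖ / δ * ‖z‖ := by
        rw [div_mul_eq_mul_div, le_div_iff₀ hδ]
        exact mul_le_mul_of_nonneg_left (not_lt.1 hz) (by positivity)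
      linarith
  have hq : Tendsto (fun s : ℝ => 2 * ‖f‖ / δ * (13 * √s)) (𝓝[>] 0) (𝓝 0) := by
    have h6 : Continuous fun s : ℝ => 2 * ‖f‖ / δ * (13 * √s) := by fun_prop
    have h7 := (h6.tendsto 0).mono_left (nhdsWithin_le_nhds (s := Ioi 0))
    simpa using h7
  have hq2 := (tendsto_order.1 hq).2 (ε / 2) (by positivity)
  filter_upwards [hq2, self_mem_nhdsWithin] with s h8 hs
  obtain ⟨hi, h1⟩ := Ht.cv hs f
  obtain ⟨h2, h3⟩ := Ht.one hs
  rw [dist_eq_norm]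
  have hg : Integrable (fun z : E3 => ε / 2 * hk s z + 2 * ‖f‖ / δ * (hk s z * ‖z‖))
      (volume : Measure E3) := ((integrable_hk hs).const_mul _).add (h2.const_mul _)
  calc ‖cvO (hk s) f - f‖ ≤ ∫ z, hk s z * ‖tau z f - f‖ := h1
    _ ≤ ∫ z : E3, (ε / 2 * hk s z + 2 * ‖f‖ / δ * (hk s z * ‖z‖)) := by
        refine integral_mono hi hg fun z => ?_
        have := mul_le_mul_of_nonneg_left (hb z) (hk_pos hs z).le
        simp only
        linarith
    _ = ε / 2 + 2 * ‖f‖ / δ * ∫ z : E3, hk s z * ‖z‖ := by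
        rw [integral_add ((integrable_hk hs).const_mul _) (h2.const_mul _), integral_const_mul,
          integral_const_mul, integral_hk hs, mul_one]
    _ ≤ ε / 2 + 2 * ‖f‖ / δ * (13 * √s) := by gcongr
    _ < ε := by linarith

/-! ### functions -/

theorem Ht.lip {f : E3 → E3} {F₁ : ℝ} (hf : ContDiff ℝ 1 f) (h1 : ∀ i x, ‖pd i f x‖ ≤ F₁)
    (x y : E3) : ‖f (x - y) - f x‖ ≤ 3 * F₁ * ‖y‖ := by
  have hF : 0 ≤ F₁ := (norm_nonneg _).trans (h1 0 x)
  have hfd : ∀ z, ‖fderiv ℝ f z‖ ≤ 3 * F₁ := by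
    intro z
    refine (fderiv ℝ f z).opNorm_le_bound (by positivity) fun v => ?_
    have hv : v = ∑ k, v k • (ee k : E3) := by
      have := (EuclideanSpace.basisFun (Fin 3) ℝ).sum_repr v
      simpa using this.symm
    have hvk : ∀ k, |v k| ≤ ‖v‖ := by
      intro k
      have := PiLp.norm_apply_le v k
      simpa using this
    conv_lhs => rw [hv]
    rw [map_sum]
    refine (norm_sum_le _ _).trans ?_
    calc ∑ k, ‖fderiv ℝ f z (v k • ee k)‖ ≤ ∑ _k : Fin 3, ‖v‖ * F₁ := by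
          refine Finset.sum_le_sum fun k _ => ?_
          rw [map_smul, norm_smul, Real.norm_eq_abs]
          exact mul_le_mul (hvk k) (h1 k z) (norm_nonneg _) (norm_nonneg _)
      _ = 3 * F₁ * ‖v‖ := by
          rw [Finset.sum_const, Finset.card_univ, Fintype.card_fin, nsmul_eq_mul]
          push_cast
          ring
  have := Convex.norm_image_sub_le_of_norm_fderiv_le (s := univ)
    (fun z _ => (hf.differentiable (by norm_num)).differentiableAt) (fun z _ => hfd z) convex_univ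
    (mem_univ x) (mem_univ (x - y))
  refine this.trans (le_of_eq ?_)
  congr 1
  rw [show x - y - x = -y by abel, norm_neg]

theorem Ht.fn {s : ℝ} (hs : 0 < s) {f : E3 → E3} {F₀ F₁ : ℝ} (hf : ContDiff ℝ 1 f)
    (h0 : ∀ x, ‖f x‖ ≤ F₀) (h1 : ∀ i x, ‖pd i f x‖ ≤ F₁) (x : E3) :
    ‖heat s f x - f x‖ ≤ 39 * √s * F₁ := by
  have hF : 0 ≤ F₁ := (norm_nonneg _).trans (h1 0 x)
  obtain ⟨h2, h3⟩ := Ht.one hs
  have hc : Continuous fun y => hk s y • f (x - y) :=
    (continuous_hk s).smul (hf.continuous.comp (by fun_prop))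
  have hi : Integrable (fun y => hk s y • f (x - y)) (volume : Measure E3) := by
    refine Integrable.mono' ((integrable_hk hs).mul_const F₀) hc.aestronglyMeasurable
      (Eventually.of_forall fun y => ?_)
    rw [norm_smul, Real.norm_eq_abs, abs_of_pos (hk_pos hs y)]
    exact mul_le_mul_of_nonneg_left (h0 _) (hk_pos hs y).le
  have e : heat s f x - f x = ∫ y, hk s y • (f (x - y) - f x) := by
    have e2 : f x = ∫ y, hk s y • f x := by
      rw [integral_smul_const, integral_hk hs, one_smul]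
    unfold heat
    conv_lhs => rw [e2]
    rw [← integral_sub hi ((integrable_hk hs).smul_const _)]
    congr 1
    ext1 y
    rw [smul_sub]
  rw [e]
  calc ‖∫ y, hk s y • (f (x - y) - f x)‖ ≤ ∫ y : E3, hk s y * ‖y‖ * (3 * F₁) := by
        refine norm_integral_le_of_norm_le (h2.mul_const _) (Eventually.of_forall fun y => ?_)
        rw [norm_smul, Real.norm_eq_abs, abs_of_pos (hk_pos hs y), mul_assoc]
        refine mul_le_mul_of_nonneg_left ?_ (hk_pos hs y).le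
        have := Ht.lip hf h1 x y
        linarith
    _ = (∫ y : E3, hk s y * ‖y‖) * (3 * F₁) := integral_mul_const _ _
    _ ≤ 13 * √s * (3 * F₁) := mul_le_mul_of_nonneg_right h3 (by positivity)
    _ = _ := by ring

theorem ht_ok : SpHt := by
  refine ⟨39, by norm_num, ?_, ?_, ?_, Ht.lim, ?_⟩
  · intro s hs f g
    rw [cvO_eq (kk_hk hs)]
    exact symm_cvL (kk_hk hs) (fun y => hk_neg s y) f g
  · intro s hs f
    have := norm_cvO_le (kk_hk hs) f
    rwa [one_mul] at this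
  · intro s hs f df h
    refine (Ht.weak hs h).trans ?_
    have h1 : 0 ≤ √s := Real.sqrt_nonneg _
    have h2 : 0 ≤ √(∑ k, ‖df k‖ ^ 2) := Real.sqrt_nonneg _
    have := mul_nonneg h1 h2
    nlinarith
  · intro s hs f F₀ F₁ hf h0 h1 x
    exact Ht.fn hs hf h0 h1 x

end Pool.Agent.TF
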