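import Pool.Agent.TF.R.Sp
import Pool.Agent.TF.E.NcC

/-!
# Block R, row RA1: the transport step in `L²`, differentiable in `s` (helper82)
-/

set_option autoImplicit false

namespace Pool.Agent.TF

open MeasureTheory Set Filter Topology Pool.Agent.TO Pool.Agent.TB Pool.Agent.TC Pool.Agent.TP
open scoped ENNReal NNReal Real InnerProductSpace SchwartzMap LineDeriv Laplacian

namespace Jd

variable {c r Λ B F₀ F₁ F₂ d : ℝ} {b : E3 → E3} {lam : E3 → ℝ} {f : E3 → E3}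

/-- domination by `α λ + β |b|` -/
theorem dom (hco : CoL B b lam) (hl : ∀ x, 0 ≤ lam x) {G : E3 → E3} (hG : Continuous G)
    {α β : ℝ} (hα : 0 ≤ α) (hβ : 0 ≤ β) (h : ∀ x, ‖G x‖ ≤ α * lam x + β * ‖b x‖) :
    MemLp G 2 (volume : Measure E3) ∧ ‖vL G‖ ≤ (α + β) * B := by
  have hB0 : 0 ≤ B := (norm_nonneg _).trans hco.nb
  have m1 : MemLp (fun x => α * lam x) 2 (volume : Measure E3) := hco.ml.const_mul α
  have m2 : MemLp (fun x => β * ‖b x‖) 2 (volume : Measure E3) := hco.mb.norm.const_mul β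
  have m3 : MemLp (fun x => α * lam x + β * ‖b x‖) 2 (volume : Measure E3) := m1.add m2
  have hle : ∀ x, ‖G x‖ ≤ ‖α * lam x + β * ‖b x‖‖ := fun x =>
    (h x).trans (le_abs_self _)
  have mG : MemLp G 2 (volume : Measure E3) :=
    m3.mono hG.aestronglyMeasurable (Eventually.of_forall hle)
  refine ⟨mG, ?_⟩
  have e1 : eLpNorm G 2 (volume : Measure E3) ≤
      eLpNorm (fun x => α * lam x) 2 (volume : Measure E3) +
        eLpNorm (fun x => β * ‖b x‖) 2 (volume : Measure E3) :=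
    (eLpNorm_mono hle).trans (eLpNorm_add_le m1.1 m2.1 (by norm_num))
  have e2 : eLpNorm (fun x => α * lam x) 2 (volume : Measure E3) ≤ ENNReal.ofReal (α * B) := by
    have : (fun x => α * lam x) = α • lam := rfl
    rw [this, eLpNorm_const_smul, ENNReal.ofReal_mul hα, ← ofReal_norm, Real.norm_eq_abs,
      abs_of_nonneg hα]
    refine mul_le_mul_right ?_ _
    rw [← ENNReal.ofReal_toReal hco.ml.2.ne]
    exact ENNReal.ofReal_le_ofReal hco.nl
  have e3 : eLpNorm (fun x => β * ‖b x‖) 2 (volume : Measure E3) ≤ ENNReal.ofReal (β * B) := by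
    have : (fun x => β * ‖b x‖) = β • fun x => ‖b x‖ := rfl
    rw [this, eLpNorm_const_smul, ENNReal.ofReal_mul hβ, ← ofReal_norm, Real.norm_eq_abs,
      abs_of_nonneg hβ, eLpNorm_norm]
    refine mul_le_mul_right ?_ _
    rw [← enorm_vL hco.mb]
    exact ENNReal.ofReal_le_ofReal hco.nb
  have e4 : ENNReal.ofReal ‖vL G‖ ≤ ENNReal.ofReal ((α + β) * B) := by
    rw [enorm_vL mG]
    refine e1.trans ((add_le_add e2 e3).trans (le_of_eq ?_))
    rw [← ENNReal.ofReal_add (by positivity) (by positivity)]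
    congr 1
    ring
  exact (ENNReal.ofReal_le_ofReal_iff (by positivity)).1 e4

theorem fderiv_sum (f : E3 → E3) (x v : E3) : ∑ i, v i • pd i f x = fderiv ℝ f x v := by
  have hv : v = ∑ i, v i • (ee i : E3) := by
    have := (EuclideanSpace.basisFun (Fin 3) ℝ).sum_repr v
    simpa using this.symm
  conv_rhs => rw [hv]
  rw [map_sum]
  refine Finset.sum_congr rfl fun i _ => ?_
  rw [map_smul]
  rfl

theorem dJst_eq (s : ℝ) (x : E3) : dJst s b lam f x = -(lam x • f (x - s • b x)) -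
    (1 - s * lam x) • fderiv ℝ f (x - s • b x) (b x) := by
  unfold dJst
  rw [fderiv_sum]

/-- the derivative in `s`, pointwise -/
theorem hasDeriv (hf : Fb F₀ F₁ F₂ f) (s : ℝ) (x : E3) :
    HasDerivAt (fun s => Jst s b lam f x) (dJst s b lam f x) s := by
  have h1 : HasDerivAt (fun s : ℝ => x - s • b x) (-b x) s := by
    have := ((hasDerivAt_id s).smul_const (b x)).const_sub x
    simpa using this
  have h2 : HasDerivAt (fun s : ℝ => f (x - s • b x)) (fderiv ℝ f (x - s • b x) (-b x)) s :=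
    ((hf.nc.c1.differentiable (by norm_num) _).hasFDerivAt).comp_hasDerivAt s h1
  have h3 : HasDerivAt (fun s : ℝ => 1 - s * lam x) (-lam x) s := by
    have := ((hasDerivAt_id s).mul_const (lam x)).const_sub 1
    simpa using this
  have h4 := h3.smul h2
  refine h4.congr_deriv ?_
  rw [dJst_eq, map_neg, smul_neg, neg_smul]
  abel

theorem nn (hc : Coef c r Λ b lam) (hf : Fb F₀ F₁ F₂ f) : 0 ≤ Λ ∧ 0 ≤ F₀ ∧ 0 ≤ F₁ ∧ 0 ≤ F₂ :=
  ⟨hc.Λ0, (norm_nonneg _).trans (hf.f0 0), (norm_nonneg _).trans (hf.f1 0 0),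
    (norm_nonneg _).trans (hf.f2 0 0 0)⟩

theorem damp (hc : Coef c r Λ b lam) (h1 : d * Λ ≤ 1) {s : ℝ} (hs : s ∈ Icc 0 d) (x : E3) :
    |1 - s * lam x| ≤ 1 :=
  hc.abs_damp hs.1 ((mul_le_mul_of_nonneg_right hs.2 hc.Λ0).trans h1) x

theorem fd (hf : Fb F₀ F₁ F₂ f) (y : E3) : ‖fderiv ℝ f y‖ ≤ 3 * F₁ :=
  norm_fderiv_le_pd fun i => hf.f1 i y

theorem lip0 (hf : Fb F₀ F₁ F₂ f) (y z : E3) : ‖f y - f z‖ ≤ 3 * F₁ * ‖y - z‖ :=
  convex_univ.norm_image_sub_le_of_norm_fderiv_le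
    (fun x _ => hf.nc.c1.differentiable (by norm_num) x) (fun x _ => fd hf x)
    (mem_univ z) (mem_univ y)

theorem lip1 (hf : Fb F₀ F₁ F₂ f) (i : Fin 3) (y z : E3) :
    ‖pd i f y - pd i f z‖ ≤ 3 * F₂ * ‖y - z‖ :=
  convex_univ.norm_image_sub_le_of_norm_fderiv_le
    (fun x _ => (hf.nc.pc i).differentiable (by norm_num) x)
    (fun x _ => norm_fderiv_le_pd fun j => hf.f2 j i x) (mem_univ z) (mem_univ y)

theorem lipd (hf : Fb F₀ F₁ F₂ f) (y z v : E3) :
    ‖fderiv ℝ f y v - fderiv ℝ f z v‖ ≤ 9 * F₂ * ‖v‖ * ‖y - z‖ := by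
  have hF2 : 0 ≤ F₂ := (norm_nonneg _).trans (hf.f2 0 0 0)
  rw [← fderiv_sum, ← fderiv_sum, ← Finset.sum_sub_distrib]
  refine (norm_sum_le _ _).trans ?_
  calc ∑ i, ‖v i • pd i f y - v i • pd i f z‖ ≤ ∑ _i : Fin 3, ‖v‖ * (3 * F₂ * ‖y - z‖) := by
        refine Finset.sum_le_sum fun i _ => ?_
        rw [← smul_sub, norm_smul]
        refine mul_le_mul ?_ (lip1 hf i y z) (norm_nonneg _) (norm_nonneg _)
        exact PiLp.norm_apply_le v i
    _ = _ := by
        rw [Finset.sum_const, Finset.card_univ, Fintype.card_fin, nsmul_eq_mul]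
        push_cast
        ring

theorem dJst_le (hc : Coef c r Λ b lam) (hf : Fb F₀ F₁ F₂ f) (h1 : d * Λ ≤ 1) {s : ℝ}
    (hs : s ∈ Icc 0 d) (x : E3) : ‖dJst s b lam f x‖ ≤ F₀ * lam x + 3 * F₁ * ‖b x‖ := by
  obtain ⟨-, hF0, hF1, -⟩ := nn hc hf
  rw [dJst_eq]
  refine (norm_sub_le _ _).trans (add_le_add ?_ ?_)
  · rw [norm_neg, norm_smul, Real.norm_eq_abs, abs_of_nonneg (hc.l0 x), mul_comm]
    exact mul_le_mul_of_nonneg_right (hf.f0 _) (hc.l0 x)
  · rw [norm_smul, Real.norm_eq_abs]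
    calc |1 - s * lam x| * ‖fderiv ℝ f (x - s • b x) (b x)‖
        ≤ 1 * (3 * F₁ * ‖b x‖) := by
          refine mul_le_mul (damp hc h1 hs x) ?_ (norm_nonneg _) zero_le_one
          exact (ContinuousLinearMap.le_opNorm _ _).trans
            (mul_le_mul_of_nonneg_right (fd hf _) (norm_nonneg _))
      _ = _ := one_mul _

/-- the difference of two derivatives -/
theorem dJst_sub_le (hc : Coef c r Λ b lam) (hf : Fb F₀ F₁ F₂ f) (h1 : d * Λ ≤ 1) {s s' : ℝ}
    (hs' : s' ∈ Icc 0 d) (x : E3) :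
    ‖dJst s b lam f x - dJst s' b lam f x‖ ≤
      |s - s'| * Λ * (3 * F₁ * lam x + (3 * F₁ + 9 * F₂) * ‖b x‖) := by
  obtain ⟨hΛ, hF0, hF1, hF2⟩ := nn hc hf
  have hl := hc.l0 x
  have hyy : ‖(x - s • b x) - (x - s' • b x)‖ ≤ |s - s'| * Λ := by
    have e : (x - s • b x) - (x - s' • b x) = -((s - s') • b x) := by
      rw [sub_smul]; abel
    rw [e, norm_neg, norm_smul, Real.norm_eq_abs]
    exact mul_le_mul_of_nonneg_left (hc.bΛ x) (abs_nonneg _)
  have e1 : dJst s b lam f x - dJst s' b lam f x =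
      -(lam x • (f (x - s • b x) - f (x - s' • b x))) +
        (((s - s') * lam x) • fderiv ℝ f (x - s • b x) (b x) -
        (1 - s' * lam x) • (fderiv ℝ f (x - s • b x) (b x) - fderiv ℝ f (x - s' • b x) (b x))) := by
    rw [dJst_eq, dJst_eq]
    module
  have a1 : ‖-(lam x • (f (x - s • b x) - f (x - s' • b x)))‖ ≤
      lam x * (3 * F₁ * (|s - s'| * Λ)) := by
    rw [norm_neg, norm_smul, Real.norm_eq_abs, abs_of_nonneg hl]
    refine mul_le_mul_of_nonneg_left ((lip0 hf _ _).trans ?_) hl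
    exact mul_le_mul_of_nonneg_left hyy (by positivity)
  have a2 : ‖((s - s') * lam x) • fderiv ℝ f (x - s • b x) (b x)‖ ≤
      |s - s'| * Λ * (3 * F₁ * ‖b x‖) := by
    rw [norm_smul, Real.norm_eq_abs, abs_mul, abs_of_nonneg hl]
    refine mul_le_mul (mul_le_mul_of_nonneg_left (hc.lΛ x) (abs_nonneg _)) ?_ (norm_nonneg _)
      (by positivity)
    exact (ContinuousLinearMap.le_opNorm _ _).trans
      (mul_le_mul_of_nonneg_right (fd hf _) (norm_nonneg _))
  have a3 : ‖(1 - s' * lam x) • (fderiv ℝ f (x - s • b x) (b x) -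
      fderiv ℝ f (x - s' • b x) (b x))‖ ≤ 1 * (9 * F₂ * ‖b x‖ * (|s - s'| * Λ)) := by
    rw [norm_smul, Real.norm_eq_abs]
    refine mul_le_mul (damp hc h1 hs' x) ((lipd hf _ _ _).trans ?_) (norm_nonneg _) zero_le_one
    exact mul_le_mul_of_nonneg_left hyy (by positivity)
  rw [e1]
  calc _ ≤ lam x * (3 * F₁ * (|s - s'| * Λ)) + (|s - s'| * Λ * (3 * F₁ * ‖b x‖) +
        1 * (9 * F₂ * ‖b x‖ * (|s - s'| * Λ))) :=
        (norm_add_le _ _).trans (add_le_add a1 ((norm_sub_le _ _).trans (add_le_add a2 a3)))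
    _ = _ := by ring

theorem cont_dJst (hc : Coef c r Λ b lam) (hf : Fb F₀ F₁ F₂ f) (s : ℝ) :
    Continuous (dJst s b lam f) := by
  have h1 : Continuous fun x : E3 => x - s • b x := hc.continuous_shift s
  have hl := hc.cl.continuous
  have hb := hc.cb.continuous
  unfold dJst
  refine (hl.smul (hf.nc.cont.comp h1)).neg.sub
    ((continuous_const.sub (continuous_const.mul hl)).smul ?_)
  refine continuous_finsetSum _ fun i _ => ?_
  exact ((EuclideanSpace.proj (𝕜 := ℝ) i : E3 →L[ℝ] ℝ).continuous.comp hb).smul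
    ((hf.nc.pc i).continuous.comp h1)

theorem cont_Jst (hc : Coef c r Λ b lam) (hf : Fb F₀ F₁ F₂ f) (s : ℝ) :
    Continuous (Jst s b lam f) :=
  (continuous_const.sub (continuous_const.mul hc.cl.continuous)).smul
    (hf.nc.cont.comp (hc.continuous_shift s))

theorem Jst_zero (x : E3) : Jst 0 b lam f x = f x := by
  unfold Jst
  simp

theorem Jst_sub_le (hc : Coef c r Λ b lam) (hf : Fb F₀ F₁ F₂ f) (h1 : d * Λ ≤ 1) {s : ℝ}
    (hs : s ∈ Icc 0 d) (x : E3) :
    ‖Jst s b lam f x - f x‖ ≤ (F₀ * lam x + 3 * F₁ * ‖b x‖) * s := by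
  have h2 := (convex_Icc 0 s).norm_image_sub_le_of_norm_hasDerivWithin_le
    (f := fun s => Jst s b lam f x) (f' := fun s => dJst s b lam f x)
    (C := F₀ * lam x + 3 * F₁ * ‖b x‖) (x := 0) (y := s)
    (fun τ _ => (hasDeriv hf τ x).hasDerivWithinAt)
    (fun τ hτ => dJst_le hc hf h1 ⟨hτ.1, hτ.2.trans hs.2⟩ x) ⟨le_rfl, hs.1⟩ ⟨hs.1, le_rfl⟩
  simp only [Jst_zero, sub_zero, Real.norm_eq_abs, abs_of_nonneg hs.1] at h2
  exact h2

/-- the remainder of the first order expansion -/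
theorem taylor (hc : Coef c r Λ b lam) (hf : Fb F₀ F₁ F₂ f) (h1 : d * Λ ≤ 1) {s s' : ℝ}
    (hs : s ∈ Icc 0 d) (x : E3) :
    ‖Jst s' b lam f x - Jst s b lam f x - (s' - s) • dJst s b lam f x‖ ≤
      |s' - s| ^ 2 * Λ * (3 * F₁ * lam x + (3 * F₁ + 9 * F₂) * ‖b x‖) := by
  obtain ⟨hΛ, hF0, hF1, hF2⟩ := nn hc hf
  have hl := hc.l0 x
  have hG : 0 ≤ 3 * F₁ * lam x + (3 * F₁ + 9 * F₂) * ‖b x‖ := by positivity
  have hd : ∀ τ ∈ uIcc s s', HasDerivWithinAt
      (fun τ => Jst τ b lam f x - τ • dJst s b lam f x)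
      (dJst τ b lam f x - dJst s b lam f x) (uIcc s s') τ := by
    intro τ _
    have h2 := (hasDeriv (b := b) (lam := lam) hf τ x).sub
      ((hasDerivAt_id τ).smul_const (dJst s b lam f x))
    rw [one_smul] at h2
    exact h2.hasDerivWithinAt
  have h2 := (convex_uIcc s s').norm_image_sub_le_of_norm_hasDerivWithin_le
    (C := |s' - s| * Λ * (3 * F₁ * lam x + (3 * F₁ + 9 * F₂) * ‖b x‖)) (x := s) (y := s')
    hd (fun τ hτ => ?_) left_mem_uIcc right_mem_uIcc
  · have e : Jst s' b lam f x - Jst s b lam f x - (s' - s) • dJst s b lam f x =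
        (Jst s' b lam f x - s' • dJst s b lam f x) - (Jst s b lam f x - s • dJst s b lam f x) := by
      rw [sub_smul]; abel
    rw [e]
    refine h2.trans (le_of_eq ?_)
    rw [Real.norm_eq_abs]
    ring
  · refine (dJst_sub_le hc hf h1 hs x).trans ?_
    have h3 : |τ - s| ≤ |s' - s| := by
      have := abs_sub_left_of_mem_uIcc hτ
      exact this
    exact mul_le_mul_of_nonneg_right (mul_le_mul_of_nonneg_right h3 hΛ) hG

end Jd

open Jd in
/-- **Row RA1**: the transport step in `L²`, differentiable in `s`. -/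
theorem jd_ok : SpJd := by
  refine ⟨9, by norm_num, ?_⟩
  intro c r Λ B F₀ F₁ F₂ d b lam f hc hco hf hd h1
  obtain ⟨hΛ, hF0, hF1, hF2⟩ := nn hc hf
  have hB0 : 0 ≤ B := (norm_nonneg _).trans hco.nb
  have mJ : ∀ s ∈ Icc 0 d, MemLp (Jst s b lam f) 2 (volume : Measure E3) := fun s hs =>
    (hc.memLp_Jst hs.1 ((mul_le_mul_of_nonneg_right hs.2 hΛ).trans h1) hf.nc.cont hf.nc.m0).1
  have mdJ : ∀ s ∈ Icc 0 d, MemLp (dJst s b lam f) 2 (volume : Measure E3) ∧
      ‖vL (dJst s b lam f)‖ ≤ (F₀ + 3 * F₁) * B := fun s hs =>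
    dom hco hc.l0 (cont_dJst hc hf s) hF0 (by positivity) (dJst_le hc hf h1 hs)
  refine ⟨fun s hs => ⟨cont_Jst hc hf s, mJ s hs, cont_dJst hc hf s, (mdJ s hs).1, ?_, ?_, ?_, ?_⟩,
    ?_⟩
  · refine (mdJ s hs).2.trans ?_
    nlinarith [mul_nonneg hF0 hB0, mul_nonneg hF1 hB0]
  · rw [← vL_sub (mJ s hs) hf.nc.m0]
    have h2 := (dom hco hc.l0 ((cont_Jst hc hf s).sub hf.nc.cont) (α := s * F₀)
      (β := s * (3 * F₁)) (mul_nonneg hs.1 hF0) (mul_nonneg hs.1 (by positivity))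
      (fun x => (Jst_sub_le hc hf h1 hs x).trans (le_of_eq (by ring)))).2
    refine h2.trans ?_
    have e : 9 * B * (F₀ + F₁) * s - (s * F₀ + s * (3 * F₁)) * B =
      s * (8 * (F₀ * B) + 6 * (F₁ * B)) := by ring
    have := mul_nonneg hs.1 (by positivity : 0 ≤ 8 * (F₀ * B) + 6 * (F₁ * B))
    linarith
  · intro x
    refine (Jst_sub_le hc hf h1 hs x).trans ?_
    refine mul_le_mul_of_nonneg_right ?_ hs.1
    have h2 : F₀ * lam x ≤ F₀ * Λ := mul_le_mul_of_nonneg_left (hc.lΛ x) hF0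
    have h3 : 3 * F₁ * ‖b x‖ ≤ 3 * F₁ * Λ := mul_le_mul_of_nonneg_left (hc.bΛ x) (by positivity)
    nlinarith [mul_nonneg hF0 hΛ, mul_nonneg hF1 hΛ]
  · rw [hasDerivWithinAt_iff_isLittleO]
    have hbig : (fun s' => vL (Jst s' b lam f) - vL (Jst s b lam f) -
        (s' - s) • vL (dJst s b lam f)) =O[𝓝[Icc 0 d] s] fun s' => (s' - s) ^ 2 := by
      refine Asymptotics.IsBigO.of_bound (Λ * ((3 * F₁ + (3 * F₁ + 9 * F₂)) * B)) ?_
      filter_upwards [self_mem_nhdsWithin] with s' hs'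
      have e1 : vL (Jst s' b lam f) - vL (Jst s b lam f) - (s' - s) • vL (dJst s b lam f) =
          vL (fun x => Jst s' b lam f x - Jst s b lam f x - (s' - s) • dJst s b lam f x) := by
        rw [← vL_smul _ (mdJ s hs).1, ← vL_sub (mJ s' hs') (mJ s hs)]
        exact (vL_sub ((mJ s' hs').sub (mJ s hs)) ((mdJ s hs).1.const_smul (s' - s))).symm
      rw [e1]
      have h2 := (dom hco hc.l0 (α := |s' - s| ^ 2 * Λ * (3 * F₁))
        (β := |s' - s| ^ 2 * Λ * (3 * F₁ + 9 * F₂))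
        (((cont_Jst hc hf s').sub (cont_Jst hc hf s)).sub ((cont_dJst hc hf s).const_smul (s' - s)))
        (by positivity) (by positivity)
        (fun x => (taylor hc hf h1 hs x).trans (le_of_eq (by ring)))).2
      refine h2.trans (le_of_eq ?_)
      rw [Real.norm_eq_abs, abs_pow]
      ring
    refine hbig.trans_isLittleO ?_
    have hlit : (fun x : ℝ => x ^ 2) =o[𝓝 0] fun x => x := by
      have := Asymptotics.isLittleO_pow_id (𝕜 := ℝ) (n := 2) (by norm_num)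
      exact this
    have ht : Tendsto (fun s' => s' - s) (𝓝[Icc 0 d] s) (𝓝 0) := by
      have : Tendsto (fun s' => s' - s) (𝓝 s) (𝓝 (s - s)) :=
        (continuous_id.sub continuous_const).tendsto s
      rw [sub_self] at this
      exact this.mono_left nhdsWithin_le_nhds
    exact hlit.comp_tendsto ht
  · intro s hs s' hs'
    rw [← vL_sub (mdJ s hs).1 (mdJ s' hs').1]
    have h2 := (dom hco hc.l0 (α := |s - s'| * Λ * (3 * F₁))
      (β := |s - s'| * Λ * (3 * F₁ + 9 * F₂))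
      ((cont_dJst hc hf s).sub (cont_dJst hc hf s')) (by positivity) (by positivity)
      (fun x => (dJst_sub_le hc hf h1 hs' x).trans (le_of_eq (by ring)))).2
    refine h2.trans ?_
    have e : 9 * B * Λ * (F₀ + F₁ + F₂) * |s - s'| -
        (|s - s'| * Λ * (3 * F₁) + |s - s'| * Λ * (3 * F₁ + 9 * F₂)) * B =
        (B * Λ * |s - s'|) * (9 * F₀ + 3 * F₁) := by ring
    have := mul_nonneg (by positivity : 0 ≤ B * Λ * |s - s'|)
      (by positivity : 0 ≤ 9 * F₀ + 3 * F₁)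
    linarith

end Pool.Agent.TF
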