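import Pool.Agent.TF.R.Sp
import Pool.Agent.TF.E.Dk3

/-!
# Block R, row RB1: the commutator of one word with the transport
-/

set_option autoImplicit false

namespace Pool.Agent.TF

open MeasureTheory Set Filter Topology Pool.Agent.TO Pool.Agent.TB Pool.Agent.TC Pool.Agent.TP
open scoped ENNReal NNReal Real InnerProductSpace SchwartzMap LineDeriv Laplacian

namespace KeyR

/-- a word of Riesz transforms does not increase the norm -/
theorem norm_Wd_le {R : Fin 3 → V3 →L[ℝ] V3} (hR : RZ R) (W : List (Fin 3)) (F : V3) :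
    ‖Wd R W F‖ ≤ ‖F‖ := by
  induction W with
  | nil => exact le_rfl
  | cons j W ih => exact (hR.le j _).trans ih

/-- the class of a bounded function is bounded -/
theorem bd_vL {f : E3 → E3} {A : ℝ} (h0 : MemLp f 2 (volume : Measure E3))
    (hA : ∀ x, ‖f x‖ ≤ A) : Bd (vL f) A := by
  filter_upwards [coe_vL h0] with x hx
  rw [hx]
  exact hA x

/-- the product of the class of `b` and of a bounded function -/
theorem mem_mul (i : Fin 3) {b f : E3 → E3} {A : ℝ} (hb : MemLp b 2 (volume : Measure E3))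
    (hf : MemLp f 2 (volume : Measure E3)) (hA : ∀ x, ‖f x‖ ≤ A) :
    MemLp (fun x => (b x) i • f x) 2 (volume : Measure E3) ∧
      vL (fun x => (b x) i • f x) = tens i (vL b) (vL f) := by
  have h1 : (tens i (vL b) (vL f) : E3 → E3) =ᵐ[volume] fun x => (b x) i • f x := by
    filter_upwards [coe_tens_right i (vL b) (bd_vL hf hA), coe_vL hb, coe_vL hf] with x e1 e2 e3
    rw [e1, e2, e3]
  have h2 : MemLp (fun x => (b x) i • f x) 2 (volume : Measure E3) :=
    (memLp_congr_ae h1).1 (Lp.memLp _)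
  refine ⟨h2, ?_⟩
  apply Lp.ext
  filter_upwards [coe_vL h2, h1] with x e1 e2
  rw [e1, e2]

/-- the product rule -/
theorem pd_mul (i k : Fin 3) {b f : E3 → E3} (hb : Differentiable ℝ b) (hf : Differentiable ℝ f) :
    (pd k fun x => (b x) i • f x) =
      fun x => (pd k b x) i • f x + (b x) i • pd k f x := by
  funext x
  unfold pd
  have h1 : HasFDerivAt (fun x => (b x) i)
      ((EuclideanSpace.proj (𝕜 := ℝ) i : E3 →L[ℝ] ℝ).comp (fderiv ℝ b x)) x :=
    (EuclideanSpace.proj (𝕜 := ℝ) i : E3 →L[ℝ] ℝ).hasFDerivAt.comp x (hb x).hasFDerivAt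
  have h2 := h1.smul (hf x).hasFDerivAt
  have h3 : fderiv ℝ (fun x => (b x) i • f x) x = _ := h2.fderiv
  rw [h3]
  simp only [add_apply, smul_apply, ContinuousLinearMap.smulRight_apply,
    ContinuousLinearMap.comp_apply]
  rw [add_comm]
  rfl

theorem vL_pd_mul (i k : Fin 3) {b f : E3 → E3} {a a' : ℝ} (hb : ContDiff ℝ 1 b)
    (hb0 : MemLp b 2 (volume : Measure E3)) (hb1 : MemLp (pd k b) 2 (volume : Measure E3))
    (hf : Nc f) (h0 : ∀ x, ‖f x‖ ≤ a) (h1 : ∀ x, ‖pd k f x‖ ≤ a') :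
    vL (pd k fun x => (b x) i • f x) =
      tens i (vL (pd k b)) (vL f) + tens i (vL b) (vL (pd k f)) := by
  obtain ⟨m1, e1⟩ := mem_mul i hb1 hf.m0 h0
  obtain ⟨m2, e2⟩ := mem_mul i hb0 (hf.m1 k) h1
  rw [pd_mul i k (hb.differentiable one_ne_zero) (hf.c2.differentiable (by norm_num)), ← e1, ← e2]
  have m3 : MemLp (fun x => (pd k b x) i • f x + (b x) i • pd k f x) 2
      (volume : Measure E3) := m1.add m2
  apply Lp.ext
  filter_upwards [coe_vL m3, coe_vL m1, coe_vL m2,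
    Lp.coeFn_add (vL fun x => (pd k b x) i • f x) (vL fun x => (b x) i • pd k f x)]
    with x g1 g2 g3 g4
  rw [g1, g4, Pi.add_apply, g2, g3]

end KeyR

open KeyR in
/-- Row RB1 -/
theorem key_ok (hcc : StCC) (hw : StWord) (h0 : SpWk) : SpKey := by
  intro W
  obtain ⟨C, hC, hCC⟩ := hcc W
  refine ⟨C + 1, by linarith, ?_⟩
  intro R hR i k f b a a' F₂ w dw hf hb hb0 hb1 hdw
  have ha : 0 ≤ a := (norm_nonneg _).trans (hf.f0 0)
  have ha' : 0 ≤ a' := (norm_nonneg _).trans (hf.f1 k 0)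
  have B0 : Bd (vL f) a := bd_vL hf.nc.m0 hf.f0
  have B1 : Bd (vL (pd k f)) a' := bd_vL (hf.nc.m1 k) (hf.f1 k)
  have hbd : ∀ W', ∃ B, Bd (Wd R W' (vL (pd k f))) B := by
    intro W'
    obtain ⟨c', -, h'⟩ := hw W'
    exact ⟨_, h' R hR k f a F₂ hf.nc hf.f0 hf.f2 1 one_pos⟩
  have h1 := hCC R hR i k (vL f) (vL (pd k f)) w dw a ha B0
    (h0 k f (hf.nc.c2.of_le (by norm_num)) hf.nc.m0 (hf.nc.m1 k)) hdw hbd
  have h2 : ‖tens i (w - vL b) (vL (pd k f))‖ ≤ a' * ‖w - vL b‖ := norm_tens_right_le i _ B1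
  have h3 : ‖tens i (vL (pd k b)) (vL f)‖ ≤ a * ‖vL (pd k b)‖ := norm_tens_right_le i _ B0
  have h4 := norm_Wd_le hR W (tens i (w - vL b) (vL (pd k f)))
  have h5 := norm_Wd_le hR W (tens i (vL (pd k b)) (vL f))
  have e : tens i w (Wd R W (vL (pd k f))) - Wd R W (vL (pd k fun x => (b x) i • f x)) =
      (tens i w (Wd R W (vL (pd k f))) - Wd R W (tens i w (vL (pd k f)))) +
        Wd R W (tens i (w - vL b) (vL (pd k f))) - Wd R W (tens i (vL (pd k b)) (vL f)) := by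
    rw [vL_pd_mul i k hb hb0 hb1 hf.nc hf.f0 (hf.f1 k), tens_sub_left i w (vL b) B1, map_add,
      map_sub]
    abel
  rw [e]
  have n1 : 0 ≤ a * √(∑ l, ‖dw l‖ ^ 2) := mul_nonneg ha (Real.sqrt_nonneg _)
  have n2 : 0 ≤ a' * ‖w - vL b‖ := mul_nonneg ha' (norm_nonneg _)
  have n3 : 0 ≤ a * ‖vL (pd k b)‖ := mul_nonneg ha (norm_nonneg _)
  refine (norm_sub_le _ _).trans ((add_le_add_left (norm_add_le _ _) _).trans ?_)
  nlinarith [mul_nonneg hC.le n2, mul_nonneg hC.le n3]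

end Pool.Agent.TF
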