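import Pool.Agent.TF.R.Sp
import Pool.Agent.TF.Semi
import Pool.Agent.TF.E.Div

/-!
# Block R, row RA4: transposes, the Leray projection
-/

set_option autoImplicit false

namespace Pool.Agent.TF

open MeasureTheory Set Filter Topology Pool.Agent.TO Pool.Agent.TB Pool.Agent.TC Pool.Agent.TP
open scoped ENNReal NNReal Real InnerProductSpace SchwartzMap LineDeriv Laplacian

namespace LpR

variable {R : Fin 3 → V3 →L[ℝ] V3}

theorem anti' (hR : RZ R) (j : Fin 3) (f g : V3) : ⟪R j f, g⟫_ℝ = -⟪f, R j g⟫_ℝ := by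
  have := hR.anti j f g
  linarith

theorem Dp_PM (l m k i : Fin 3) {y : ℝ} (hy : 0 < y) (f : V3) :
    Dp l y (PM k i f) = PM k i (Dp l y f) := by
  unfold Dp
  rw [cvO_eq (kk_dk l hy), PM_cvL]

/-- a field with `Yp y h = 0` for all `y > 0` vanishes -/
theorem eq_zero_of_Yp {h : V3} (hh : ∀ y : ℝ, 0 < y → Yp y h = 0) : h = 0 := by
  have h1 : ∀ y : ℝ, 0 < y → Pp y h = Pp 1 h := by
    intro y hy
    have h2 := (convex_Ioi (0:ℝ)).norm_image_sub_le_of_norm_hasDerivWithin_le
      (f := fun s => Pp s h) (f' := fun _ => (0 : V3)) (C := 0)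
      (fun x hx => by
        have := (deriv_Pp (mem_Ioi.1 hx) h).hasDerivWithinAt (s := Ioi 0)
        rwa [hh x (mem_Ioi.1 hx)] at this)
      (fun x _ => by simp) (mem_Ioi.2 one_pos) (mem_Ioi.2 hy)
    rw [zero_mul] at h2
    exact sub_eq_zero.1 (norm_le_zero_iff.1 h2)
  have h3 : Pp 1 h = 0 := by
    refine tendsto_nhds_unique ?_ (sg_ok.lim h)
    refine tendsto_const_nhds.congr' ?_
    filter_upwards [eventually_gt_atTop (0:ℝ)] with y hy
    exact (h1 y hy).symm
  refine tendsto_nhds_unique (tendsto_Pp_zero h) ?_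
  refine tendsto_const_nhds.congr' ?_
  filter_upwards [self_mem_nhdsWithin] with y hy
  rw [h1 y hy, h3]

theorem sum_R_PM (hR : RZ R) {f : V3} (hf : IsDivFree f) (i : Fin 3) :
    ∑ l, R l (PM l i f) = 0 := by
  refine eq_zero_of_Yp fun y hy => ?_
  rw [map_sum]
  have h1 : ∀ l, Yp y (R l (PM l i f)) = -PM l i (Dp l y f) := by
    intro l
    rw [hR.yp l y hy, Dp_PM l l l i hy]
  simp only [h1, Finset.sum_neg_distrib]
  rw [sum_PM_div (f := Pp y f) (dv_div_cvO hf (pk y)) (fun k => weak_Pp k hy f) i, neg_zero]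

end LpR

open LpR in
theorem lp_ok : SpLP := by
  intro R hR
  refine ⟨?_, ?_, ?_, ?_, ?_⟩
  · intro j f g
    cases j with
    | none => rw [sj, one_mul]; rfl
    | some j => rw [sj, neg_one_mul]; exact hR.anti j f g
  · intro f g
    unfold LP
    rw [inner_add_left, inner_add_right]
    congr 1
    simp only [sum_inner, inner_sum]
    rw [Finset.sum_comm]
    refine Finset.sum_congr rfl fun l _ => Finset.sum_congr rfl fun i _ => ?_
    rw [anti' hR, anti' hR, neg_neg, ← inner_PM, hR.pm, hR.pm]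
  · intro f hf
    unfold LP
    have h1 : ∀ i, ∑ l, R i (R l (PM l i f)) = 0 := by
      intro i
      rw [← map_sum, sum_R_PM hR hf i, map_zero]
    simp only [h1, Finset.sum_const_zero, add_zero]
  · intro j k f g h
    exact dv_To_weak hR j h
  · intro k f g h
    unfold LP
    refine weak_add h (weak_sum fun i => weak_sum fun l => ?_)
    exact hR.weak i k _ _ (hR.weak l k _ _ (weak_PM l i h))

end Pool.Agent.TF
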