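import Pool.Agent.TF.R.ModB

/-!
# Block R, row RA6: the modulus of continuity of the interpolated field
-/

set_option autoImplicit false

namespace Pool.Agent.TF

open MeasureTheory Set Filter Topology Pool.Agent.TO Pool.Agent.TB Pool.Agent.TC Pool.Agent.TP
open scoped ENNReal NNReal Real InnerProductSpace SchwartzMap LineDeriv Laplacian

namespace ModR

variable {R : Fin 3 → V3 →L[ℝ] V3} {η : ℝ} {b : E3 → E3} {lam : E3 → ℝ} {σ : Sta} {N d t : ℝ}

/-! ### the estimates -/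

theorem sqrt_sqrt_facts {s : ℝ} (_ : 0 ≤ s) (h1 : s ≤ 1) :
    0 ≤ √(√s) ∧ √(√s) ^ 2 = √s ∧ √s ≤ √(√s) := by
  have h2 : 0 ≤ √s := Real.sqrt_nonneg _
  have h3 : √s ≤ 1 := Real.sqrt_le_one.2 h1
  exact ⟨Real.sqrt_nonneg _, Real.sq_sqrt h2, le_sqrt_self' h2 h3⟩

/-- the derivative of a potential is Hölder continuous at `0` in `L²` -/
theorem pot_pd {N' r : ℝ} {f S : E3 → E3} (h0 : SpWk) (P : Pot N N' d r b lam f S) {C s : ℝ}
    (hC : 0 ≤ C) (hs : s ∈ Icc 0 d) (h : ‖vL (Fs b lam f S s) - vL f‖ ≤ C * √s) (k : Fin 3) :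
    ‖vL (pd k (Fs b lam f S s)) - vL (pd k f)‖ ≤ √(2 * N * C) * √(√s) := by
  have z : (0:ℝ) ∈ Icc 0 d := ⟨le_rfl, P.hd.le⟩
  have hN0 : 0 ≤ N := by linarith [P.hN]
  have h2 := P.t2 0 z k k
  rw [Fs_zero b lam f S le_rfl] at h2
  refine (interp_sub h0 (P.nc s hs) P.fb.nc k (P.t2 s hs k k) h2 h).trans (le_of_eq ?_)
  rw [← Real.sqrt_mul (by positivity)]
  congr 1
  ring

/-- the word bound of the derivative of a potential -/
theorem pot_word {N' r : ℝ} {f S : E3 → E3} {W : List (Fin 3)} {CW : ℝ} (hR : RZ R)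
    (hw : ∀ R, RZ R → ∀ (k : Fin 3) (f : E3 → E3) (A B : ℝ), Nc f → (∀ x, ‖f x‖ ≤ A) →
      (∀ i j x, ‖pd i (pd j f) x‖ ≤ B) → ∀ τ : ℝ, 0 < τ →
      Bd (Wd R W (vL (pd k f))) (CW * (τ * B + A / τ)))
    (P : Pot N N' d r b lam f S) {C s : ℝ} (hs : s ∈ Icc 0 d)
    (h : ∀ x, ‖Fs b lam f S s x - f x‖ ≤ C * √s) (k : Fin 3) :
    Bd (Wd R W (vL (pd k (Fs b lam f S s)) - vL (pd k f))) (CW * (2 * N + C) * √(√s)) := by
  have z : (0:ℝ) ∈ Icc 0 d := ⟨le_rfl, P.hd.le⟩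
  have hN0 : 0 ≤ N := by linarith [P.hN]
  rcases hs.1.eq_or_lt with h5 | hs0
  · subst h5
    rw [Fs_zero b lam f S le_rfl, sub_self, map_zero]
    have h6 : CW * (2 * N + C) * √(√(0:ℝ)) = 0 := by simp
    rw [h6]
    unfold Bd
    filter_upwards [Lp.coeFn_zero E3 2 (volume : Measure E3)] with x hx
    rw [hx]
    simp
  · have hs1 : s ≤ 1 := hs.2.trans P.d1
    obtain ⟨q1, q2, q3⟩ := sqrt_sqrt_facts hs.1 hs1
    have q4 : 0 < √(√s) := Real.sqrt_pos.2 (Real.sqrt_pos.2 hs0)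
    have s2 := P.s2 0 z
    rw [Fs_zero b lam f S le_rfl] at s2
    have h7 := hw R hR k (fun x => Fs b lam f S s x - f x) (C * √s) (2 * N)
      (nc_sub (P.nc s hs) P.fb.nc) h (fun i j x => by
        rw [pd_pd_sub_nc (P.nc s hs) P.fb.nc]
        refine (norm_sub_le _ _).trans ?_
        have := P.s2 s hs i j x
        have := s2 i j x
        linarith) (√(√s)) q4
    rw [vL_pd_sub (P.nc s hs) P.fb.nc] at h7
    refine bd_mono h7 (le_of_eq ?_)
    have h8 : C * √s / √(√s) = C * √(√s) := by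
      rw [div_eq_iff q4.ne', mul_assoc, ← sq, q2]
    rw [h8]
    ring

theorem weak_state (h0 : SpWk) (h4 : SpLP) (hR : RZ R) {σ : Sta} {N : ℝ} (hσ : NcS σ)
    (hn : NrS N σ) : ∃ DU : Fin 3 → V3, ∀ k, IsWeakDeriv k (Hh R σ) (DU k) ∧ ‖DU k‖ ≤ 43 * N := by
  obtain ⟨-, -, -, w1, w2⟩ := h4 R hR
  obtain ⟨dl, hdl⟩ := hn.l1
  refine ⟨fun i => (∑ k, ∑ j, To R j (vL (pd i (pd k (σ.g k j))))) +
    LP R (∑ k, vL (pd i (pd k (σ.h k)))) + dl i, fun i => ⟨?_, ?_⟩⟩
  · unfold Hh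
    refine weak_add (weak_add (weak_sum fun k => ?_) (w2 i _ _ (weak_sum fun k =>
      weak_pd_nc h0 (hσ.2 k) i k))) (hdl i).1
    rw [Fintype.sum_option, Fintype.sum_option]
    exact weak_add (w1 none i _ _ (weak_pd_nc h0 (hσ.1 k none) i k))
      (weak_sum fun j => w1 (some j) i _ _ (weak_pd_nc h0 (hσ.1 k (some j)) i k))
  · have b1 : ‖∑ k, ∑ j, To R j (vL (pd i (pd k (σ.g k j))))‖ ≤ 12 * N :=
      sum12 fun k j => (norm_To_le hR j _).trans (hn.g2 k j i k)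
    have b2 : ‖∑ k, vL (pd i (pd k (σ.h k)))‖ ≤ 3 * N := sum3' fun k => hn.h2 k i k
    have b3 := norm_LP_le hR (∑ k, vL (pd i (pd k (σ.h k))))
    have b4 := (hdl i).2
    refine norm_add₃_le.trans ?_
    linarith

end ModR

open ModR in
/-- Row RA6 -/
theorem mod_ok (hw : StWord) (h0 : SpWk) (h1 : SpJd) (h2 : SpHt) (h3 : SpHd) (h4 : SpLP) :
    SpMod := by
  intro N hN
  have hN0 : 0 ≤ N := by linarith
  obtain ⟨CP, hCP, hb⟩ := pot_bounds h0 h1 h2 N (43 * N ^ 2) hN (by positivity)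
  have h1' := h1
  have h2' := h2
  obtain ⟨CJ, hCJ, hj⟩ := h1'
  obtain ⟨CH, hCH, -, hc, hwk, -, -⟩ := h2'
  choose CW hCW hword using hw
  have hCW0 : ∀ W, 0 ≤ CW W := fun W => (hCW W).le
  set K : ℝ := CW [] + (∑ j, CW [j]) + ∑ i, ∑ l, CW [i, l] with hK
  have k1 : 0 ≤ ∑ j, CW [j] := Finset.sum_nonneg fun j _ => hCW0 _
  have k2 : 0 ≤ ∑ i, ∑ l, CW [i, l] :=
    Finset.sum_nonneg fun i _ => Finset.sum_nonneg fun l _ => hCW0 _
  have kn : CW [] ≤ K := by linarith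
  have kj : ∀ j, CW [j] ≤ K := fun j => by
    have := Finset.single_le_sum (f := fun j => CW [j]) (fun j _ => hCW0 _) (Finset.mem_univ j)
    have := hCW0 []
    linarith
  have kil : ∀ i l, CW [i, l] ≤ K := fun i l => by
    have h5 := Finset.single_le_sum (f := fun l => CW [i, l]) (fun j _ => hCW0 _)
      (Finset.mem_univ l)
    have h6 := Finset.single_le_sum (f := fun i => ∑ l, CW [i, l])
      (fun i _ => Finset.sum_nonneg fun l _ => hCW0 _) (Finset.mem_univ i)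
    have := hCW0 []
    linarith
  have hK0 : 0 ≤ K := (hCW0 []).trans kn
  set C : ℝ := 42 * √(2 * N * CP) + 2 * N * CH + 42 * (K * (2 * N + CP)) + 43 * N +
    (10 * CJ * N ^ 2 + 43 * N ^ 2) with hC
  have hC0 : 0 < C := by positivity
  refine ⟨C, hC0, ?_⟩
  intro d η t R b lam σ P
  refine ⟨cont_Us h0 h1 h2 h3 P, fun k => cont_Kf h1 h2 h3 P k, fun s hs => ?_⟩
  have hR := P.hR
  have z : (0:ℝ) ∈ Icc 0 d := ⟨le_rfl, P.hd.le⟩
  have pg := pot_g P
  have ph := pot_h P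
  have hd1 : d ≤ 1 := (ph 0).d1
  have hs1 : s ≤ 1 := hs.2.trans hd1
  obtain ⟨q1, q2, q3⟩ := sqrt_sqrt_facts hs.1 hs1
  have bg := fun k j => hb d (√t) b lam (σ.g k j) _ (pg k j) s hs
  have bh := fun k => hb d (√t) b lam (σ.h k) _ (ph k) s hs
  have n0 := P.nr 0 z
  rw [Ss_zero le_rfl] at n0
  -- the low frequency part
  have hl : ‖(Ss R η b lam σ s).l - σ.l‖ ≤ 2 * N * CH * √(√s) := by
    rcases hs.1.eq_or_lt with h5 | hs0
    · subst h5
      rw [Ss_zero le_rfl, sub_self, norm_zero]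
      positivity
    · rw [Ss_l_pos hs0]
      obtain ⟨dl, hdl⟩ := n0.l1
      refine (hwk s hs0 σ.l dl fun k => (hdl k).1).trans ?_
      have h6 := sqrt_three N hN0 dl fun k => (hdl k).2
      calc CH * √s * √(∑ k, ‖dl k‖ ^ 2) ≤ CH * √(√s) * (2 * N) := by gcongr
        _ = _ := by ring
  have eU : Us R η b lam σ 0 = Hh R σ := by
    unfold Us
    rw [Ss_zero le_rfl]
  have eP : Hp R (Ss R η b lam σ s) - Hp R σ =
      (∑ k, ∑ j, To R j (vL (pd k (Fs b lam (σ.g k j) (fun _ => 0) s)) - vL (pd k (σ.g k j)))) +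
      LP R (∑ k, (vL (pd k (Fs b lam (σ.h k) (src R η σ k) s)) - vL (pd k (σ.h k)))) := by
    unfold Hp
    simp only [Ss_g, Ss_h, map_sub, Finset.sum_sub_distrib, LP_sub]
    abel
  refine ⟨?_, ?_, ?_, ?_, ?_⟩
  · have e1 : Us R η b lam σ s - Us R η b lam σ 0 =
        (Hp R (Ss R η b lam σ s) - Hp R σ) + ((Ss R η b lam σ s).l - σ.l) := by
      rw [eU]
      unfold Us
      rw [Hh_eq, Hh_eq]
      abel
    rw [e1, eP]
    have b1 : ‖∑ k, ∑ j, To R j (vL (pd k (Fs b lam (σ.g k j) (fun _ => 0) s)) -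
        vL (pd k (σ.g k j)))‖ ≤ 12 * (√(2 * N * CP) * √(√s)) :=
      sum12 fun k j => (norm_To_le hR j _).trans
        (pot_pd h0 (pg k j) hCP.le hs (bg k j).1 k)
    have b2 : ‖∑ k, (vL (pd k (Fs b lam (σ.h k) (src R η σ k) s)) - vL (pd k (σ.h k)))‖ ≤
        3 * (√(2 * N * CP) * √(√s)) :=
      sum3' fun k => pot_pd h0 (ph k) hCP.le hs (bh k).1 k
    have b3 := norm_LP_le hR
      (∑ k, (vL (pd k (Fs b lam (σ.h k) (src R η σ k) s)) - vL (pd k (σ.h k))))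
    refine norm_add₃_le.trans ?_
    have h5 : 12 * (√(2 * N * CP) * √(√s)) + 10 * (3 * (√(2 * N * CP) * √(√s))) +
        2 * N * CH * √(√s) = (42 * √(2 * N * CP) + 2 * N * CH) * √(√s) := by ring
    have h6 : (42 * √(2 * N * CP) + 2 * N * CH) * √(√s) ≤ C * √(√s) := by
      refine mul_le_mul_of_nonneg_right ?_ q1
      have : 0 ≤ 42 * (K * (2 * N + CP)) + 43 * N + (10 * CJ * N ^ 2 + 43 * N ^ 2) := by
        positivity
      linarith
    linarith
  · rw [eP]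
    have w0 : ∀ {W : List (Fin 3)}, CW W ≤ K → CW W * (2 * N + CP) * √(√s) ≤
        K * (2 * N + CP) * √(√s) := fun h => by gcongr
    have b1 : ∀ k j, Bd (To R j (vL (pd k (Fs b lam (σ.g k j) (fun _ => 0) s)) -
        vL (pd k (σ.g k j)))) (K * (2 * N + CP) * √(√s)) := by
      intro k j
      rcases j with _ | j
      · exact bd_mono (pot_word (W := []) hR (hword []) (pg k none) hs
          (bg k none).2 k) (w0 kn)
      · exact bd_mono (pot_word (W := [j]) hR (hword [j]) (pg k (some j)) hs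
          (bg k (some j)).2 k) (w0 (kj j))
    have b2 : ∀ k, Bd (vL (pd k (Fs b lam (σ.h k) (src R η σ k) s)) - vL (pd k (σ.h k)))
        (K * (2 * N + CP) * √(√s)) := fun k =>
      bd_mono (pot_word (W := []) hR (hword []) (ph k) hs (bh k).2 k) (w0 kn)
    have b3 : ∀ i l k, Bd (R i (R l (vL (pd k (Fs b lam (σ.h k) (src R η σ k) s)) -
        vL (pd k (σ.h k))))) (K * (2 * N + CP) * √(√s)) := fun i l k =>
      bd_mono (pot_word (W := [i, l]) hR (hword [i, l]) (ph k) hs (bh k).2 k)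
        (w0 (kil i l))
    have b4 : Bd (LP R (∑ k, (vL (pd k (Fs b lam (σ.h k) (src R η σ k) s)) -
        vL (pd k (σ.h k))))) (10 * (3 * (K * (2 * N + CP) * √(√s)))) := by
      refine bd_LP hR (bd_sum3 b2) fun i l => ?_
      rw [map_sum, map_sum]
      exact bd_sum3 fun k => b3 i l k
    refine bd_mono (bd_add (bd_sum3 fun k => bd_sum4 fun j => b1 k j) b4) ?_
    have h5 : 3 * (4 * (K * (2 * N + CP) * √(√s))) + 10 * (3 * (K * (2 * N + CP) * √(√s))) =
        42 * (K * (2 * N + CP)) * √(√s) := by ring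
    rw [h5]
    refine mul_le_mul_of_nonneg_right ?_ q1
    have : 0 ≤ 42 * √(2 * N * CP) + 2 * N * CH + 43 * N + (10 * CJ * N ^ 2 + 43 * N ^ 2) := by
      positivity
    linarith
  · have h5 := norm_Hh_le hR (P.nr s hs)
    have : 0 ≤ 42 * √(2 * N * CP) + 2 * N * CH + 42 * (K * (2 * N + CP)) +
      (10 * CJ * N ^ 2 + 43 * N ^ 2) := by positivity
    unfold Us
    linarith
  · intro hs0 k
    have bj : ∀ f, Fb N N N f → ‖cvO (hk s) (vL (dJst s b lam f))‖ ≤ CJ * N * (N + N) := by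
      intro f hf
      obtain ⟨j1, -⟩ := hj N (√t) N N N N N d b lam f P.coef P.col hf P.hd P.dN
      exact (hc s hs0 _).trans (j1 s hs).2.2.2.2.1
    have b1 : ‖∑ j, To R j (cvO (hk s) (vL (dJst s b lam (σ.g k j))))‖ ≤
        4 * (CJ * N * (N + N)) := by
      have h5 : ‖∑ j, To R j (cvO (hk s) (vL (dJst s b lam (σ.g k j))))‖ ≤
          ∑ _j : Option (Fin 3), (CJ * N * (N + N)) :=
        (norm_sum_le _ _).trans (Finset.sum_le_sum fun j _ =>
          (norm_To_le hR j _).trans (bj _ (pg k j).fb))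
      simp only [Finset.sum_const, Finset.card_univ, Fintype.card_option, Fintype.card_fin,
        nsmul_eq_mul] at h5
      push_cast at h5
      linarith
    have b2 : ‖cvO (hk s) (vL (dJst s b lam (σ.h k)) + vL (src R η σ k))‖ ≤
        CJ * N * (N + N) + 43 * N ^ 2 := by
      rw [map_add]
      exact (norm_add_le _ _).trans (add_le_add (bj _ (ph k).fb)
        ((hc s hs0 _).trans (src_facts P k).2.2.2))
    unfold Kf
    refine (norm_add_le _ _).trans ?_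
    have h6 : 4 * (CJ * N * (N + N)) + (CJ * N * (N + N) + 43 * N ^ 2) =
        10 * CJ * N ^ 2 + 43 * N ^ 2 := by ring
    have : 0 ≤ 42 * √(2 * N * CP) + 2 * N * CH + 42 * (K * (2 * N + CP)) + 43 * N := by
      positivity
    linarith
  · obtain ⟨DU, hDU⟩ := weak_state h0 h4 hR (P.nc s hs) (P.nr s hs)
    refine ⟨DU, fun k => ⟨(hDU k).1, (hDU k).2.trans ?_⟩⟩
    have : 0 ≤ 42 * √(2 * N * CP) + 2 * N * CH + 42 * (K * (2 * N + CP)) +
      (10 * CJ * N ^ 2 + 43 * N ^ 2) := by positivity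
    linarith

end Pool.Agent.TF
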