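import Pool.Agent.TF.R.Sp
import Pool.Agent.TF.E.Src
import Pool.Agent.TB.DivSub

/-!
# Block R, row RE1: the derivative of the relative energy
-/

set_option autoImplicit false

namespace Pool.Agent.TF

open MeasureTheory Set Filter Topology Pool.Agent.TO Pool.Agent.TB Pool.Agent.TC Pool.Agent.TP
open scoped ENNReal NNReal Real InnerProductSpace SchwartzMap LineDeriv Laplacian

namespace RefR

/-- the source in `L²` -/
theorem vL_src (R : Fin 3 → V3 →L[ℝ] V3) {η : ℝ} (hη : 0 < η) (σ : Sta) (k : Fin 3) :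
    vL (src R η σ k) = -cvO (hk η) (tens k (Hh R σ) (Hh R σ)) := by
  have h1 : MemLp (heat η (tens k (Hh R σ) (Hh R σ) : V3)) 2 (volume : Measure E3) :=
    memLp_heat hη _
  have h2 : MemLp (src R η σ k) 2 (volume : Measure E3) := h1.neg
  apply Lp.ext
  filter_upwards [coe_vL h2, Lp.coeFn_neg (cvO (hk η) (tens k (Hh R σ) (Hh R σ))),
    coe_cvO (kk_hk hη) (tens k (Hh R σ) (Hh R σ))] with x g1 g2 g3
  rw [g1, g2, Pi.neg_apply, g3]
  rfl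

/-- the square root of a sum of squares -/
theorem sqrt_sum_le (a b : Fin 3 → V3) :
    √(∑ k, ‖a k‖ ^ 2) ≤ √(∑ k, ‖b k‖ ^ 2) + √(∑ k, ‖b k - a k‖ ^ 2) := by
  have key : ∀ c : Fin 3 → V3, √(∑ k, ‖c k‖ ^ 2) = ‖(WithLp.toLp 2 c : PiLp 2 fun _ => V3)‖ := by
    intro c
    rw [PiLp.norm_eq_of_L2]
  have h1 : (WithLp.toLp 2 a : PiLp 2 fun _ : Fin 3 => V3) =
      WithLp.toLp 2 b - WithLp.toLp 2 (fun k => b k - a k) := by
    ext1 k
    simp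
  rw [key a, key b, key fun k => b k - a k, h1]
  exact norm_sub_le _ _

/-- the final inequality -/
theorem alg {D x1 x2 x3 x4 x5 θ ρ : ℝ} (hθ : θ ≤ 3 / 16) (hρ : ρ ≤ -D ^ 2 + θ * D ^ 2 +
    D * (x1 + x2 + x3 + x4 + x5)) :
    ρ ≤ 2 * x1 ^ 2 + 2 * x2 ^ 2 + 2 * x3 ^ 2 + 2 * x4 ^ 2 + 2 * x5 ^ 2 := by
  nlinarith [sq_nonneg (D - 4 * x1), sq_nonneg (D - 4 * x2), sq_nonneg (D - 4 * x3),
    sq_nonneg (D - 4 * x4), sq_nonneg (D - 4 * x5), sq_nonneg D]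

/-- the potentials: nonnegative bounds -/
theorem card_le {R : Fin 3 → V3 →L[ℝ] V3} (hR : RZ R) {E : Option (Fin 3) → V3} {F : V3} {x : ℝ}
    (hE : ∀ j, ‖E j‖ ≤ x) (hF : ‖F‖ ≤ x) : ‖(∑ j, To R j (E j)) + F‖ ≤ 5 * x := by
  have h1 : ‖∑ j, To R j (E j)‖ ≤ ∑ _j : Option (Fin 3), x :=
    (norm_sum_le _ _).trans (Finset.sum_le_sum fun j _ => (norm_To_le hR j _).trans (hE j))
  simp only [Finset.sum_const, Finset.card_univ, Fintype.card_fin, Fintype.card_option,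
    nsmul_eq_mul] at h1
  push_cast at h1
  exact (norm_add_le _ _).trans (by linarith)

end RefR

namespace RefR

/-- the five terms -/
theorem split {R : Fin 3 → V3 →L[ℝ] V3} {b : E3 → E3} {lam : E3 → ℝ} {σ : Sta} {η s : ℝ}
    (hη : 0 < η) {U w : V3} {dw : Fin 3 → V3}
    (htb : ∑ k, ⟪dw k, (∑ j, To R j (vL (bg b (σ.g k j)))) + vL (bg b (σ.h k))⟫_ℝ =
      ∑ i, ⟪dw i, TBs R b σ i⟫_ℝ) {B1 B2 : ℝ} (hB1 : Bd (Hp R σ) B1)
    (hB2 : Bd (U - Hp R σ) B2) :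
    ∑ k, ⟪dw k, tens k w U - (-tens k U U - Kf R η b lam σ s k)⟫_ℝ =
      ∑ k, ⟪dw k, tens k w (Hp R σ) - TBs R b σ k⟫_ℝ +
      ∑ k, ⟪dw k, tens k w (U - Hp R σ)⟫_ℝ +
      ∑ k, ⟪dw k, (∑ j, To R j (cvO (hk s) (vL (dJst s b lam (σ.g k j))) +
        (vL (fun x => lam x • σ.g k j x) + vL (bg b (σ.g k j))))) +
        (cvO (hk s) (vL (dJst s b lam (σ.h k))) +
          (vL (fun x => lam x • σ.h k x) + vL (bg b (σ.h k))))⟫_ℝ -
      ∑ k, ⟪dw k, (∑ j, To R j (vL (fun x => lam x • σ.g k j x))) +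
        vL (fun x => lam x • σ.h k x)⟫_ℝ +
      ∑ k, ⟪dw k, tens k U U - cvO (hk s) (cvO (hk η) (tens k (Hh R σ) (Hh R σ)))⟫_ℝ := by
  have e1 : ∀ k, tens k w U - (-tens k U U - Kf R η b lam σ s k) =
      tens k w (Hp R σ) + tens k w (U - Hp R σ) +
      ((∑ j, To R j (cvO (hk s) (vL (dJst s b lam (σ.g k j))) +
        (vL (fun x => lam x • σ.g k j x) + vL (bg b (σ.g k j))))) +
        (cvO (hk s) (vL (dJst s b lam (σ.h k))) +
          (vL (fun x => lam x • σ.h k x) + vL (bg b (σ.h k))))) -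
      ((∑ j, To R j (vL (fun x => lam x • σ.g k j x))) + vL (fun x => lam x • σ.h k x)) -
      ((∑ j, To R j (vL (bg b (σ.g k j)))) + vL (bg b (σ.h k))) +
      (tens k U U - cvO (hk s) (cvO (hk η) (tens k (Hh R σ) (Hh R σ)))) := by
    intro k
    have h1 : tens k w U = tens k w (Hp R σ) + tens k w (U - Hp R σ) := by
      rw [← tens_add_right k w hB1 hB2, add_sub_cancel]
    rw [Kf, vL_src R hη σ k, h1]
    simp only [map_add, map_neg, Finset.sum_add_distrib]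
    abel
  simp only [e1]
  simp only [inner_sub_right _ _ (TBs R b σ _), Finset.sum_sub_distrib]
  simp only [inner_add_right (𝕜 := ℝ) (E := V3), inner_sub_right (𝕜 := ℝ) (E := V3),
    Finset.sum_add_distrib, Finset.sum_sub_distrib] at htb ⊢
  linarith

end RefR

namespace RefR

/-- the numbers -/
theorem num {N C₁ Cc Cr Cd Cm a q q2 e M L D V δ₁ δ₂ W n T1 T2 T3 T4 T5 ρ : ℝ} (hN : 1 ≤ N)
    (_hCc : 0 < Cc) (hCr : 0 < Cr) (hCd : 0 < Cd) (hCm : 0 < Cm)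
    (hM : 0 ≤ M) (hMN : M ≤ N) (hD : 0 ≤ D) (_hV : 0 ≤ V) (hδ₁ : 0 ≤ δ₁) (hδ₂ : 0 ≤ δ₂)
    (ha : 0 ≤ a) (hC₁ : C₁ * a ≤ 1 / 32) (hCca : Cc * a ≤ 1 / 160)
    (_he : 0 ≤ e) (heM : 32 * Cr * e * M ≤ 1) (hq : 0 ≤ q) (hqq : q2 ≤ q)
    (hW : W ≤ N + Cm) (hn : n ≤ Cc * (D + δ₂))
    (h1 : T1 ≤ D * (2 * (C₁ * a * (D + N * δ₁)))) (h2 : T2 ≤ D * ((Cm * q + L) * W))
    (h3 : T3 ≤ D * (2 * (5 * (Cd * q2)))) (h4 : -T4 ≤ D * (2 * (5 * (a * n))))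
    (h5 : T5 ≤ D * (2 * (Cr * e * M * (V + D) + Cr * q2 * M * (2 * Cm) + 2 * M * (Cm * q))))
    (hρ : ρ = -D ^ 2 + (T1 + T2 + T3 - T4 + T5)) :
    ρ ≤ 2 * (N * δ₁) ^ 2 + 2 * δ₂ ^ 2 + 2 * (2 * Cr * M * e * V) ^ 2 +
      2 * ((10 * Cd + 4 * Cr * N * Cm + 4 * N * Cm + Cm * (N + Cm)) * q) ^ 2 +
      2 * (L * W) ^ 2 := by
  apply alg (D := D) (θ := 3 / 16) le_rfl
  have g1 : T1 ≤ 1 / 16 * D ^ 2 + D * (N * δ₁) := by
    refine h1.trans ?_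
    have k1 : C₁ * a * (D * D) ≤ 1 / 32 * (D * D) := mul_le_mul_of_nonneg_right hC₁ (by positivity)
    have k2 : C₁ * a * (D * (N * δ₁)) ≤ 1 / 32 * (D * (N * δ₁)) :=
      mul_le_mul_of_nonneg_right hC₁ (by positivity)
    have k3 : 0 ≤ D * (N * δ₁) := by positivity
    linarith
  have g2 : T2 ≤ D * (Cm * (N + Cm) * q) + D * (L * W) := by
    refine h2.trans ?_
    have k1 : Cm * q * W ≤ Cm * q * (N + Cm) := mul_le_mul_of_nonneg_left hW (by positivity)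
    have k2 := mul_le_mul_of_nonneg_left k1 hD
    linarith
  have g3 : T3 ≤ D * (10 * Cd * q) := by
    refine h3.trans ?_
    have k1 := mul_le_mul_of_nonneg_left hqq (by positivity : 0 ≤ D * (10 * Cd))
    linarith
  have g4 : -T4 ≤ 1 / 16 * D ^ 2 + D * δ₂ := by
    refine h4.trans ?_
    have k1 : a * n ≤ a * (Cc * (D + δ₂)) := mul_le_mul_of_nonneg_left hn ha
    have k2 := mul_le_mul_of_nonneg_left k1 (by positivity : 0 ≤ D * 10)
    have k3 : Cc * a * (D * (D + δ₂)) ≤ 1 / 160 * (D * (D + δ₂)) :=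
      mul_le_mul_of_nonneg_right hCca (by positivity)
    have k4 : 0 ≤ D * δ₂ := by positivity
    linarith
  have g5 : T5 ≤ 1 / 16 * D ^ 2 + D * (2 * Cr * M * e * V) +
      D * ((4 * Cr * N * Cm + 4 * N * Cm) * q) := by
    refine h5.trans ?_
    have k1 := mul_le_mul_of_nonneg_right heM (by positivity : 0 ≤ D * D / 16)
    have k2 : q2 * M ≤ q * N := by
      rcases le_or_gt 0 q2 with h | h
      · exact mul_le_mul hqq hMN hM hq
      · exact (mul_nonpos_of_nonpos_of_nonneg h.le hM).trans (by positivity)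
    have k3 := mul_le_mul_of_nonneg_left k2 (by positivity : 0 ≤ D * (4 * Cr * Cm))
    have k4 := mul_le_mul_of_nonneg_right hMN (by positivity : 0 ≤ D * (4 * Cm * q))
    linarith
  rw [hρ]
  linarith

end RefR

open RefR

/-- **Row RE1.** -/
theorem ref_ok (hstr : SpStr) (htb : SpTb) (hdam : SpDam) (hco : SpCo) (hsc : SpSc)
    (hmod : SpMod) : SpRef := by
  obtain ⟨Cs, hCs, hstr⟩ := hstr
  obtain ⟨Cc, hCc, hco⟩ := hco
  obtain ⟨Cr, hCr, hsc⟩ := hsc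
  obtain ⟨hdam1, hdam2⟩ := hdam
  have hC₁p : 0 < Cs * (1 + 2 * Cc) := by positivity
  refine ⟨min (1 / (32 * (Cs * (1 + 2 * Cc)))) (1 / (160 * Cc)), by positivity,
    32 * Cr + 8 * Cr ^ 2 + 1, by positivity, fun N hN => ?_⟩
  obtain ⟨Cd, hCd, hdam2⟩ := hdam2 N hN
  obtain ⟨Cm, hCm, hmod⟩ := hmod N hN
  have hN0 : 0 < N := by linarith
  refine ⟨2 * N ^ 2 + 2 + 2 * (10 * Cd + 4 * Cr * N * Cm + 4 * N * Cm + Cm * (N + Cm)) ^ 2,
    by positivity, ?_⟩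
  intro a M L d η t R σ w₀ u dv DU hS hL hM hMN ha hsup hsup1 hη1 s hs hl hU hU0 hu huN hdv hDU
  have hR := hS.hR
  have hη := hS.hη
  have hd := hS.hd
  have hsI : s ∈ Icc 0 d := ⟨hs.1.le, hs.2⟩
  have hs0 : 0 < s := hs.1
  have ht0 : 0 < t := lt_of_lt_of_le (by positivity) hS.tN
  have hr0 : 0 < √t := Real.sqrt_pos.2 ht0
  have hr1 : √t ≤ 1 := Real.sqrt_le_one.2 hS.t1
  have hNr : 1 / N ≤ √t := by
    apply Real.le_sqrt_of_sq_le
    calc (1 / N) ^ 2 ≤ 1 / N := by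
          rw [sq]
          exact mul_le_of_le_one_left (by positivity) ((div_le_one hN0).2 hN)
      _ ≤ t := hS.tN
  have hrN : 1 / √t ≤ N := by
    rw [div_le_iff₀ hN0] at hNr
    rw [div_le_iff₀ hr0]
    linarith
  have hcoef := hS.coef
  have hcol := hS.col
  obtain ⟨hUc, hKc, hm⟩ := hmod d η t R _ _ σ hS
  obtain ⟨hm1, hm2, hm3, hm4, DU', hm5⟩ := hm s hsI
  have hdvs := hS.dv s hsI
  have hnc : NcS σ := by
    have := hS.nc 0 ⟨le_rfl, hd.le⟩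
    rwa [Ss, if_pos le_rfl] at this
  have hUs0 : Us R η (bO (√t) w₀) (lO (√t) w₀) σ 0 = Hh R σ := by
    rw [Us, Ss, if_pos le_rfl]
  have hSs : Ss R η (bO (√t) w₀) (lO (√t) w₀) σ s = nxt R η s (bO (√t) w₀) (lO (√t) w₀) σ := by
    rw [Ss, if_neg (not_le.2 hs.1)]
  rw [hUs0] at hm1
  have hUeq : Us R η (bO (√t) w₀) (lO (√t) w₀) σ s =
      Hp R (Ss R η (bO (√t) w₀) (lO (√t) w₀) σ s) +
        (nxt R η s (bO (√t) w₀) (lO (√t) w₀) σ).l := by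
    rw [Us, Hh_eq, hSs]
  have hsupN : SupS N σ := by
    have := hS.sup 0 ⟨le_rfl, hd.le⟩
    rwa [Ss, if_pos le_rfl] at this
  have hsup1N : SupS1 N σ := by
    have := hS.sup1 0 ⟨le_rfl, hd.le⟩
    rwa [Ss, if_pos le_rfl] at this
  have hnrN : NrS N σ := by
    have := hS.nr 0 ⟨le_rfl, hd.le⟩
    rwa [Ss, if_pos le_rfl] at this
  generalize hUg : Us R η (bO (√t) w₀) (lO (√t) w₀) σ s = U at *
  generalize hlg : (nxt R η s (bO (√t) w₀) (lO (√t) w₀) σ).l = ls at *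
  generalize hHg : Hp R (Ss R η (bO (√t) w₀) (lO (√t) w₀) σ s) = Hs at *
  obtain ⟨w, hw⟩ : ∃ w, w = u - U := ⟨_, rfl⟩
  obtain ⟨dw, hdw⟩ : ∃ dw : Fin 3 → V3, dw = fun k => dv k - DU k := ⟨_, rfl⟩
  have hdww : ∀ k, IsWeakDeriv k w (dw k) := by
    intro k
    rw [hw, hdw]
    exact (hdv k).sub (hDU k)
  have hwdiv : IsDivFree w := by
    rw [hw]
    exact isDivFree_sub hu hdvs
  obtain ⟨co1, co2, co3, co4, co5, co6⟩ := hco (√t) w₀ w dw hr0 hr1 hdww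
  generalize hbg : bO (√t) w₀ = b at *
  generalize hlg' : lO (√t) w₀ = lam at *
  generalize hrg : √t = r at *
  obtain ⟨D, hD⟩ : ∃ D, D = √(∑ k, ‖dw k‖ ^ 2) := ⟨_, rfl⟩
  have hD0 : 0 ≤ D := hD ▸ Real.sqrt_nonneg _
  have hD2 : D ^ 2 = ∑ k, ‖dw k‖ ^ 2 := by
    rw [hD]
    exact Real.sq_sqrt (Finset.sum_nonneg fun k _ => sq_nonneg _)
  obtain ⟨V, hV⟩ : ∃ V, V = √(∑ k, ‖dv k‖ ^ 2) := ⟨_, rfl⟩
  have hV0 : 0 ≤ V := hV ▸ Real.sqrt_nonneg _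
  have hV2 : V ^ 2 = ∑ k, ‖dv k‖ ^ 2 := by
    rw [hV]
    exact Real.sq_sqrt (Finset.sum_nonneg fun k _ => sq_nonneg _)
  obtain ⟨δ₁, hδ₁⟩ : ∃ x, x = ‖cvO (et0 r) (w - w₀)‖ := ⟨_, rfl⟩
  have hδ₁0 : 0 ≤ δ₁ := hδ₁ ▸ norm_nonneg _
  obtain ⟨δ₂, hδ₂⟩ : ∃ x, x = √(∑ i, ‖cvO (pd i (et0 r)) (w - w₀)‖ ^ 2) := ⟨_, rfl⟩
  have hδ₂0 : 0 ≤ δ₂ := hδ₂ ▸ Real.sqrt_nonneg _
  have hδ₂2 : δ₂ ^ 2 = ∑ i, ‖cvO (pd i (et0 r)) (w - w₀)‖ ^ 2 := by
    rw [hδ₂]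
    exact Real.sq_sqrt (Finset.sum_nonneg fun k _ => sq_nonneg _)
  rw [← hD, ← hδ₁] at co4 co5
  rw [← hD, ← hδ₂] at co6
  have ha0 : 0 ≤ a := (norm_nonneg _).trans (hsup.2 0 0)
  have ha1 : Cs * (1 + 2 * Cc) * a ≤ 1 / 32 := by
    have h1 : a ≤ 1 / (32 * (Cs * (1 + 2 * Cc))) := ha.trans (min_le_left _ _)
    calc Cs * (1 + 2 * Cc) * a ≤ Cs * (1 + 2 * Cc) * (1 / (32 * (Cs * (1 + 2 * Cc)))) :=
          mul_le_mul_of_nonneg_left h1 hC₁p.le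
      _ = 1 / 32 := by field_simp
  have ha2 : Cc * a ≤ 1 / 160 := by
    have h1 : a ≤ 1 / (160 * Cc) := ha.trans (min_le_right _ _)
    calc Cc * a ≤ Cc * (1 / (160 * Cc)) := mul_le_mul_of_nonneg_left h1 hCc.le
      _ = 1 / 160 := by field_simp
  have hFg : ∀ k j, Fb N N N (σ.g k j) := fun k j =>
    ⟨hnc.1 k j, hsupN.1 k j, hsup1N.1 k j, hnrN.gs k j⟩
  have hFh : ∀ k, Fb N N N (σ.h k) := fun k =>
    ⟨hnc.2 k, hsupN.2 k, hsup1N.2 k, hnrN.hs k⟩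
  -- sup bounds
  have hB2 : Bd (U - Hp R σ) (Cm * √(√s) + L) := by
    have h1 : U - Hp R σ = (Hs - Hp R σ) + ls := by
      rw [hUeq]
      abel
    rw [h1]
    exact bd_add hm2 hl
  have hB1 : Bd (Hp R σ) (M + (Cm * √(√s) + L)) := by
    have h1 : Hp R σ = U + -(U - Hp R σ) := by abel
    rw [h1]
    refine bd_add hU ?_
    unfold Bd at *
    filter_upwards [hB2, Lp.coeFn_neg (U - Hp R σ)] with x g1 g2
    rw [g2, Pi.neg_apply, norm_neg]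
    exact g1
  have hspl := split (R := R) (b := b) (lam := lam) (σ := σ) (η := η) (s := s) hη (U := U)
    (w := w) (dw := dw) (htb R hR _ _ _ _ b lam σ w dw hcoef hcol hnc hwdiv hdww) hB1 hB2
  -- the five terms
  have t1 := cs_sup dw (b := fun k => tens k w (Hp R σ) - TBs R b σ k)
    (x := Cs * (1 + 2 * Cc) * a * (D + N * δ₁)) (by positivity) (by
      intro k
      have h1 := hstr R hR k σ b a (a / r) w dw hnc hsup hsup1 co1 hcol.mb co2 hdww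
      rw [← hD] at h1
      refine h1.trans ?_
      have h2 : a / r * ‖w - vL b‖ ≤ a * (Cc * (D + N * δ₁)) := by
        calc a / r * ‖w - vL b‖ ≤ a / r * (Cc * (r * D + δ₁)) :=
              mul_le_mul_of_nonneg_left co4 (by positivity)
          _ = a * (Cc * (D + 1 / r * δ₁)) := by field_simp
          _ ≤ a * (Cc * (D + N * δ₁)) := by gcongr
      have h3 : a * √(∑ k, ‖vL (pd k b)‖ ^ 2) ≤ a * (Cc * (D + N * δ₁)) := by
        refine mul_le_mul_of_nonneg_left (co5.trans ?_) ha0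
        have h4 : δ₁ / r ≤ N * δ₁ := by
          rw [div_eq_mul_one_div, mul_comm]
          exact mul_le_mul_of_nonneg_right hrN hδ₁0
        gcongr
      have h4 : a * D ≤ a * (D + N * δ₁) := mul_le_mul_of_nonneg_left
        (le_add_of_nonneg_right (by positivity)) ha0
      calc Cs * (a * D + a / r * ‖w - vL b‖ + a * √(∑ k, ‖vL (pd k b)‖ ^ 2))
          ≤ Cs * (a * (D + N * δ₁) + a * (Cc * (D + N * δ₁)) + a * (Cc * (D + N * δ₁))) := by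
            gcongr
        _ = Cs * (1 + 2 * Cc) * a * (D + N * δ₁) := by ring)
  have t2 := cs_tens dw w (f := U - Hp R σ) (A := Cm * √(√s) + L) (by positivity) hB2
  have t3 := cs_sup dw (b := fun k => (∑ j, To R j (cvO (hk s) (vL (dJst s b lam (σ.g k j))) +
        (vL (fun x => lam x • σ.g k j x) + vL (bg b (σ.g k j))))) +
        (cvO (hk s) (vL (dJst s b lam (σ.h k))) +
          (vL (fun x => lam x • σ.h k x) + vL (bg b (σ.h k)))))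
    (x := 5 * (Cd * √s)) (by positivity) (fun k => card_le hR
      (fun j => (hdam2 r d b lam _ hNr hcoef hcol (hFg k j) hd hS.dN s hs).2)
      (hdam2 r d b lam _ hNr hcoef hcol (hFh k) hd hS.dN s hs).2)
  have t4 := cs_sup dw (b := fun k => (∑ j, To R j (vL (fun x => lam x • σ.g k j x))) +
        vL (fun x => lam x • σ.h k x))
    (x := 5 * (a * nL lam)) (by
      have : 0 ≤ nL lam := ENNReal.toReal_nonneg
      positivity) (fun k => card_le hR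
      (fun j => (hdam1 a lam _ hcol.ml (hnc.1 k j).c2.continuous (hsup.1 k j)).2)
      (hdam1 a lam _ hcol.ml (hnc.2 k).c2.continuous (hsup.2 k)).2)
  have hE1 : √(∑ l, ‖DU l‖ ^ 2) ≤ V + D := by
    have h1 := sqrt_sum_le DU dv
    rw [hV, hD, hdw]
    exact h1
  have hE2 : √(∑ l, ‖DU l‖ ^ 2) ≤ 2 * Cm := by
    rw [Real.sqrt_le_left (by positivity)]
    have h1 : ∀ l, ‖DU l‖ ^ 2 ≤ Cm ^ 2 := by
      intro l
      rw [weak_unique (hDU l) (hm5 l).1]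
      exact pow_le_pow_left₀ (norm_nonneg _) (hm5 l).2 2
    have h2 : ∑ l, ‖DU l‖ ^ 2 ≤ ∑ _l : Fin 3, Cm ^ 2 := Finset.sum_le_sum fun l _ => h1 l
    simp only [Finset.sum_const, Finset.card_univ, Fintype.card_fin, nsmul_eq_mul] at h2
    push_cast at h2
    nlinarith [sq_nonneg Cm]
  have t5 := cs_sup dw (b := fun k => tens k U U -
      cvO (hk s) (cvO (hk η) (tens k (Hh R σ) (Hh R σ))))
    (x := Cr * √η * M * (V + D) + Cr * √s * M * (2 * Cm) + 2 * M * (Cm * √(√s)))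
    (by positivity) (by
      intro k
      refine (hsc M s η U (Hh R σ) DU k hs0 hη hU hU0 hDU).trans ?_
      have h1 : Cr * (√η + √s) * M * √(∑ l, ‖DU l‖ ^ 2) =
          Cr * √η * M * √(∑ l, ‖DU l‖ ^ 2) + Cr * √s * M * √(∑ l, ‖DU l‖ ^ 2) := by ring
      rw [h1]
      gcongr)
  rw [← hD] at t1 t2 t3 t4 t5
  have hWn : ‖w‖ ≤ N + Cm := by
    rw [hw]
    exact (norm_sub_le _ _).trans (add_le_add huN hm3)
  have hs1 : s ≤ 1 := by
    have h1 := hS.dN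
    have h2 : d ≤ 1 := by
      have : d * 1 ≤ d * N := mul_le_mul_of_nonneg_left hN hd.le
      linarith
    exact hs.2.trans h2
  have hqq : √s ≤ √(√s) := by
    apply Real.sqrt_le_sqrt
    apply Real.le_sqrt_of_sq_le
    nlinarith
  have hnum := num (N := N) (C₁ := Cs * (1 + 2 * Cc)) (Cc := Cc) (Cr := Cr) (Cd := Cd) (Cm := Cm)
    (a := a) (q := √(√s)) (q2 := √s) (e := √η) (M := M) (L := L) (D := D) (V := V) (δ₁ := δ₁)
    (δ₂ := δ₂) (W := ‖w‖) (n := nL lam) hN hCc hCr hCd hCm hM hMN hD0 hV0 hδ₁0 hδ₂0 ha0 ha1 ha2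
    (Real.sqrt_nonneg _) (by
      have h1 : 0 ≤ (8 * Cr ^ 2 + 1) * √η * M := by positivity
      linarith) (Real.sqrt_nonneg _) hqq hWn co6 ((le_abs_self _).trans t1)
    ((le_abs_self _).trans t2) ((le_abs_self _).trans t3) ((neg_le_abs _).trans t4)
    ((le_abs_self _).trans t5)
    (ρ := ref U u DU dv fun k => -tens k U U - Kf R η b lam σ s k) (by
      rw [← hspl]
      unfold ref
      rw [hD2, hw, hdw])
  refine hnum.trans ?_
  have k1 : (√η) ^ 2 = η := Real.sq_sqrt hη.le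
  have k2 : (√(√s)) ^ 2 = √s := Real.sq_sqrt (Real.sqrt_nonneg _)
  have k3 : 2 * (2 * Cr * M * √η * V) ^ 2 ≤ (32 * Cr + 8 * Cr ^ 2 + 1) * M ^ 2 * η *
      ∑ k, ‖dv k‖ ^ 2 := by
    rw [← hV2]
    have h1 : 2 * (2 * Cr * M * √η * V) ^ 2 = 8 * Cr ^ 2 * M ^ 2 * (√η) ^ 2 * V ^ 2 := by ring
    rw [h1, k1]
    have h2 : 0 ≤ (32 * Cr + 1) * M ^ 2 * η * V ^ 2 := by positivity
    linarith
  rw [← hw, ← hδ₁, ← hδ₂2]
  generalize hQ : (10 * Cd + 4 * Cr * N * Cm + 4 * N * Cm + Cm * (N + Cm)) = Q at *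
  have k4 : 2 * (N * δ₁) ^ 2 + 2 * δ₂ ^ 2 + 2 * (Q * √(√s)) ^ 2 ≤
      (2 * N ^ 2 + 2 + 2 * Q ^ 2) * (√s + δ₁ ^ 2 + δ₂ ^ 2) := by
    have h1 : (Q * √(√s)) ^ 2 = Q ^ 2 * √s := by rw [mul_pow, k2]
    rw [h1]
    have h2 : 0 ≤ √s := Real.sqrt_nonneg _
    have h3 : 0 ≤ 2 * N ^ 2 * √s := by positivity
    have h4 : 0 ≤ 2 * Q ^ 2 * δ₁ ^ 2 := by positivity
    have h5 : 0 ≤ 2 * Q ^ 2 * δ₂ ^ 2 := by positivity
    have h6 : 0 ≤ 2 * N ^ 2 * δ₂ ^ 2 := by positivity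
    have h7 : 0 ≤ 2 * δ₁ ^ 2 := by positivity
    linarith
  have k5 : 2 * (L * ‖w‖) ^ 2 = 2 * L ^ 2 * ‖w‖ ^ 2 := by ring
  linarith

end Pool.Agent.TF
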