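import Pool.Agent.TF.R.Sp
import Pool.Agent.TF.C.Tri2

/-!
# Row RD1: the smoothed source
-/

set_option autoImplicit false

namespace Pool.Agent.TF

open MeasureTheory Set Filter Topology Pool.Agent.TO Pool.Agent.TB Pool.Agent.TC Pool.Agent.TP
open scoped ENNReal NNReal Real InnerProductSpace SchwartzMap LineDeriv

namespace ScR

theorem bd_nn {f : V3} {A : ℝ} (h : Bd f A) : 0 ≤ A := by
  obtain ⟨x, hx⟩ := h.exists
  exact (norm_nonneg _).trans hx

/-- the product rule for a Schwartz field times a field with a weak derivative -/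
theorem prodS {k l : Fin 3} (ψ : 𝓢(E3, E3)) {U dU : V3} (hd : IsWeakDeriv l U dU) :
    IsWeakDeriv l (tens k (emb ψ) U) (tens k (emb (∂_{ee l} ψ)) U + tens k (emb ψ) dU) := by
  have h1 : ∀ i, IsWeakDeriv i (emb ψ) ((fun i => emb (∂_{ee i} ψ)) i) :=
    fun i => weak_schwartz ψ i
  have h2 : Bd ((fun i => emb (∂_{ee i} ψ)) l) (SchwartzMap.seminorm ℝ 0 0 (∂_{ee l} ψ)) :=
    bd_emb (∂_{ee l} ψ)
  exact weak_tensL (n := k) (l := l) (H := emb ψ) (G := U) (dG := dU)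
    (dH := fun i => emb (∂_{ee i} ψ)) h1 (bd_emb ψ) h2 hd

/-- tested form of the product rule -/
theorem prodT {k l : Fin 3} (ψ φ : 𝓢(E3, E3)) {U dU : V3} (hd : IsWeakDeriv l U dU) :
    ⟪emb (∂_{ee l} φ), tens k (emb ψ) U⟫_ℝ =
      -(⟪emb φ, tens k (emb (∂_{ee l} ψ)) U⟫_ℝ + ⟪tens k (emb ψ) (emb φ), dU⟫_ℝ) := by
  have h := weak_iff.1 (prodS (k := k) ψ hd) φ
  rw [inner_add_right, tens_left_symm k (bd_emb ψ) (emb φ) dU] at h
  exact h

/-- the product rule for a bounded field with square integrable gradient -/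
theorem prod {k l : Fin 3} {U : V3} {DU : Fin 3 → V3} {M : ℝ} (hU : Bd U M)
    (hd : ∀ l, IsWeakDeriv l U (DU l)) :
    IsWeakDeriv l (tens k U U) (tens k (DU l) U + tens k U (DU l)) := by
  obtain ⟨ψ, h1, h2⟩ := exists_seq_H1 hd
  rw [weak_iff]
  intro φ
  have l1 : Tendsto (fun m => ⟪emb (∂_{ee l} φ), tens k (emb (ψ m)) U⟫_ℝ) atTop
      (𝓝 ⟪emb (∂_{ee l} φ), tens k U U⟫_ℝ) :=
    tendsto_const_nhds.inner (tendsto_tensR (n := k) h1 hU)
  have l2 : Tendsto (fun m => -(⟪emb φ, tens k (emb (∂_{ee l} (ψ m))) U⟫_ℝ +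
      ⟪tens k (emb (ψ m)) (emb φ), DU l⟫_ℝ)) atTop
      (𝓝 (-(⟪emb φ, tens k (DU l) U⟫_ℝ + ⟪tens k U (emb φ), DU l⟫_ℝ))) :=
    ((tendsto_const_nhds.inner (tendsto_tensR (n := k) (h2 l) hU)).add
      ((tendsto_tensR (n := k) h1 (bd_emb φ)).inner tendsto_const_nhds)).neg
  have h3 := tendsto_nhds_unique l1
    (l2.congr fun m => (prodT (k := k) (ψ m) φ (hd l)).symm)
  rw [h3, inner_add_right, tens_left_symm k hU (emb φ) (DU l)]

theorem grad_le {k : Fin 3} {U : V3} {DU : Fin 3 → V3} {M : ℝ} (hU : Bd U M) :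
    √(∑ l, ‖tens k (DU l) U + tens k U (DU l)‖ ^ 2) ≤ 2 * M * √(∑ l, ‖DU l‖ ^ 2) := by
  have hM := bd_nn hU
  have h1 : ∑ l, ‖tens k (DU l) U + tens k U (DU l)‖ ^ 2 ≤ (2 * M) ^ 2 * ∑ l, ‖DU l‖ ^ 2 := by
    rw [Finset.mul_sum]
    refine Finset.sum_le_sum fun l _ => ?_
    have h2 : ‖tens k (DU l) U + tens k U (DU l)‖ ≤ 2 * M * ‖DU l‖ := by
      refine (norm_add_le _ _).trans ?_
      have h3 := norm_tens_right_le k (DU l) hU
      have h4 := tens_left_le k hU (DU l)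
      linarith
    calc ‖tens k (DU l) U + tens k U (DU l)‖ ^ 2 ≤ (2 * M * ‖DU l‖) ^ 2 :=
          pow_le_pow_left₀ (norm_nonneg _) h2 2
      _ = (2 * M) ^ 2 * ‖DU l‖ ^ 2 := by ring
  refine (Real.sqrt_le_sqrt h1).trans (le_of_eq ?_)
  rw [Real.sqrt_mul (sq_nonneg _), Real.sqrt_sq (by positivity)]

end ScR

theorem sc_ok (h2 : SpHt) : SpSc := by
  obtain ⟨C, hC, -, hle, hdiff, -, -⟩ := h2
  refine ⟨2 * C, by positivity, ?_⟩
  intro M s η U U₀ DU k hs hη hU hU₀ hd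
  have hM := ScR.bd_nn hU
  set F := tens k U U with hF
  set F₀ := tens k U₀ U₀ with hF₀
  have key : ∀ r > 0, ‖F - cvO (hk r) F‖ ≤ 2 * C * √r * M * √(∑ l, ‖DU l‖ ^ 2) := by
    intro r hr
    have h1 := hdiff r hr F (fun l => tens k (DU l) U + tens k U (DU l))
      (fun l => ScR.prod hU hd)
    rw [norm_sub_rev]
    refine h1.trans ?_
    have h3 := ScR.grad_le (k := k) (DU := DU) hU
    calc C * √r * √(∑ l, ‖tens k (DU l) U + tens k U (DU l)‖ ^ 2)
        ≤ C * √r * (2 * M * √(∑ l, ‖DU l‖ ^ 2)) :=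
          mul_le_mul_of_nonneg_left h3 (by positivity)
      _ = 2 * C * √r * M * √(∑ l, ‖DU l‖ ^ 2) := by ring
  have hFF : ‖F - F₀‖ ≤ 2 * M * ‖U - U₀‖ := by
    have h1 : F - F₀ = tens k (U - U₀) U + tens k U₀ (U - U₀) := by
      have h3 : tens k (U - U₀) U = F - tens k U₀ U := tens_sub_left k U U₀ hU
      have h4 : tens k U₀ (U - U₀) = tens k U₀ U - F₀ := by
        have h5 := tens_add_right k U₀ (f := U - U₀) (g := U₀) (A := M + M) (B := M) ?_ hU₀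
        · rw [sub_add_cancel] at h5
          rw [h5, add_sub_cancel_right]
        · filter_upwards [Lp.coeFn_sub U U₀, hU, hU₀] with x h6 h7 h8
          rw [h6, Pi.sub_apply]
          exact (norm_sub_le _ _).trans (add_le_add h7 h8)
      rw [h3, h4]
      abel
    rw [h1]
    refine (norm_add_le _ _).trans ?_
    have h3 := norm_tens_right_le k (U - U₀) hU
    have h4 := tens_left_le k hU₀ (U - U₀)
    linarith
  have hdec : F - cvO (hk s) (cvO (hk η) F₀) = (F - cvO (hk s) F) +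
      cvO (hk s) (F - cvO (hk η) F) + cvO (hk s) (cvO (hk η) (F - F₀)) := by
    rw [map_sub, map_sub, map_sub]
    abel
  rw [hdec]
  refine (norm_add₃_le).trans ?_
  have h1 := key s hs
  have h3 := (hle s hs (F - cvO (hk η) F)).trans (key η hη)
  have h4 := ((hle s hs _).trans (hle η hη (F - F₀))).trans hFF
  calc ‖F - cvO (hk s) F‖ + ‖cvO (hk s) (F - cvO (hk η) F)‖ +
        ‖cvO (hk s) (cvO (hk η) (F - F₀))‖
      ≤ 2 * C * √s * M * √(∑ l, ‖DU l‖ ^ 2) + 2 * C * √η * M * √(∑ l, ‖DU l‖ ^ 2) +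
        2 * M * ‖U - U₀‖ := add_le_add (add_le_add h1 h3) h4
    _ = 2 * C * (√η + √s) * M * √(∑ l, ‖DU l‖ ^ 2) + 2 * M * ‖U - U₀‖ := by ring

end Pool.Agent.TF
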