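import Pool.Agent.TF.R.Sp
import Pool.Agent.TF.E.NcC
import Pool.Agent.TF.E.JL2
import Pool.Agent.TF.E.Jb

/-!
# Project TF, block R, row RB2: the stress minus the transport of a state (helper17)
-/

set_option autoImplicit false

namespace Pool.Agent.TF

open MeasureTheory Set Filter Topology Pool.Agent.TO Pool.Agent.TB Pool.Agent.TC Pool.Agent.TP
open scoped ENNReal NNReal Real InnerProductSpace SchwartzMap LineDeriv

namespace StrR

/-- one component of a field, in a given direction -/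
noncomputable def cmpt (l m : Fin 3) (f : E3 → E3) (x : E3) : E3 := (f x) l • ee m

theorem cmpt_eq (l m : Fin 3) (f : E3 → E3) : cmpt l m f = fun x => MM l m (f x) := by
  funext x
  rw [MM_apply]
  rfl

theorem norm_cmpt_le (l m : Fin 3) (f : E3 → E3) (x : E3) : ‖cmpt l m f x‖ ≤ ‖f x‖ := by
  unfold cmpt
  rw [norm_smul, ee_norm, mul_one]
  exact PiLp.norm_apply_le (f x) l

theorem pd_cmpt {f : E3 → E3} (hf : Differentiable ℝ f) (l m k : Fin 3) :
    pd k (cmpt l m f) = cmpt l m (pd k f) := by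
  funext x
  have h : HasFDerivAt (fun x => MM l m (f x)) ((MM l m).comp (fderiv ℝ f x)) x :=
    (MM l m).hasFDerivAt.comp x (hf x).hasFDerivAt
  rw [cmpt_eq, cmpt_eq]
  unfold pd
  rw [h.fderiv]
  rfl

theorem memLp_cmpt {f : E3 → E3} (hf : MemLp f 2 (volume : Measure E3)) (l m : Fin 3) :
    MemLp (cmpt l m f) 2 (volume : Measure E3) := by
  rw [cmpt_eq]
  exact (MM l m).comp_memLp' hf

theorem nc_cmpt {f : E3 → E3} (hf : Nc f) (l m : Fin 3) : Nc (cmpt l m f) := by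
  have d0 : Differentiable ℝ f := hf.c2.differentiable (by norm_num)
  have d1 : ∀ i, Differentiable ℝ (pd i f) := fun i => (hf.pc i).differentiable (by norm_num)
  have e1 : ∀ i, pd i (cmpt l m f) = cmpt l m (pd i f) := fun i => pd_cmpt d0 l m i
  have e2 : ∀ i j, pd i (pd j (cmpt l m f)) = cmpt l m (pd i (pd j f)) := by
    intro i j
    rw [e1, pd_cmpt (d1 j)]
  obtain ⟨C0, h0⟩ := hf.b0
  obtain ⟨C1, h1⟩ := hf.b1
  obtain ⟨C2, h2⟩ := hf.b2
  refine ⟨?_, ⟨C0, fun x => (norm_cmpt_le l m f x).trans (h0 x)⟩,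
    ⟨C1, fun i x => ?_⟩, ⟨C2, fun i j x => ?_⟩, memLp_cmpt hf.m0 l m, fun i => ?_, fun i j => ?_⟩
  · rw [cmpt_eq]
    exact (MM l m).contDiff.comp hf.c2
  · rw [e1]
    exact (norm_cmpt_le l m _ x).trans (h1 i x)
  · rw [e2]
    exact (norm_cmpt_le l m _ x).trans (h2 i j x)
  · rw [e1]
    exact memLp_cmpt (hf.m1 i) l m
  · rw [e2]
    exact memLp_cmpt (hf.m2 i j) l m

theorem fb_cmpt {F₀ F₁ F₂ : ℝ} {f : E3 → E3} (hf : Fb F₀ F₁ F₂ f) (l m : Fin 3) :
    Fb F₀ F₁ F₂ (cmpt l m f) := by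
  have d0 : Differentiable ℝ f := hf.nc.c2.differentiable (by norm_num)
  have d1 : ∀ i, Differentiable ℝ (pd i f) := fun i => (hf.nc.pc i).differentiable (by norm_num)
  refine ⟨nc_cmpt hf.nc l m, fun x => (norm_cmpt_le l m f x).trans (hf.f0 x), fun i x => ?_,
    fun i j x => ?_⟩
  · rw [pd_cmpt d0]
    exact (norm_cmpt_le l m _ x).trans (hf.f1 i x)
  · rw [pd_cmpt d0, pd_cmpt (d1 j)]
    exact (norm_cmpt_le l m _ x).trans (hf.f2 i j x)

theorem PM_vL {f : E3 → E3} (hf : MemLp f 2 (volume : Measure E3)) (l m : Fin 3) :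
    PM l m (vL f) = vL (cmpt l m f) := by
  apply Lp.ext
  filter_upwards [coe_PM l m (vL f), vL_coe hf, vL_coe (memLp_cmpt hf l m)] with x h1 h2 h3
  rw [h1, h2, h3]
  rfl

/-- the product of a component of `b` with a nice field -/
theorem prod {f b : E3 → E3} (hf : Nc f) (hb : ContDiff ℝ 1 b)
    (mb : MemLp b 2 (volume : Measure E3)) (i k : Fin 3)
    (mk : MemLp (pd k b) 2 (volume : Measure E3)) :
    Differentiable ℝ (fun x => (b x) i • f x) ∧
      MemLp (pd k fun x => (b x) i • f x) 2 (volume : Measure E3) := by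
  have d0 : Differentiable ℝ f := hf.c2.differentiable (by norm_num)
  have db : Differentiable ℝ b := hb.differentiable (by norm_num)
  have hbi : ∀ x, HasFDerivAt (fun x => (b x) i)
      ((EuclideanSpace.proj (𝕜 := ℝ) i : E3 →L[ℝ] ℝ).comp (fderiv ℝ b x)) x := fun x =>
    (EuclideanSpace.proj (𝕜 := ℝ) i : E3 →L[ℝ] ℝ).hasFDerivAt.comp x (db x).hasFDerivAt
  have dbi : Differentiable ℝ fun x => (b x) i := fun x => (hbi x).differentiableAt
  refine ⟨dbi.smul d0, ?_⟩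
  have e : (pd k fun x => (b x) i • f x) = fun x => (b x) i • pd k f x + (pd k b x) i • f x := by
    funext x
    rw [jb_smul (dbi x) (d0 x) k]
    congr 2
    unfold pd
    rw [(hbi x).fderiv]
    rfl
  rw [e]
  obtain ⟨C0, h0⟩ := hf.b0
  obtain ⟨C1, h1⟩ := hf.b1
  have key : ∀ {g h : E3 → E3} {C : ℝ}, Continuous g → Continuous h →
      MemLp g 2 (volume : Measure E3) → (∀ x, ‖h x‖ ≤ C) →
      MemLp (fun x => (g x) i • h x) 2 (volume : Measure E3) := by
    intro g h C hg hh mg hC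
    have c : Continuous fun x => (g x) i :=
      (EuclideanSpace.proj (𝕜 := ℝ) i : E3 →L[ℝ] ℝ).continuous.comp hg
    refine mg.of_le_mul (c := C) (c.smul hh).aestronglyMeasurable (Eventually.of_forall fun x => ?_)
    rw [norm_smul, mul_comm]
    exact mul_le_mul (hC x) (PiLp.norm_apply_le (g x) i) (norm_nonneg _)
      ((norm_nonneg _).trans (hC x))
  have ck : Continuous (pd k b) := (contDiff_pd_nat (n := 0) (by exact_mod_cast hb) k).continuous
  exact (key hb.continuous (hf.pc k).continuous mb (h1 k)).add (key ck hf.cont mk h0)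

/-- finite sums in the right variable -/
theorem tens_sum {ι : Type*} (i : Fin 3) (w : V3) (s : Finset ι) (F : ι → V3)
    (hF : ∀ j, ∃ A, Bd (F j) A) : tens i w (∑ j ∈ s, F j) = ∑ j ∈ s, tens i w (F j) ∧
      ∃ A, Bd (∑ j ∈ s, F j) A := by
  classical
  have z : Bd (0 : V3) 0 := by
    unfold Bd
    filter_upwards [Lp.coeFn_zero E3 2 (volume : Measure E3)] with x hx
    rw [hx]
    simp
  induction s using Finset.induction_on with
  | empty =>
    simp only [Finset.sum_empty]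
    refine ⟨?_, 0, z⟩
    apply Lp.ext
    filter_upwards [coe_tens_right i w z, Lp.coeFn_zero E3 2 (volume : Measure E3)] with x h1 h2
    rw [h1, h2]
    simp
  | insert j s hj ih =>
    obtain ⟨A, hA⟩ := hF j
    obtain ⟨ih1, B, hB⟩ := ih
    rw [Finset.sum_insert hj, Finset.sum_insert hj, tens_add_right i w hA hB, ih1]
    exact ⟨rfl, _, bd_add hA hB⟩

theorem nsum {ι : Type*} [Fintype ι] (F : ι → V3) (c : ℝ) (h : ∀ i, ‖F i‖ ≤ c) :
    ‖∑ i, F i‖ ≤ Fintype.card ι * c := by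
  refine (norm_sum_le _ _).trans ?_
  refine (Finset.sum_le_sum fun i _ => h i).trans (le_of_eq ?_)
  rw [Finset.sum_const, Finset.card_univ, nsmul_eq_mul]

/-- the bound of one operator -/
def KT (C : ℝ) (T : V3 →L[ℝ] V3) : Prop := ∀ (i k : Fin 3) (f b : E3 → E3)
  (a a' F₂ : ℝ) (w : V3) (dw : Fin 3 → V3), Fb a a' F₂ f → ContDiff ℝ 1 b →
  MemLp b 2 (volume : Measure E3) → MemLp (pd k b) 2 (volume : Measure E3) →
  (∀ l, IsWeakDeriv l w (dw l)) →
  ‖tens i w (T (vL (pd k f))) - T (vL (pd k fun x => (b x) i • f x))‖ ≤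
    C * (a * √(∑ l, ‖dw l‖ ^ 2) + a' * ‖w - vL b‖ + a * ‖vL (pd k b)‖)

/-- boundedness of one operator on derivatives of nice functions -/
def BT (T : V3 →L[ℝ] V3) : Prop := ∀ (k : Fin 3) (f : E3 → E3), Nc f →
  ∃ A, Bd (T (vL (pd k f))) A

theorem KT.mono {C C' : ℝ} {T : V3 →L[ℝ] V3} (h : KT C T) (hC : C ≤ C') : KT C' T := by
  intro i k f b a a' F₂ w dw hf hb mb mk hw
  have ha : 0 ≤ a := (norm_nonneg _).trans (hf.f0 0)
  have ha' : 0 ≤ a' := (norm_nonneg _).trans (hf.f1 0 0)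
  refine (h i k f b a a' F₂ w dw hf hb mb mk hw).trans (mul_le_mul_of_nonneg_right hC ?_)
  positivity

theorem keys (hk : SpKey) (hw : StWord) : ∃ CK > 0, ∀ R, RZ R →
    (KT CK (ContinuousLinearMap.id ℝ V3) ∧ BT (ContinuousLinearMap.id ℝ V3)) ∧
    (∀ j, KT CK (R j) ∧ BT (R j)) ∧
    ∀ i l, KT CK ((R i).comp (R l)) ∧ BT ((R i).comp (R l)) := by
  have hB : ∀ (W : List (Fin 3)) R, RZ R → BT (Wd R W) := by
    intro W R hR k f hf
    obtain ⟨C, hC, h⟩ := hw W
    obtain ⟨A, hA⟩ := hf.b0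
    obtain ⟨B, hB⟩ := hf.b2
    exact ⟨_, h R hR k f A B hf hA hB 1 one_pos⟩
  obtain ⟨C0, hC0, h0⟩ := hk []
  have h1 : ∀ j : Fin 3, ∃ C > 0, ∀ R, RZ R → KT C (R j) := by
    intro j
    obtain ⟨C, hC, h⟩ := hk [j]
    exact ⟨C, hC, fun R hR => h R hR⟩
  have h2 : ∀ p : Fin 3 × Fin 3, ∃ C > 0, ∀ R, RZ R → KT C ((R p.1).comp (R p.2)) := by
    intro p
    obtain ⟨C, hC, h⟩ := hk [p.1, p.2]
    exact ⟨C, hC, fun R hR => h R hR⟩
  choose C1 hC1 h1 using h1
  choose C2 hC2 h2 using h2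
  have s1 : ∀ j, C1 j ≤ ∑ j, C1 j := fun j =>
    Finset.single_le_sum (f := C1) (fun j _ => (hC1 j).le) (Finset.mem_univ j)
  have s2 : ∀ p, C2 p ≤ ∑ p, C2 p := fun p =>
    Finset.single_le_sum (f := C2) (fun p _ => (hC2 p).le) (Finset.mem_univ p)
  have p1 : 0 ≤ ∑ j, C1 j := Finset.sum_nonneg fun j _ => (hC1 j).le
  have p2 : 0 ≤ ∑ p, C2 p := Finset.sum_nonneg fun p _ => (hC2 p).le
  refine ⟨C0 + ∑ j, C1 j + ∑ p, C2 p, by positivity, fun R hR =>
    ⟨⟨?_, hB [] R hR⟩, fun j => ⟨?_, hB [j] R hR⟩, fun i l => ⟨?_, hB [i, l] R hR⟩⟩⟩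
  · have : KT C0 (ContinuousLinearMap.id ℝ V3) := h0 R hR
    exact this.mono (by linarith)
  · exact (h1 j R hR).mono (by linarith [s1 j])
  · exact (h2 (i, l) R hR).mono (by linarith [s2 (i, l)])

end StrR

open StrR in
/-- Row RB2 -/
theorem str_ok (hk : SpKey) (hw : StWord) : SpStr := by
  obtain ⟨CK, hCK, hK⟩ := keys hk hw
  refine ⟨42 * CK, by positivity, ?_⟩
  intro R hR i σ b a a' w dw hn hs hs1 hb mb mk hdw
  obtain ⟨⟨k0, b0⟩, k1, k2⟩ := hK R hR
  have ha : 0 ≤ a := (norm_nonneg _).trans (hs.2 0 0)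
  have ha' : 0 ≤ a' := (norm_nonneg _).trans (hs1.2 0 0 0)
  set E : ℝ := a * √(∑ l, ‖dw l‖ ^ 2) + a' * ‖w - vL b‖ + a * √(∑ k, ‖vL (pd k b)‖ ^ 2) with hE
  have hE0 : 0 ≤ E := by positivity
  -- the bound of one term
  have one : ∀ (T : V3 →L[ℝ] V3), KT CK T → ∀ (k : Fin 3) (f : E3 → E3) (F₂ : ℝ), Fb a a' F₂ f →
      ‖tens i w (T (vL (pd k f))) - T (vL (pd k fun x => (b x) i • f x))‖ ≤ CK * E := by
    intro T hT k f F₂ hf
    refine (hT i k f b a a' F₂ w dw hf hb mb (mk k) hdw).trans ?_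
    refine mul_le_mul_of_nonneg_left ?_ hCK.le
    have h1 : ‖vL (pd k b)‖ ≤ √(∑ k, ‖vL (pd k b)‖ ^ 2) := by
      refine Real.le_sqrt_of_sq_le ?_
      exact Finset.single_le_sum (f := fun k => ‖vL (pd k b)‖ ^ 2) (fun k _ => sq_nonneg _)
        (Finset.mem_univ k)
    rw [hE]
    gcongr
  have fg : ∀ k j, ∃ F₂, Fb a a' F₂ (σ.g k j) := by
    intro k j
    obtain ⟨C, hC⟩ := (hn.1 k j).b2
    exact ⟨C, hn.1 k j, hs.1 k j, hs1.1 k j, hC⟩
  have fh : ∀ k, ∃ F₂, Fb a a' F₂ (σ.h k) := by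
    intro k
    obtain ⟨C, hC⟩ := (hn.2 k).b2
    exact ⟨C, hn.2 k, hs.2 k, hs1.2 k, hC⟩
  -- the operators `T_j`
  have kT : ∀ j, KT CK (To R j) ∧ BT (To R j) := by
    intro j
    cases j with
    | none => exact ⟨k0, b0⟩
    | some j => exact k1 j
  -- the coordinates
  have c1 : ∀ l m k, PM l m (vL (pd k (σ.h k))) = vL (pd k (cmpt l m (σ.h k))) := by
    intro l m k
    rw [PM_vL ((hn.2 k).m1 k), pd_cmpt ((hn.2 k).c2.differentiable (by norm_num))]
  have c2 : ∀ l m k, PM l m (vL (pd k fun x => (b x) i • σ.h k x)) =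
      vL (pd k fun x => (b x) i • cmpt l m (σ.h k) x) := by
    intro l m k
    obtain ⟨p1, p2⟩ := prod (hn.2 k) hb mb i k (mk k)
    rw [PM_vL p2, ← pd_cmpt p1]
    congr 2
    funext x
    unfold cmpt
    rw [PiLp.smul_apply, smul_eq_mul, mul_smul]
  -- the sums
  have t1 := tens_sum i w Finset.univ (fun k => ∑ j, To R j (vL (pd k (σ.g k j)))) fun k =>
    (tens_sum i w Finset.univ (fun j => To R j (vL (pd k (σ.g k j)))) fun j =>
      (kT j).2 k _ (hn.1 k j)).2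
  have t1' : ∀ k, tens i w (∑ j, To R j (vL (pd k (σ.g k j)))) =
      ∑ j, tens i w (To R j (vL (pd k (σ.g k j)))) := fun k =>
    (tens_sum i w Finset.univ (fun j => To R j (vL (pd k (σ.g k j)))) fun j =>
      (kT j).2 k _ (hn.1 k j)).1
  have t2 := tens_sum i w Finset.univ (fun k => vL (pd k (σ.h k))) fun k => b0 k _ (hn.2 k)
  have e3 : ∀ m l, R m (R l (PM l m (∑ k, vL (pd k (σ.h k))))) =
      ∑ k, ((R m).comp (R l)) (vL (pd k (cmpt l m (σ.h k)))) := by
    intro m l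
    rw [map_sum, map_sum, map_sum]
    exact Finset.sum_congr rfl fun k _ => by rw [c1]; rfl
  have e3' : ∀ m l, R m (R l (PM l m (∑ k, vL (pd k fun x => (b x) i • σ.h k x)))) =
      ∑ k, ((R m).comp (R l)) (vL (pd k fun x => (b x) i • cmpt l m (σ.h k) x)) := by
    intro m l
    rw [map_sum, map_sum, map_sum]
    exact Finset.sum_congr rfl fun k _ => by rw [c2]; rfl
  have t3 : ∀ m l, tens i w (∑ k, ((R m).comp (R l)) (vL (pd k (cmpt l m (σ.h k))))) =
      ∑ k, tens i w (((R m).comp (R l)) (vL (pd k (cmpt l m (σ.h k))))) ∧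
      ∃ A, Bd (∑ k, ((R m).comp (R l)) (vL (pd k (cmpt l m (σ.h k))))) A := fun m l =>
    tens_sum i w Finset.univ _ fun k => (k2 m l).2 k _ (nc_cmpt (hn.2 k) l m)
  have t4 := fun m => tens_sum i w Finset.univ
    (fun l => ∑ k, ((R m).comp (R l)) (vL (pd k (cmpt l m (σ.h k))))) fun l => (t3 m l).2
  have t5 := tens_sum i w Finset.univ
    (fun m => ∑ l, ∑ k, ((R m).comp (R l)) (vL (pd k (cmpt l m (σ.h k))))) fun m => (t4 m).2
  obtain ⟨t1a, A1, t1b⟩ := t1
  obtain ⟨t2a, A2, t2b⟩ := t2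
  obtain ⟨t5a, A5, t5b⟩ := t5
  have eH : tens i w (Hp R σ) - TBs R b σ i =
      (∑ k, ∑ j, (tens i w (To R j (vL (pd k (σ.g k j)))) -
        To R j (vL (pd k fun x => (b x) i • σ.g k j x)))) +
      ((∑ k, (tens i w (vL (pd k (σ.h k))) - vL (pd k fun x => (b x) i • σ.h k x))) +
      ∑ m, ∑ l, ∑ k, (tens i w (((R m).comp (R l)) (vL (pd k (cmpt l m (σ.h k))))) -
        ((R m).comp (R l)) (vL (pd k fun x => (b x) i • cmpt l m (σ.h k) x)))) := by
    unfold Hp TBs LP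
    simp only [e3, e3']
    rw [tens_add_right i w t1b (bd_add t2b t5b), tens_add_right i w t2b t5b, t1a, t2a, t5a]
    simp only [t1', (t4 _).1, (t3 _ _).1, Finset.sum_sub_distrib]
    abel
  rw [eH]
  have n1 : ‖∑ k, ∑ j, (tens i w (To R j (vL (pd k (σ.g k j)))) -
        To R j (vL (pd k fun x => (b x) i • σ.g k j x)))‖ ≤ 12 * (CK * E) := by
    have h1 := nsum _ _ fun k => nsum _ _ fun j => (fg k j).elim fun F₂ hF =>
      one _ (kT j).1 k _ F₂ hF
    refine h1.trans (le_of_eq ?_)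
    simp only [Fintype.card_fin, Fintype.card_option]
    push_cast
    ring
  have n2 : ‖∑ k, (tens i w (vL (pd k (σ.h k))) - vL (pd k fun x => (b x) i • σ.h k x))‖ ≤
      3 * (CK * E) := by
    have h1 := nsum _ _ fun k => (fh k).elim fun F₂ hF => one _ k0 k _ F₂ hF
    refine LE.le.trans h1 (le_of_eq ?_)
    simp only [Fintype.card_fin]
    push_cast
    ring
  have n3 : ‖∑ m, ∑ l, ∑ k, (tens i w (((R m).comp (R l)) (vL (pd k (cmpt l m (σ.h k))))) -
        ((R m).comp (R l)) (vL (pd k fun x => (b x) i • cmpt l m (σ.h k) x)))‖ ≤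
      27 * (CK * E) := by
    have h1 := nsum _ _ fun m => nsum _ _ fun l => nsum _ _ fun k => (fh k).elim fun F₂ hF =>
      one _ (k2 m l).1 k _ F₂ (fb_cmpt hF l m)
    refine h1.trans (le_of_eq ?_)
    simp only [Fintype.card_fin]
    push_cast
    ring
  refine (norm_add_le _ _).trans ?_
  have n4 := norm_add_le
    (∑ k, (tens i w (vL (pd k (σ.h k))) - vL (pd k fun x => (b x) i • σ.h k x)))
    (∑ m, ∑ l, ∑ k, (tens i w (((R m).comp (R l)) (vL (pd k (cmpt l m (σ.h k))))) -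
        ((R m).comp (R l)) (vL (pd k fun x => (b x) i • cmpt l m (σ.h k) x))))
  linarith

end Pool.Agent.TF
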