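import Pool.Agent.TF.R.Sp
import Pool.Agent.TF.E.JL2
import Pool.Agent.TF.E.NcC
import Pool.Agent.TP.Fin

/-!
# Block R: the transport terms in divergence form (row RB3)
-/

set_option autoImplicit false

namespace Pool.Agent.TF

open MeasureTheory Set Filter Topology Pool.Agent.TO Pool.Agent.TB Pool.Agent.TC Pool.Agent.TP
open scoped ENNReal NNReal Real InnerProductSpace SchwartzMap LineDeriv

/-- two weak derivatives may be exchanged in an inner product -/
theorem TbR_swap {w F : V3} {dw dF : Fin 3 → V3} (hw : ∀ k, IsWeakDeriv k w (dw k))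
    (hF : ∀ k, IsWeakDeriv k F (dF k)) (i k : Fin 3) : ⟪dw k, dF i⟫_ℝ = ⟪dw i, dF k⟫_ℝ := by
  obtain ⟨ψ, -, h2⟩ := exists_seq_H1 hw
  have l1 : Tendsto (fun n => ⟪emb (∂_{ee k} (ψ n)), dF i⟫_ℝ) atTop (𝓝 ⟪dw k, dF i⟫_ℝ) :=
    (h2 k).inner tendsto_const_nhds
  have l2 : Tendsto (fun n => ⟪emb (∂_{ee i} (ψ n)), dF k⟫_ℝ) atTop (𝓝 ⟪dw i, dF k⟫_ℝ) :=
    (h2 i).inner tendsto_const_nhds
  refine tendsto_nhds_unique l1 (l2.congr fun n => ?_)
  have h3 := weak_emb (hF i) (∂_{ee k} (ψ n))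
  have h4 := weak_emb (hF k) (∂_{ee i} (ψ n))
  rw [lineDeriv_comm (ψ n) i k] at h3
  linarith

variable {c r Λ B : ℝ} {b : E3 → E3} {lam : E3 → ℝ} {f : E3 → E3}

theorem TbR_comp_fderiv (hb : ContDiff ℝ 2 b) (i : Fin 3) (x : E3) :
    HasFDerivAt (fun x => (b x) i) ((EuclideanSpace.proj i : E3 →L[ℝ] ℝ).comp (fderiv ℝ b x)) x :=
  (EuclideanSpace.proj i : E3 →L[ℝ] ℝ).hasFDerivAt.comp x
    ((hb.differentiable (by norm_num) x).hasFDerivAt)

theorem TbR_pd (hb : ContDiff ℝ 2 b) (hf : ContDiff ℝ 1 f) (i k : Fin 3) :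
    pd k (fun x => (b x) i • f x) = fun x => (pd k b x) i • f x + (b x) i • pd k f x := by
  funext x
  have h1 := (TbR_comp_fderiv hb i x).smul (hf.differentiable (by norm_num) x).hasFDerivAt
  have h2 : fderiv ℝ (fun x => (b x) i • f x) x = _ := h1.fderiv
  unfold pd
  rw [h2]
  show (b x) i • fderiv ℝ f x (ee k) + ((fderiv ℝ b x (ee k)) i) • f x = _
  exact add_comm _ _

theorem TbR_cont_comp (hb : ContDiff ℝ 2 b) (i : Fin 3) : ContDiff ℝ 1 fun x => (b x) i :=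
  (EuclideanSpace.proj i : E3 →L[ℝ] ℝ).contDiff.comp (hb.of_le (by norm_num))

theorem TbR_cd (hb : ContDiff ℝ 2 b) (hf : ContDiff ℝ 1 f) (i : Fin 3) :
    ContDiff ℝ 1 fun x => (b x) i • f x :=
  (TbR_cont_comp hb i).smul hf

theorem TbR_m0 (hc : Coef c r Λ b lam) (hf : Nc f) (i : Fin 3) :
    MemLp (fun x => (b x) i • f x) 2 (volume : Measure E3) := by
  refine (norm_vL_mul_le hf.m0 (TbR_cont_comp hc.cb i).continuous.aestronglyMeasurable
    (K := Λ) fun x => ?_).1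
  have := PiLp.norm_apply_le (b x) i
  rw [Real.norm_eq_abs] at this
  exact this.trans (hc.bΛ x)

theorem TbR_m1 (hc : Coef c r Λ b lam) (hl : CoL B b lam) (hf : Nc f) (i k : Fin 3) :
    MemLp (pd k fun x => (b x) i • f x) 2 (volume : Measure E3) := by
  rw [TbR_pd hc.cb hf.c1]
  refine MemLp.add ?_ ?_
  · obtain ⟨C, hC⟩ := hf.b0
    have hC0 : 0 ≤ C := (norm_nonneg _).trans (hC 0)
    refine (hl.ml.const_mul (C / 8)).mono' ?_ (Eventually.of_forall fun x => ?_)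
    · have h1 : ContDiff ℝ ((1 + 1 : ℕ) : WithTop ℕ∞) b := by exact_mod_cast hc.cb
      have h2 : Continuous (pd k b) := (contDiff_pd_nat (n := 1) h1 k).continuous
      have h3 : Continuous fun x => (pd k b x) i :=
        (EuclideanSpace.proj i : E3 →L[ℝ] ℝ).continuous.comp h2
      exact (h3.smul hf.cont).aestronglyMeasurable
    · rw [norm_smul, Real.norm_eq_abs]
      have h1 := hc.pdb_comp k i x
      have h2 := hC x
      have h3 := hc.l0 x
      calc |pd k b x i| * ‖f x‖ ≤ (lam x / 8) * C := by gcongr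
        _ = _ := by ring
  · refine (norm_vL_mul_le (hf.m1 k) (TbR_cont_comp hc.cb i).continuous.aestronglyMeasurable
      (K := Λ) fun x => ?_).1
    have := PiLp.norm_apply_le (b x) i
    rw [Real.norm_eq_abs] at this
    exact this.trans (hc.bΛ x)

theorem TbR_bg (hc : Coef c r Λ b lam) (hf : Nc f) :
    bg b f = fun x => ∑ i, pd i (fun x => (b x) i • f x) x := by
  funext x
  have h1 : ∀ i : Fin 3, pd i (fun x => (b x) i • f x) x =
      (pd i b x) i • f x + (b x) i • pd i f x := fun i => congrFun (TbR_pd hc.cb hf.c1 i i) x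
  rw [Finset.sum_congr rfl fun i _ => h1 i, Finset.sum_add_distrib, ← Finset.sum_smul, hc.div x,
    zero_smul, zero_add]
  rfl

theorem TbR_vL_bg (hc : Coef c r Λ b lam) (hl : CoL B b lam) (hf : Nc f) :
    vL (bg b f) = ∑ i, vL (pd i fun x => (b x) i • f x) := by
  rw [TbR_bg hc hf]
  exact vL_sum Finset.univ (fun i => pd i fun x => (b x) i • f x)
    fun i _ => TbR_m1 hc hl hf i i

/-- one potential, under an operator that preserves weak derivatives -/
theorem TbR_one (h0 : SpWk) (hc : Coef c r Λ b lam) (hl : CoL B b lam) (hf : Nc f)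
    (T : V3 →L[ℝ] V3) (hT : ∀ k (f g : V3), IsWeakDeriv k f g → IsWeakDeriv k (T f) (T g))
    {w : V3} {dw : Fin 3 → V3} (hw : ∀ k, IsWeakDeriv k w (dw k)) (k : Fin 3) :
    ⟪dw k, T (vL (bg b f))⟫_ℝ = ∑ i, ⟪dw i, T (vL (pd k fun x => (b x) i • f x))⟫_ℝ := by
  rw [TbR_vL_bg hc hl hf, map_sum, inner_sum]
  refine Finset.sum_congr rfl fun i _ => ?_
  exact TbR_swap hw (F := T (vL fun x => (b x) i • f x))
    (dF := fun l => T (vL (pd l fun x => (b x) i • f x)))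
    (fun l => hT l _ _ (h0 l _ (TbR_cd hc.cb hf.c1 i) (TbR_m0 hc hf i) (TbR_m1 hc hl hf i l))) i k

/-- Row RB3: the transport terms in divergence form. -/
theorem tb_ok (h0 : SpWk) (h4 : SpLP) : SpTb := by
  intro R hR c r Λ B b lam σ w dw hc hl hσ hdiv hw
  obtain ⟨-, h42, h43, h44, h45⟩ := h4 R hR
  have hLP : ∀ i, LP R (dw i) = dw i := by
    intro i
    have h1 := h45 i w (dw i) (hw i)
    rw [h43 w hdiv] at h1
    exact weak_unique h1 (hw i)
  have hg : ∀ k j, ⟪dw k, To R j (vL (bg b (σ.g k j)))⟫_ℝ =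
      ∑ i, ⟪dw i, To R j (vL (pd k fun x => (b x) i • σ.g k j x))⟫_ℝ := fun k j =>
    TbR_one h0 hc hl (hσ.1 k j) (To R j) (fun k f g h => h44 j k f g h) hw k
  have hh : ∀ k, ⟪dw k, vL (bg b (σ.h k))⟫_ℝ =
      ∑ i, ⟪dw i, vL (pd k fun x => (b x) i • σ.h k x)⟫_ℝ := fun k =>
    TbR_one h0 hc hl (hσ.2 k) (ContinuousLinearMap.id ℝ V3) (fun k f g h => h) hw k
  have e1 : ∀ i, ⟪dw i, TBs R b σ i⟫_ℝ =
      (∑ k, ∑ j, ⟪dw i, To R j (vL (pd k fun x => (b x) i • σ.g k j x))⟫_ℝ) +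
        ∑ k, ⟪dw i, vL (pd k fun x => (b x) i • σ.h k x)⟫_ℝ := by
    intro i
    unfold TBs
    rw [inner_add_right, ← h42, hLP, inner_sum, inner_sum]
    congr 1
    exact Finset.sum_congr rfl fun k _ => inner_sum _ _ _
  have e2 : ∀ k, ⟪dw k, (∑ j, To R j (vL (bg b (σ.g k j)))) + vL (bg b (σ.h k))⟫_ℝ =
      (∑ j, ∑ i, ⟪dw i, To R j (vL (pd k fun x => (b x) i • σ.g k j x))⟫_ℝ) +
        ∑ i, ⟪dw i, vL (pd k fun x => (b x) i • σ.h k x)⟫_ℝ := by
    intro k
    rw [inner_add_right, inner_sum, hh k]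
    congr 1
    exact Finset.sum_congr rfl fun j _ => hg k j
  rw [Finset.sum_congr rfl fun k _ => e2 k, Finset.sum_congr rfl fun i _ => e1 i,
    Finset.sum_add_distrib, Finset.sum_add_distrib]
  congr 1
  · have e3 : ∀ k, (∑ j, ∑ i, ⟪dw i, To R j (vL (pd k fun x => (b x) i • σ.g k j x))⟫_ℝ) =
        ∑ i, ∑ j, ⟪dw i, To R j (vL (pd k fun x => (b x) i • σ.g k j x))⟫_ℝ := fun k =>
      Finset.sum_comm
    rw [Finset.sum_congr rfl fun k _ => e3 k]
    exact Finset.sum_comm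
  · exact Finset.sum_comm

end Pool.Agent.TF
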