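import Pool.Agent.TF.R.Sp
import Pool.Agent.TF.E.Coef
import Pool.Agent.TF.E.Ini
import Pool.Agent.TB.DivSub

/-!
# Block R, row RC1: averages of a Leray solution are continuous in time
-/

set_option autoImplicit false

namespace Pool.Agent.TF

open MeasureTheory Set Filter Topology Pool.Agent.TO Pool.Agent.TB Pool.Agent.TC Pool.Agent.TP
open scoped ENNReal NNReal Real InnerProductSpace SchwartzMap LineDeriv Laplacian

namespace VtR

/-- optimization over a parameter -/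
theorem opt {X a b : ℝ} (ha : 0 ≤ a) (hb : 0 < b) (h : ∀ l > 0, X ≤ l * a + b / l) :
    X ≤ 2 * √(a * b) := by
  rcases ha.eq_or_lt with h0 | h0
  · rw [← h0, zero_mul, Real.sqrt_zero, mul_zero]
    by_contra hX
    rw [not_le] at hX
    have h1 := h (2 * b / X) (by positivity)
    rw [← h0, mul_zero, zero_add] at h1
    have h2 : b / (2 * b / X) = X / 2 := by
      field_simp
    rw [h2] at h1
    linarith
  · set s := √(b / a) with hs
    have hs0 : 0 < s := Real.sqrt_pos.2 (by positivity)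
    have hs2 : s ^ 2 * a = b := by
      rw [hs, Real.sq_sqrt (by positivity)]
      field_simp
    have h1 := h s hs0
    have h2 : √(a * b) = s * a := by
      rw [← hs2, show a * (s ^ 2 * a) = (s * a) ^ 2 by ring, Real.sqrt_sq (by positivity)]
    have h3 : b / s = s * a := by
      rw [← hs2]
      field_simp
    rw [h2]
    rw [h3] at h1
    linarith

variable {κ : E3 → ℝ} {L L' C0 : ℝ}

/-- the norm of an average as a pairing -/
theorem pair (hκ : KK κ L) (par : (∀ y, κ (-y) = κ y) ∨ ∀ y, κ (-y) = -κ y) (z : V3) :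
    ‖cvO κ z‖ ^ 2 = |⟪cvO κ (cvO κ z), z⟫_ℝ| := by
  rcases par with hp | hp
  · have h1 : ⟪cvO κ (cvO κ z), z⟫_ℝ = ⟪cvO κ z, cvO κ z⟫_ℝ := by
      rw [cvO_eq hκ, ← symm_cvL hκ hp]
    rw [h1, real_inner_self_eq_norm_sq, abs_of_nonneg (sq_nonneg _)]
  · have h1 : ⟪cvO κ (cvO κ z), z⟫_ℝ = -⟪cvO κ z, cvO κ z⟫_ℝ := by
      rw [cvO_eq hκ, anti_cvL hκ hp (cvL hκ z) z, neg_neg]
    rw [h1, real_inner_self_eq_norm_sq, abs_neg, abs_of_nonneg (sq_nonneg _)]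

/-- the integrand -/
theorem TT_le {dφ f : Fin 3 → V3} {v : V3} {A K M l : ℝ} (hA : 0 ≤ A) (hl : 0 < l)
    (hb : ∀ k, Bd (dφ k) A) (hK : ∀ k, ‖dφ k‖ ≤ K) (hv : ‖v‖ ≤ M) :
    |TT dφ v f| ≤ K * (l / 2) * (∑ k, ‖f k‖ ^ 2) + (K * (3 / (2 * l)) + 3 * A * M ^ 2) := by
  have hK0 : 0 ≤ K := (norm_nonneg _).trans (hK 0)
  refine (abs_TT_le hb).trans ?_
  have h1 : ∑ k, ‖dφ k‖ * ‖f k‖ ≤ ∑ k, (K * (l / 2) * ‖f k‖ ^ 2 + K * (1 / (2 * l))) := by
    refine Finset.sum_le_sum fun k _ => ?_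
    have h2 : ‖f k‖ ≤ l / 2 * ‖f k‖ ^ 2 + 1 / (2 * l) := by
      have h3 : 0 ≤ (l * ‖f k‖ - 1) ^ 2 / (2 * l) := by positivity
      have h4 : (l * ‖f k‖ - 1) ^ 2 / (2 * l) = l / 2 * ‖f k‖ ^ 2 + 1 / (2 * l) - ‖f k‖ := by
        field_simp
        ring
      linarith
    calc ‖dφ k‖ * ‖f k‖ ≤ K * (l / 2 * ‖f k‖ ^ 2 + 1 / (2 * l)) :=
          mul_le_mul (hK k) h2 (norm_nonneg _) hK0
      _ = _ := by ring
  have h5 : ∑ k : Fin 3, (K * (l / 2) * ‖f k‖ ^ 2 + K * (1 / (2 * l))) =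
      K * (l / 2) * (∑ k, ‖f k‖ ^ 2) + K * (3 / (2 * l)) := by
    rw [Finset.sum_add_distrib, ← Finset.mul_sum, Finset.sum_const, Finset.card_univ,
      Fintype.card_fin]
    simp only [nsmul_eq_mul]
    push_cast
    ring
  have h6 : 3 * A * ‖v‖ ^ 2 ≤ 3 * A * M ^ 2 := by
    have h7 : ‖v‖ ^ 2 ≤ M ^ 2 := pow_le_pow_left₀ (norm_nonneg _) hv 2
    exact mul_le_mul_of_nonneg_left h7 (by positivity)
  linarith

/-- the algebra of the last step -/
theorem alg {W I M S d : ℝ} (hW : 0 ≤ W) (hL' : 0 < L') (hI : 0 ≤ I) (hd : 0 < d) (hS : 0 ≤ S)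
    (key : ∀ l > 0, W ^ 2 ≤ L' * W * (l / 2) * I +
      (L' * W * (3 / (2 * l)) + 3 * (S * W) * M ^ 2) * d) :
    W ≤ 2 * √(L' * I / 2 * (3 * L' * d / 2)) + 3 * S * M ^ 2 * d := by
  rcases hW.eq_or_lt with h0 | h0
  · rw [← h0]
    positivity
  · have h5 : W - 3 * S * M ^ 2 * d ≤ 2 * √(L' * I / 2 * (3 * L' * d / 2)) := by
      refine opt (by positivity) (by positivity) fun l hl0 => ?_
      have h6 := key l hl0
      have h7 : W * W ≤ W * (l * (L' * I / 2) + 3 * L' * d / 2 / l + 3 * S * M ^ 2 * d) := by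
        calc W * W = W ^ 2 := by ring
          _ ≤ _ := h6
          _ = _ := by
            field_simp
            ring
      have h8 := le_of_mul_le_mul_left h7 h0
      linarith
    linarith

theorem core {T : ℝ} {u₀ : V3} {v : ℝ → V3} {Dv : ℝ → Fin 3 → V3} (h : LG T u₀ v Dv) {M : ℝ}
    (hM : ‖u₀‖ ≤ M) (hκ : KK κ L) {dκ : Fin 3 → E3 → ℝ} (hL' : 0 < L')
    (hd : ∀ k, KK (dκ k) L') (hb : ∀ k y, |dκ k y| ≤ C0)
    (hl : ∀ k y, HasLineDerivAt ℝ κ (dκ k y) y (ee k))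
    (par : (∀ y, κ (-y) = κ y) ∨ ∀ y, κ (-y) = -κ y) {t d τ : ℝ} (ht : 0 ≤ t) (hdd : 0 < d)
    (htd : t + d < T) (hτ : τ ∈ Icc t (t + d)) :
    ‖cvO κ (v τ - v t)‖ ≤
      2 * √(L' * (∫ τ in Ioo t (t + d), ∑ k, ‖Dv τ k‖ ^ 2) / 2 * (3 * L' * d / 2)) +
        3 * √(C0 * L') * M ^ 2 * d := by
  have hv := h.hv
  have hT : τ < T := hτ.2.trans_lt htd
  have ht0 : t ∈ Ico 0 T := ⟨ht, hτ.1.trans_lt hT⟩
  have hτ0 : τ ∈ Ico 0 T := ⟨ht.trans hτ.1, hT⟩
  set z := v τ - v t with hz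
  set w := cvO κ z with hw
  set φ := cvO κ w with hφd
  set dφ : Fin 3 → V3 := fun k => cvO (dκ k) w with hdφ
  set A := √(C0 * L') * ‖w‖ with hA
  set I := ∫ τ in Ioo t (t + d), ∑ k, ‖Dv τ k‖ ^ 2 with hI
  have hA0 : 0 ≤ A := by positivity
  have hφ : ∀ k, IsWeakDeriv k φ (dφ k) := fun k => weak_kernel hκ (hd k) (hl k) w
  have hdiv : IsDivFree φ :=
    EIn.div_cvO _ (EIn.div_cvO _ (isDivFree_sub (hv.div τ hτ0) (hv.div t ht0)))
  have hbd : ∀ k, Bd (dφ k) A := by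
    intro k
    filter_upwards [coe_cvO (hd k) w] with x hx
    rw [hx]
    exact norm_cvf_le_l2 (hd k) (hb k) w x
  have hK : ∀ k, ‖dφ k‖ ≤ L' * ‖w‖ := fun k => norm_cvO_le (hd k) w
  obtain ⟨-, he⟩ := lemT hv h.weak h.int hdiv hφ hbd ht hτ.1 hT
  have hsq : ‖w‖ ^ 2 = |∫ σ in Ioo t τ, TT dφ (v σ) (Dv σ)| := by
    rw [← he, ← inner_sub_right]
    exact pair hκ par z
  have hSi : IntegrableOn (fun σ => ∑ k, ‖Dv σ k‖ ^ 2) (Ioo t (t + d)) volume :=
    (h.int (t + d) ⟨by linarith, htd⟩).mono_set (Ioo_subset_Ioo ht le_rfl)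
  have hI0 : 0 ≤ I := integral_nonneg fun σ => Finset.sum_nonneg fun k _ => sq_nonneg _
  have hsub : Ioo t τ ⊆ Ioo t (t + d) := Ioo_subset_Ioo le_rfl hτ.2
  have key : ∀ l > 0, ‖w‖ ^ 2 ≤ L' * ‖w‖ * (l / 2) * I +
      (L' * ‖w‖ * (3 / (2 * l)) + 3 * A * M ^ 2) * d := by
    intro l hl0
    have hB : IntegrableOn (fun σ => L' * ‖w‖ * (l / 2) * (∑ k, ‖Dv σ k‖ ^ 2) +
        (L' * ‖w‖ * (3 / (2 * l)) + 3 * A * M ^ 2)) (Ioo t (t + d)) volume :=
      (hSi.const_mul _).add (integrableOn_const (by simp) (by simp))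
    have h1 : ∀ᵐ σ ∂(volume.restrict (Ioo t τ)), ‖TT dφ (v σ) (Dv σ)‖ ≤
        L' * ‖w‖ * (l / 2) * (∑ k, ‖Dv σ k‖ ^ 2) +
          (L' * ‖w‖ * (3 / (2 * l)) + 3 * A * M ^ 2) := by
      filter_upwards [ae_restrict_mem measurableSet_Ioo] with σ hσ
      have h2 : σ ∈ Ico 0 T := ⟨ht.trans hσ.1.le, hσ.2.trans hT⟩
      exact TT_le hA0 hl0 hbd hK ((hv.norm_le h2).trans hM)
    have h3 := norm_integral_le_of_norm_le (hB.mono_set hsub) h1
    rw [Real.norm_eq_abs, ← hsq] at h3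
    refine h3.trans ?_
    have hB0 : ∀ σ, (0 : ℝ) ≤ L' * ‖w‖ * (l / 2) * (∑ k, ‖Dv σ k‖ ^ 2) +
        (L' * ‖w‖ * (3 / (2 * l)) + 3 * A * M ^ 2) := by
      intro σ
      have h5 : 0 ≤ ∑ k, ‖Dv σ k‖ ^ 2 := Finset.sum_nonneg fun k _ => sq_nonneg _
      have h6 : 0 ≤ L' * ‖w‖ * (l / 2) := by positivity
      have h7 : 0 ≤ L' * ‖w‖ * (3 / (2 * l)) := by positivity
      have h8 : 0 ≤ 3 * A * M ^ 2 := by positivity
      have h9 := mul_nonneg h6 h5
      linarith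
    have h4 := setIntegral_mono_set hB (ae_of_all _ hB0) hsub.eventuallyLE
    refine h4.trans (le_of_eq ?_)
    rw [integral_add (hSi.const_mul _) (integrableOn_const (by simp) (by simp)),
      integral_const_mul, integral_const]
    simp only [MeasurableSet.univ, measureReal_restrict_apply, univ_inter, smul_eq_mul]
    rw [Real.volume_real_Ioo_of_le (by linarith)]
    ring
  exact alg (norm_nonneg w) hL' hI0 hdd (Real.sqrt_nonneg _) key

end VtR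

open VtR EIn in
/-- averages of a Leray solution are continuous in time -/
theorem vt_ok : SpVt := by
  intro M hM
  have hc := c0_pos
  refine ⟨70 * M * √3 + 3 * √(525 * c0 * M ^ 3 * (70 * M)) * M ^ 2, by positivity, ?_⟩
  intro T u₀ v Dv h hu t d ht1 ht2 hd hd1 htd τ hτ
  have ht0 : 0 < t := lt_of_lt_of_le (by positivity) ht1
  have hr : 0 < √t := Real.sqrt_pos.2 ht0
  have hr2 : √t ^ 2 = t := Real.sq_sqrt ht0.le
  have hr1 : √t ≤ 1 := Real.sqrt_le_one.2 ht2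
  have hM1 : 1 ≤ M := by
    have h1 : 1 / M ≤ 1 := ht1.trans ht2
    rw [div_le_one hM] at h1
    exact h1
  have hinv2 : 1 / √t ^ 2 ≤ M := by
    rw [hr2]
    rw [div_le_iff₀ ht0]
    rw [div_le_iff₀ hM] at ht1
    linarith
  have hinv1 : 1 / √t ≤ M := by
    refine le_trans ?_ hinv2
    apply div_le_div_of_nonneg_left zero_le_one (by positivity)
    nlinarith
  have hinv3 : 1 / √t ^ 3 ≤ M ^ 2 := by
    calc 1 / √t ^ 3 = 1 / √t ^ 2 * (1 / √t) := by field_simp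
      _ ≤ M * M := mul_le_mul hinv2 hinv1 (by positivity) hM.le
      _ = M ^ 2 := by ring
  -- bounds of the kernels
  have he0 : ∀ x, et0 (√t) x ≤ 15 / 2 * c0 * M ^ 2 := by
    intro x
    refine (ECo.et0_le hr x).trans ?_
    rw [div_eq_mul_one_div]
    exact mul_le_mul_of_nonneg_left hinv3 (by positivity)
  have k1 : ∀ k, KK (pd k (et0 (√t))) (70 * M) := fun k => kk_mono (kk1 hr k) (by
    rw [div_eq_mul_one_div]
    nlinarith [hinv1])
  have k2 : ∀ i k, KK (pd k (pd i (et0 (√t)))) (70 * M) := fun i k => kk_mono (kk2 hr k i) (by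
    rw [div_eq_mul_one_div]
    exact mul_le_mul_of_nonneg_left hinv2 (by norm_num))
  have b1 : ∀ k y, |pd k (et0 (√t)) y| ≤ 525 * c0 * M ^ 3 := by
    intro k y
    calc |pd k (et0 (√t)) y| ≤ 7 / √t * et0 (√t) y := pd_et0_le hr k y
      _ ≤ (70 * M) * (15 / 2 * c0 * M ^ 2) := by
        apply mul_le_mul _ (he0 y) (et0_nonneg hr y) (by positivity)
        rw [div_eq_mul_one_div]
        nlinarith [hinv1]
      _ = 525 * c0 * M ^ 3 := by ring
  have b2 : ∀ i k y, |pd k (pd i (et0 (√t))) y| ≤ 525 * c0 * M ^ 3 := by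
    intro i k y
    calc |pd k (pd i (et0 (√t))) y| ≤ 70 / √t ^ 2 * et0 (√t) y := pd_pd_et0_le hr k i y
      _ ≤ (70 * M) * (15 / 2 * c0 * M ^ 2) := by
        apply mul_le_mul _ (he0 y) (et0_nonneg hr y) (by positivity)
        rw [div_eq_mul_one_div]
        exact mul_le_mul_of_nonneg_left hinv2 (by norm_num)
      _ = 525 * c0 * M ^ 3 := by ring
  have l1 : ∀ k y, HasLineDerivAt ℝ (et0 (√t)) (pd k (et0 (√t)) y) y (ee k) := fun k y =>
    (hasFDerivAt_et0 hr y).differentiableAt.hasFDerivAt.hasLineDerivAt (ee k)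
  have l2 : ∀ i k y, HasLineDerivAt ℝ (pd i (et0 (√t))) (pd k (pd i (et0 (√t))) y) y (ee k) := by
    intro i k y
    have h1 : ContDiff ℝ (1 : ℕ) (pd i (et0 (√t))) := ((smN_et0 hr).pd i).cd
    have h2 : Differentiable ℝ (pd i (et0 (√t))) := h1.differentiable (by norm_num)
    exact (h2 y).hasFDerivAt.hasLineDerivAt (ee k)
  have fin : ∀ x : ℝ, x ≤ 2 * √(70 * M * (∫ τ in Ioo t (t + d), ∑ k, ‖Dv τ k‖ ^ 2) / 2 *
      (3 * (70 * M) * d / 2)) + 3 * √(525 * c0 * M ^ 3 * (70 * M)) * M ^ 2 * d →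
      x ≤ (70 * M * √3 + 3 * √(525 * c0 * M ^ 3 * (70 * M)) * M ^ 2) *
        (√d * √(∫ τ in Ioo t (t + d), ∑ k, ‖Dv τ k‖ ^ 2) + d) := by
    intro x hx
    set I := ∫ τ in Ioo t (t + d), ∑ k, ‖Dv τ k‖ ^ 2 with hI
    have hI0 : 0 ≤ I := integral_nonneg fun σ => Finset.sum_nonneg fun k _ => sq_nonneg _
    have h1 : √(70 * M * I / 2 * (3 * (70 * M) * d / 2)) = 35 * M * √3 * (√d * √I) := by
      rw [show 70 * M * I / 2 * (3 * (70 * M) * d / 2) = (35 * M) ^ 2 * (3 * (d * I)) by ring,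
        Real.sqrt_mul (by positivity), Real.sqrt_sq (by positivity),
        Real.sqrt_mul (by norm_num), Real.sqrt_mul hd.le]
      ring
    rw [h1] at hx
    have h2 : 0 ≤ √(525 * c0 * M ^ 3 * (70 * M)) * M ^ 2 * (√d * √I) := by positivity
    have h3 : 0 ≤ 70 * M * √3 * d := by positivity
    nlinarith
  refine ⟨fin _ ?_, fun i => fin _ ?_⟩
  · exact core h hu (kk_et0 hr) (by positivity) k1 b1 l1 (Or.inl fun y => et0_neg y) ht0.le hd
      htd hτ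
  · refine core h hu (k1 i) (by positivity) (k2 i) (b2 i) (l2 i) (Or.inr fun y => ?_) ht0.le hd
      htd hτ
    rw [pd_et0 hr, pd_et0 hr, sg_neg]
    simp

end Pool.Agent.TF
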