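import Pool.Agent.TF.R.Fin
import Pool.Agent.TF.R.Ref
import Pool.Agent.TF.R.EqR
import Pool.Agent.TF.R.Hd
import Pool.Agent.TF.R.Jd
import Pool.Agent.TF.R.Key
import Pool.Agent.TF.R.LpR
import Pool.Agent.TF.R.Mod
import Pool.Agent.TF.R.Tb
import Pool.Agent.TF.R.Vt
import Pool.Agent.TF.R.Sc
import Pool.Agent.TF.R.Str
import Pool.Agent.TF.R.Ht
import Pool.Agent.TF.E.Coef
import Pool.Agent.TF.E.Div
import Pool.Agent.TF.E.Step
import Pool.Agent.TF.E.JbOk
import Pool.Agent.TF.R.Wk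
import Pool.Agent.TF.R.Co
import Pool.Agent.TF.R.Dam

/-! Block R of project TF: the row theorems combined with `r_of`. -/

namespace Pool.Agent.TF

/-- `StR` from the rows still hypotheses. -/
theorem r_ok0 (hw : StWord) (hstr : SpStr) : StR := by
  have h2 := ht_ok
  have h0 := wk_ok
  have h1 := jd_ok
  have h3 := hd_ok
  have h4 := lp_ok
  have hmod := mod_ok hw h0 h1 h2 h3 h4
  have heq := eq_ok h0 h1 h2 h3 h4
  have htb := tb_ok h0 h4
  have hsc := sc_ok h2
  exact r_of (ref_ok hstr htb (dam_ok h0 h1 h2) co_ok hsc hmod) heq hmod vt_ok co_ok coef_ok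
    stDiv (step_ok jb_ok)

/-- Block R of the project. -/
theorem r_ok (hcc : StCC) (hw : StWord) : StR :=
  r_ok0 hw (str_ok (key_ok hcc hw wk_ok) hw)

end Pool.Agent.TF
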