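import Pool.Agent.TF.R.Sp
import Pool.Agent.TF.E.Src
import Pool.Agent.TB.DivSub
import Pool.Agent.TO.Lim

/-!
# Block R: assembly, one step as a forced solution
-/

set_option autoImplicit false

namespace Pool.Agent.TF

open MeasureTheory Set Filter Topology Pool.Agent.TO Pool.Agent.TB Pool.Agent.TC Pool.Agent.TP
open scoped ENNReal NNReal Real InnerProductSpace SchwartzMap LineDeriv Laplacian

namespace AsR

theorem coef_mono {c r Λ c' Λ' : ℝ} {b : E3 → E3} {lam : E3 → ℝ} (h : Coef c r Λ b lam)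
    (hr : 0 < r) (hc : c ≤ c') (hΛ : Λ ≤ Λ') : Coef c' r Λ' b lam where
  cb := h.cb
  cl := h.cl
  l0 := h.l0
  lΛ x := (h.lΛ x).trans hΛ
  bΛ x := (h.bΛ x).trans hΛ
  div := h.div
  b1 := h.b1
  b2 i j x := (h.b2 i j x).trans
    (div_le_div_of_nonneg_right (mul_le_mul_of_nonneg_right hc (h.l0 x)) hr.le)
  l1 i x := (h.l1 i x).trans
    (div_le_div_of_nonneg_right (mul_le_mul_of_nonneg_right hc (h.l0 x)) hr.le)
  l2 i j x := (h.l2 i j x).trans
    (div_le_div_of_nonneg_right (mul_le_mul_of_nonneg_right hc (h.l0 x)) (sq_nonneg r))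

theorem supS_mono {A A' : ℝ} {σ : Sta} (h : SupS A σ) (hA : A ≤ A') : SupS A' σ :=
  ⟨fun k j x => (h.1 k j x).trans hA, fun k x => (h.2 k x).trans hA⟩

theorem supS1_mono {A A' : ℝ} {σ : Sta} (h : SupS1 A σ) (hA : A ≤ A') : SupS1 A' σ :=
  ⟨fun k j i x => (h.1 k j i x).trans hA, fun k i x => (h.2 k i x).trans hA⟩

theorem nrS_mono {A A' : ℝ} {σ : Sta} (h : NrS A σ) (hA : A ≤ A') : NrS A' σ where
  g0 k j := (h.g0 k j).trans hA
  h0 k := (h.h0 k).trans hA
  g1 k j i := (h.g1 k j i).trans hA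
  h1 k i := (h.h1 k i).trans hA
  g2 k j i i' := (h.g2 k j i i').trans hA
  h2 k i i' := (h.h2 k i i').trans hA
  gs k j i i' x := (h.gs k j i i' x).trans hA
  hs k i i' x := (h.hs k i i' x).trans hA
  l0 := h.l0.trans hA
  l1 := by
    obtain ⟨dl, h1⟩ := h.l1
    exact ⟨dl, fun i => ⟨(h1 i).1, (h1 i).2.trans hA⟩⟩

/-- the quadratic term is Lipschitz on bounded sets -/
theorem norm_tens_sub_le (k : Fin 3) {f g : V3} {M : ℝ} (hf : Bd f M) (hg : Bd g M) :
    ‖tens k f f - tens k g g‖ ≤ 2 * M * ‖f - g‖ := by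
  have h1 : tens k f f - tens k g g = tens k (f - g) f + (tens k g f - tens k g g) := by
    rw [tens_sub_left k f g hf]
    abel
  have h2 : ‖tens k (f - g) f‖ ≤ M * ‖f - g‖ := norm_tens_right_le k _ hf
  have h3 : ‖tens k g f - tens k g g‖ ≤ M * ‖f - g‖ := by
    apply Lp.norm_le_mul_norm_of_ae_le_mul
    filter_upwards [Lp.coeFn_sub (tens k g f) (tens k g g), Lp.coeFn_sub f g,
      coe_tens_right k g hf, coe_tens_right k g hg, hg] with x h1 h2 h3 h4 h5
    rw [h1, Pi.sub_apply, h3, h4, ← smul_sub, norm_smul, h2, Pi.sub_apply]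
    exact mul_le_mul_of_nonneg_right ((PiLp.norm_apply_le (g x) k).trans h5) (norm_nonneg _)
  rw [h1]
  refine (norm_add_le _ _).trans ?_
  linarith

theorem continuousOn_tens (k : Fin 3) {S : Set ℝ} {U : ℝ → V3} {M : ℝ} (hU : ContinuousOn U S)
    (hb : ∀ τ ∈ S, Bd (U τ) M) : ContinuousOn (fun τ => tens k (U τ) (U τ)) S := by
  intro τ hτ
  have h1 := hU τ hτ
  rw [ContinuousWithinAt, tendsto_iff_norm_sub_tendsto_zero] at h1 ⊢
  have h2 := h1.const_mul (2 * M)
  rw [mul_zero] at h2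
  refine squeeze_zero' (Eventually.of_forall fun _ => norm_nonneg _) ?_ h2
  filter_upwards [self_mem_nhdsWithin] with τ' hτ'
  exact norm_tens_sub_le k (hb τ' hτ') (hb τ hτ)

end AsR

open AsR

/-- the forced solution of one step -/
theorem relF_of (heq : SpEq) {N Cm M d η t T : ℝ} {R : Fin 3 → V3 →L[ℝ] V3} {b : E3 → E3}
    {lam : E3 → ℝ} {σ : Sta} (hS : Stp N d η t R b lam σ) {u₀ : V3} {v : ℝ → V3}
    {Dv : ℝ → Fin 3 → V3} (hv : LG T u₀ v Dv) (hT : t + d < T)
    (hUc : ContinuousOn (Us R η b lam σ) (Icc 0 d))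
    (hKc : ∀ k, ContinuousOn (fun s => Kf R η b lam σ s k) (Ioo 0 d))
    (hn : ∀ s ∈ Icc 0 d, ‖Us R η b lam σ s‖ ≤ Cm)
    (hk : ∀ s ∈ Ioc 0 d, ∀ k, ‖Kf R η b lam σ s k‖ ≤ Cm)
    (hb : ∀ s ∈ Icc 0 d, Bd (Us R η b lam σ s) M) {DU : ℝ → Fin 3 → V3}
    (hDU : ∀ s ∈ Icc 0 d, ∀ k, IsWeakDeriv k (Us R η b lam σ s) (DU s k) ∧ ‖DU s k‖ ≤ Cm) :
    RelF T u₀ v Dv t (t + d) Cm (fun τ => Us R η b lam σ (τ - t)) (fun τ => DU (τ - t))
      (fun τ k => -tens k (Us R η b lam σ (τ - t)) (Us R η b lam σ (τ - t)) -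
        Kf R η b lam σ (τ - t) k) (fun _ => M) := by
  have ht0 : 0 < t := lt_of_lt_of_le (one_div_pos.2 (by linarith [hS.hN])) hS.tN
  have hd := hS.hd
  have hM : 0 ≤ M := by
    obtain ⟨x, hx⟩ := (hb 0 ⟨le_rfl, hd.le⟩).exists
    exact (norm_nonneg _).trans hx
  have hCm : 0 ≤ Cm := (norm_nonneg _).trans (hn 0 ⟨le_rfl, hd.le⟩)
  have hI : ∀ τ ∈ Icc t (t + d), τ - t ∈ Icc 0 d := fun τ hτ =>
    ⟨by linarith [hτ.1], by linarith [hτ.2]⟩
  have hI' : ∀ τ ∈ Ioo t (t + d), τ - t ∈ Ioo 0 d := fun τ hτ =>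
    ⟨by linarith [hτ.1], by linarith [hτ.2]⟩
  have hc : Continuous fun τ : ℝ => τ - t := by fun_prop
  have hUc' : ContinuousOn (fun τ => Us R η b lam σ (τ - t)) (Ioo t (t + d)) :=
    hUc.comp hc.continuousOn fun τ hτ => Ioo_subset_Icc_self (hI' τ hτ)
  have hUm : AEStronglyMeasurable (fun τ => Us R η b lam σ (τ - t))
      (volume.restrict (Ioo t (t + d))) := hUc'.aestronglyMeasurable measurableSet_Ioo
  have hGc : ∀ k, ContinuousOn (fun τ => -tens k (Us R η b lam σ (τ - t))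
      (Us R η b lam σ (τ - t)) - Kf R η b lam σ (τ - t) k) (Ioo t (t + d)) := fun k =>
    ((continuousOn_tens k hUc' fun τ hτ => hb _ (Ioo_subset_Icc_self (hI' τ hτ))).neg).sub
      ((hKc k).comp hc.continuousOn fun τ hτ => hI' τ hτ)
  have hGb : ∀ τ ∈ Ioo t (t + d), ∀ k, ‖-tens k (Us R η b lam σ (τ - t))
      (Us R η b lam σ (τ - t)) - Kf R η b lam σ (τ - t) k‖ ≤ M * Cm + Cm := by
    intro τ hτ k
    have h1 := hI' τ hτ
    refine (norm_sub_le _ _).trans (add_le_add ?_ (hk _ (Ioo_subset_Ioc_self h1) k))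
    rw [norm_neg]
    exact (norm_tens_right_le k _ (hb _ (Ioo_subset_Icc_self h1))).trans
      (mul_le_mul_of_nonneg_left (hn _ (Ioo_subset_Icc_self h1)) hM)
  refine
    { hv := hv.hv
      hDv := hv.weak
      hDvi := hv.int
      hen := hv.en
      hs := ht0.le
      ht := hT
      hU := ?_
      ha0 := fun _ => hM
      hUa := ?_
      hai := by simp
      hDU := ?_
      hDUi := ?_ }
  · refine
      { hC := fun τ hτ => hn _ (hI τ hτ)
        meas := hUm
        measG := fun k => (hGc k).aestronglyMeasurable measurableSet_Ioo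
        intG := ?_
        div := fun τ hτ => hS.dv _ (hI τ hτ)
        eqn := ?_ }
    · refine Integrable.of_bound ?_ (3 * (M * Cm + Cm) ^ 2) ?_
      · exact Finset.aestronglyMeasurable_fun_sum _ fun k _ =>
          (((hGc k).aestronglyMeasurable measurableSet_Ioo).norm.pow 2)
      · filter_upwards [ae_restrict_mem measurableSet_Ioo] with τ hτ
        rw [Real.norm_of_nonneg (Finset.sum_nonneg fun k _ => sq_nonneg _)]
        calc _ ≤ ∑ _k : Fin 3, (M * Cm + Cm) ^ 2 := Finset.sum_le_sum fun k _ =>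
              pow_le_pow_left₀ (norm_nonneg _) (hGb τ hτ k) 2
          _ = _ := by
              rw [Finset.sum_const, Finset.card_univ, Fintype.card_fin]
              simp
    · intro s s' h1 h2 h3 φ hφ
      have h4 := heq N (√t) N N N d η R b lam σ hS.hR hS.coef hS.col hd hS.dN hS.hη (by
        have := hS.nc 0 ⟨le_rfl, hd.le⟩
        rwa [Ss, if_pos le_rfl] at this) hS.bd φ hφ (s - t) (s' - t) (by linarith) (by linarith)
        (by linarith)
      rw [h4, ← intervalIntegral.integral_comp_sub_right (fun τ => ⟪emb (Δ φ), Us R η b lam σ τ⟫_ℝ -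
        ∑ k, ⟪emb (∂_{ee k} φ), Kf R η b lam σ τ k⟫_ℝ) t]
      apply integral_congr_Ioo h2
      filter_upwards [ae_restrict_mem measurableSet_Ioo] with τ hτ
      have h5 : Bd (Us R η b lam σ (τ - t)) M := hb _ (hI τ ⟨h1.trans hτ.1.le, hτ.2.le.trans h3⟩)
      simp only [inner_sub_right, inner_neg_right, Finset.sum_sub_distrib,
        Finset.sum_neg_distrib]
      rw [rhs, inner_AA_tens φ _ h5, ← emb_apply]
      ring
  · filter_upwards [ae_restrict_mem measurableSet_Ioo] with τ hτ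
    exact hb _ (Ioo_subset_Icc_self (hI' τ hτ))
  · filter_upwards [ae_restrict_mem measurableSet_Ioo] with τ hτ k
    exact (hDU _ (Ioo_subset_Icc_self (hI' τ hτ)) k).1
  · refine Integrable.of_bound ?_ (3 * Cm ^ 2) ?_
    · refine Finset.aestronglyMeasurable_fun_sum _ fun k _ => ?_
      have h1 : AEStronglyMeasurable (fun τ => ‖DU (τ - t) k‖)
          (volume.restrict (Ioo t (t + d))) := by
        apply meas_weak (k := k) hUm
        filter_upwards [ae_restrict_mem measurableSet_Ioo] with τ hτ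
        exact (hDU _ (Ioo_subset_Icc_self (hI' τ hτ)) k).1
      exact h1.pow 2
    · filter_upwards [ae_restrict_mem measurableSet_Ioo] with τ hτ
      rw [Real.norm_of_nonneg (Finset.sum_nonneg fun k _ => sq_nonneg _)]
      calc _ ≤ ∑ _k : Fin 3, Cm ^ 2 := Finset.sum_le_sum fun k _ =>
            pow_le_pow_left₀ (norm_nonneg _) (hDU _ (Ioo_subset_Icc_self (hI' τ hτ)) k).2 2
        _ = _ := by
            rw [Finset.sum_const, Finset.card_univ, Fintype.card_fin]
            simp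

end Pool.Agent.TF
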