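import Pool.Agent.TF.R.Asm
import Pool.Agent.TF.E.Ini

/-!
# Block R: the relative energy, one step
-/

set_option autoImplicit false

namespace Pool.Agent.TF

open MeasureTheory Set Filter Topology Pool.Agent.TO Pool.Agent.TB Pool.Agent.TC Pool.Agent.TP
open scoped ENNReal NNReal Real InnerProductSpace SchwartzMap LineDeriv Laplacian

namespace FinR

theorem exp_le {x : ℝ} (h0 : 0 ≤ x) (h1 : x ≤ 1) : Real.exp x ≤ 1 + 2 * x := by
  have h2 := Real.abs_exp_sub_one_sub_id_le (x := x) (by rwa [abs_of_nonneg h0])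
  have h3 := (abs_le.1 h2).2
  nlinarith

/-- the last inequality -/
theorem last {Φ₀ Φ₁ I L M d η sd se C₀ M₁ Cr Cv N Cm δ E : ℝ} (hΦ : 0 ≤ Φ₀) (hI : 0 ≤ I)
    (hd : 0 < d) (hL : 0 ≤ L) (hLM : L ≤ M) (hdM : 4 * M ^ 2 * d ≤ 1)
    (hη : 0 ≤ η) (hse : η ≤ se) (hsd0 : 0 ≤ sd) (hsd : d ≤ sd) (hC₀ : 0 ≤ C₀) (hCr : 0 ≤ Cr)
    (hδ : δ ^ 2 ≤ 3 * (Cv ^ 2 * d * I + (Cv ^ 2 + 49 * N ^ 2 * Cm ^ 2) * sd))
    (hE : E = C₀ * M₁ ^ 2 * η * I + d * (Cr * (sd + 4 * δ ^ 2)))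
    (h : Φ₁ ≤ (Φ₀ + 2 * E) * Real.exp (2 * (2 * L ^ 2) * d)) :
    Φ₁ ≤ (1 + 16 * L ^ 2 * d) * Φ₀ + 6 * C₀ * M₁ ^ 2 * se * I +
      (6 * Cr * (1 + 12 * (Cv ^ 2 + 49 * N ^ 2 * Cm ^ 2))) * (d * sd) * (1 + I) := by
  have hx0 : 0 ≤ 2 * (2 * L ^ 2) * d := by positivity
  have hLM2 : L ^ 2 ≤ M ^ 2 := pow_le_pow_left₀ hL hLM 2
  have hx1 : 2 * (2 * L ^ 2) * d ≤ 1 := by
    have := mul_le_mul_of_nonneg_right hLM2 (by positivity : 0 ≤ 4 * d)
    linarith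
  have hexp := exp_le hx0 hx1
  have hE0 : 0 ≤ E := by
    rw [hE]
    positivity
  have k1 : (Φ₀ + 2 * E) * Real.exp (2 * (2 * L ^ 2) * d) ≤
      (Φ₀ + 2 * E) * (1 + 2 * (2 * (2 * L ^ 2) * d)) :=
    mul_le_mul_of_nonneg_left hexp (by positivity)
  have k2 : (Φ₀ + 2 * E) * (1 + 2 * (2 * (2 * L ^ 2) * d)) ≤
      (1 + 16 * L ^ 2 * d) * Φ₀ + 6 * E := by
    have g1 : E * (2 * (2 * L ^ 2) * d) ≤ E * 1 := mul_le_mul_of_nonneg_left hx1 hE0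
    have g2 : 0 ≤ Φ₀ * (L ^ 2 * d) := by positivity
    linarith
  have k3 : 6 * E ≤ 6 * C₀ * M₁ ^ 2 * se * I +
      (6 * Cr * (1 + 12 * (Cv ^ 2 + 49 * N ^ 2 * Cm ^ 2))) * (d * sd) * (1 + I) := by
    have g1 : C₀ * M₁ ^ 2 * η * I ≤ C₀ * M₁ ^ 2 * se * I := by gcongr
    have g2 : d * (Cr * (sd + 4 * δ ^ 2)) ≤ d * (Cr * (sd + 4 *
        (3 * (Cv ^ 2 * d * I + (Cv ^ 2 + 49 * N ^ 2 * Cm ^ 2) * sd)))) := by gcongr
    have g3 : d * (Cr * (12 * (Cv ^ 2 * d * I))) ≤ d * (Cr * (12 * (Cv ^ 2 * sd * I))) := by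
      gcongr
    have g4 : 0 ≤ d * sd * Cr * I := by positivity
    have g5 : 0 ≤ d * sd * Cr * I * (N ^ 2 * Cm ^ 2) := by positivity
    rw [hE]
    linarith
  exact h.trans (k1.trans (k2.trans (by linarith)))

theorem inv_le_sqrt {M t : ℝ} (hM : 1 ≤ M) (h : 1 / M ≤ t) (h1 : t ≤ 1) : 1 / M ≤ √t := by
  apply Real.le_sqrt_of_sq_le
  have h0 : 0 < 1 / M := one_div_pos.2 (by linarith)
  have h2 : 1 / M ≤ 1 := h.trans h1
  calc (1 / M) ^ 2 ≤ 1 / M := by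
        rw [sq]
        exact mul_le_of_le_one_left h0.le h2
    _ ≤ t := h

end FinR

open FinR AsR

/-- all bounds of one step -/
theorem stp_of (hco : SpCo) (hcf : StCoef) (hdv : StDiv) (hst : StStep) {a₀ M η M' : ℝ}
    (ha₀ : 0 < a₀) (hM : 1 ≤ M) (hη : 0 < η) (hM' : 0 < M') : ∃ N : ℝ, 1 ≤ N ∧ 3 * M + 1 ≤ N ∧
    ∃ d₀ > 0, ∀ d : ℝ, 0 < d → d < d₀ → ∀ R, RZ R → ∀ t : ℝ, 1 / M ≤ t → t ≤ 1 →
    ∀ (σ : Sta) (vt : V3) (L : ℝ), IsDivFree vt → ‖vt‖ ≤ M → NcS σ → Anti σ → IsDivFree σ.l →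
    SupS a₀ σ → SupS1 (a₀ / √t) σ → Bd (Hh R σ) M → NrS M' σ → 0 ≤ L → Bd σ.l L →
    Stp N d η t R (bO (√t) (vt - Hh R σ)) (lO (√t) (vt - Hh R σ)) σ ∧
    ∀ s ∈ Ioc 0 d, Bd (nxt R η s (bO (√t) (vt - Hh R σ)) (lO (√t) (vt - Hh R σ)) σ).l L := by
  have hM0 : 0 < M := by linarith
  obtain ⟨c, hc, C, hC, hcf⟩ := hcf
  obtain ⟨Cc, hCc, hco⟩ := hco
  obtain ⟨Λ, hΛ⟩ : ∃ Λ, Λ = C * (M + 43 * M') * M ^ 3 := ⟨_, rfl⟩
  have hΛ0 : 0 < Λ := by
    rw [hΛ]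
    positivity
  obtain ⟨B, hB⟩ : ∃ B, B = Cc * (M + 43 * M') * M := ⟨_, rfl⟩
  have hB0 : 0 < B := by
    rw [hB]
    positivity
  obtain ⟨Cst, hCst, d₁, hd₁, hst⟩ := hst c Λ M η hc hΛ0 hM0 hη
  obtain ⟨N, hN⟩ : ∃ N, N = 1 + c + Λ + B + (a₀ + M ^ 2) + (a₀ * M + Cst * (a₀ + a₀ * M + 1)) +
    (M' + Cst * (M' + a₀ + a₀ * M + 1)) + 3 * M := ⟨_, rfl⟩
  have p1 : 0 < a₀ + M ^ 2 := by positivity
  have p2 : 0 < a₀ * M + Cst * (a₀ + a₀ * M + 1) := by positivity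
  have p3 : 0 < M' + Cst * (M' + a₀ + a₀ * M + 1) := by positivity
  have n1 : 1 ≤ N := by rw [hN]; linarith
  have n2 : 3 * M + 1 ≤ N := by rw [hN]; linarith
  have n3 : c ≤ N := by rw [hN]; linarith
  have n4 : Λ ≤ N := by rw [hN]; linarith
  have n5 : B ≤ N := by rw [hN]; linarith
  have n6 : a₀ + M ^ 2 ≤ N := by rw [hN]; linarith
  have n7 : a₀ * M + Cst * (a₀ + a₀ * M + 1) ≤ N := by rw [hN]; linarith
  have n8 : M' + Cst * (M' + a₀ + a₀ * M + 1) ≤ N := by rw [hN]; linarith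
  have hN0 : 0 < N := by linarith
  refine ⟨N, n1, n2, min d₁ (1 / N), lt_min hd₁ (one_div_pos.2 hN0), ?_⟩
  intro d hd hdd R hR t ht ht1 σ vt L hvt hvtM hnc hanti hldiv hsup hsup1 hbd hnr hL hl
  have hdd1 : d < d₁ := hdd.trans_le (min_le_left _ _)
  have hdN : d < 1 / N := hdd.trans_le (min_le_right _ _)
  have hdN' : d * N ≤ 1 := by
    rw [lt_div_iff₀ hN0] at hdN
    exact hdN.le
  have hd1 : d ≤ 1 := by
    have : d * 1 ≤ d * N := mul_le_mul_of_nonneg_left n1 hd.le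
    linarith
  have ht0 : 0 < t := lt_of_lt_of_le (one_div_pos.2 hM0) ht
  have hr0 : 0 < √t := Real.sqrt_pos.2 ht0
  have hr1 : √t ≤ 1 := Real.sqrt_le_one.2 ht1
  have hrM : 1 / M ≤ √t := inv_le_sqrt hM ht ht1
  have hir : 1 / √t ≤ M := by
    rw [div_le_iff₀ hM0] at hrM
    rw [div_le_iff₀ hr0]
    linarith
  obtain ⟨w₀, hw₀⟩ : ∃ w₀, w₀ = vt - Hh R σ := ⟨_, rfl⟩
  rw [← hw₀]
  have hwn : ‖w₀‖ ≤ M + 43 * M' := by
    rw [hw₀]
    exact (norm_sub_le _ _).trans (add_le_add hvtM (norm_Hh_le hR hnr))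
  have hdivH : IsDivFree (Hh R σ) := hdv R hR σ hnc hanti hldiv
  have hwdiv : IsDivFree w₀ := by
    rw [hw₀]
    exact isDivFree_sub hvt hdivH
  have hcoef := hcf (√t) hr0 hr1 w₀ hwdiv
  have hΛle : C * ‖w₀‖ / √t ^ 3 ≤ Λ := by
    rw [hΛ, div_eq_mul_one_div]
    have h1 : 1 / √t ^ 3 ≤ M ^ 3 := by
      rw [← one_div_pow]
      exact pow_le_pow_left₀ (by positivity) hir 3
    have h2 : 0 ≤ 1 / √t ^ 3 := by positivity
    gcongr
  have hcoefΛ : Coef c (√t) Λ (bO (√t) w₀) (lO (√t) w₀) := coef_mono hcoef hr0 le_rfl hΛle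
  have hcoefN : Coef N (√t) N (bO (√t) w₀) (lO (√t) w₀) := coef_mono hcoefΛ hr0 n3 n4
  have hcol : CoL N (bO (√t) w₀) (lO (√t) w₀) := by
    have hz : ∀ l : Fin 3, IsWeakDeriv l (0 : V3) 0 := by
      intro l φ
      rw [integral_inner_eq, integral_inner_eq]
      simp
    have h1 := (hco (√t) w₀ 0 (fun _ => 0) hr0 hr1 hz).2.2.1
    have h2 : Cc * ‖w₀‖ / √t ≤ B := by
      rw [hB, div_eq_mul_one_div]
      have h3 : 0 ≤ 1 / √t := by positivity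
      gcongr
    exact ⟨h1.mb, h1.ml, (h1.nb.trans h2).trans n5, (h1.nl.trans h2).trans n5⟩
  have haM : a₀ / √t ≤ a₀ * M := by
    rw [div_eq_mul_one_div]
    exact mul_le_mul_of_nonneg_left hir ha₀.le
  have hstep := fun (s : ℝ) (hs : s ∈ Ioc 0 d) => hst s hs.1 (hs.2.trans_lt hdd1) R hR (√t) _ _
    hrM hcoefΛ σ M' L a₀ (a₀ / √t) hnc hanti hldiv hbd hnr hL hl hsup hsup1
  have hs1 : ∀ s ∈ Ioc 0 d, s ≤ 1 := fun s hs => hs.2.trans hd1
  have hSs0 : ∀ s : ℝ, s ≤ 0 → Ss R η (bO (√t) w₀) (lO (√t) w₀) σ s = σ := fun s hs => by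
    rw [Ss, if_pos hs]
  have hSs1 : ∀ s : ℝ, 0 < s → Ss R η (bO (√t) w₀) (lO (√t) w₀) σ s =
      nxt R η s (bO (√t) w₀) (lO (√t) w₀) σ := fun s hs => by
    rw [Ss, if_neg (not_le.2 hs)]
  refine ⟨?_, fun s hs => (hstep s hs).2.2.2.1⟩
  refine
    { hR := hR
      hN := n1
      t1 := ht1
      tN := ?_
      hd := hd
      dN := hdN'
      hη := hη
      coef := hcoefN
      col := hcol
      nc := ?_
      dv := ?_
      sup := ?_
      sup1 := ?_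
      nr := ?_
      bd := ?_ }
  · refine le_trans ?_ ht
    exact one_div_le_one_div_of_le hM0 (by linarith)
  · intro s hs
    rcases hs.1.eq_or_lt with h | h
    · rw [hSs0 s h.symm.le]
      exact hnc
    · rw [hSs1 s h]
      exact (hstep s ⟨h, hs.2⟩).1
  · intro s hs
    unfold Us
    rcases hs.1.eq_or_lt with h | h
    · rw [hSs0 s h.symm.le]
      exact hdivH
    · rw [hSs1 s h]
      obtain ⟨g1, g2, g3, -⟩ := hstep s ⟨h, hs.2⟩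
      exact hdv R hR _ g1 g2 g3
  · intro s hs
    rcases hs.1.eq_or_lt with h | h
    · rw [hSs0 s h.symm.le]
      exact supS_mono hsup (by nlinarith [sq_nonneg M])
    · rw [hSs1 s h]
      refine supS_mono (hstep s ⟨h, hs.2⟩).2.2.2.2.1 (le_trans ?_ n6)
      have := mul_le_mul_of_nonneg_right (hs1 s ⟨h, hs.2⟩) (sq_nonneg M)
      linarith
  · intro s hs
    rcases hs.1.eq_or_lt with h | h
    · rw [hSs0 s h.symm.le]
      refine supS1_mono hsup1 (haM.trans (le_trans ?_ n7))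
      have : 0 < Cst * (a₀ + a₀ * M + 1) := by positivity
      linarith
    · rw [hSs1 s h]
      refine supS1_mono (hstep s ⟨h, hs.2⟩).2.2.2.2.2.1 (le_trans ?_ n7)
      have h1 : Cst * s * (a₀ + a₀ / √t + 1) ≤ Cst * 1 * (a₀ + a₀ * M + 1) := by
        have := hs1 s ⟨h, hs.2⟩
        gcongr
      linarith
  · intro s hs
    rcases hs.1.eq_or_lt with h | h
    · rw [hSs0 s h.symm.le]
      refine nrS_mono hnr (le_trans ?_ n8)
      have : 0 < Cst * (M' + a₀ + a₀ * M + 1) := by positivity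
      linarith
    · rw [hSs1 s h]
      refine nrS_mono (hstep s ⟨h, hs.2⟩).2.2.2.2.2.2 (le_trans ?_ n8)
      have h1 : Cst * s * (M' + a₀ + a₀ / √t + 1) ≤ Cst * 1 * (M' + a₀ + a₀ * M + 1) := by
        have := hs1 s ⟨h, hs.2⟩
        gcongr
      linarith
  · unfold Bd at *
    filter_upwards [hbd] with x hx
    linarith

/-- **Block R.** -/
theorem r_of (href : SpRef) (heq : SpEq) (hmod : SpMod) (hvt : SpVt) (hco : SpCo)
    (hcf : StCoef) (hdv : StDiv) (hst : StStep) : StR := by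
  obtain ⟨a₀, ha₀, C₀, hC₀, href⟩ := href
  refine ⟨a₀, ha₀, fun M hM0 => ?_⟩
  obtain ⟨M₁, hM₁⟩ : ∃ M₁, M₁ = 3 * M + 1 := ⟨_, rfl⟩
  have hM₁0 : 0 < M₁ := by
    rw [hM₁]
    positivity
  refine ⟨min 1 ((1 / (C₀ * M₁)) ^ 2), by positivity, 6 * C₀ * M₁ ^ 2, by positivity, ?_⟩
  intro η hη hη0 M' hM'
  have hη1 : η ≤ 1 := hη0.le.trans (min_le_left _ _)
  have hηs : C₀ * √η * M₁ ≤ 1 := by
    have h1 : √η ≤ 1 / (C₀ * M₁) := by
      rw [Real.sqrt_le_left (by positivity)]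
      exact hη0.le.trans (min_le_right _ _)
    calc C₀ * √η * M₁ ≤ C₀ * (1 / (C₀ * M₁)) * M₁ := by gcongr
      _ = 1 := by field_simp
  by_cases hM : 1 ≤ M
  swap
  · refine ⟨1, one_pos, 1, one_pos, ?_⟩
    intro d _ _ R _ T u₀ v Dv _ _ t L h1 h2
    exfalso
    apply hM
    have := h1.trans h2
    rwa [div_le_one hM0] at this
  obtain ⟨N, hN1, hN2, d₁, hd₁, hstp⟩ := stp_of hco hcf hdv hst ha₀ hM hη hM'
  have hN0 : 0 < N := by linarith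
  obtain ⟨Cr, hCr, href⟩ := href N hN1
  obtain ⟨Cm, hCm, hmod⟩ := hmod N hN1
  obtain ⟨Cv, hCv, hvt⟩ := hvt M hM0
  refine ⟨6 * Cr * (1 + 12 * (Cv ^ 2 + 49 * N ^ 2 * Cm ^ 2)), by positivity,
    min (min d₁ (1 / Cm ^ 4)) (min 1 (1 / (4 * M ^ 2))), by positivity, ?_⟩
  intro d hd hdd R hR T u₀ v Dv hLG hu₀ t L ht ht1 htT hL hLM σ hnc hanti hldiv hsup hsup1 hbd
    hl hnr
  have hdd1 : d < d₁ := hdd.trans_le ((min_le_left _ _).trans (min_le_left _ _))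
  have hdd2 : d ≤ 1 / Cm ^ 4 := hdd.le.trans ((min_le_left _ _).trans (min_le_right _ _))
  have hdd3 : d ≤ 1 := hdd.le.trans ((min_le_right _ _).trans (min_le_left _ _))
  have hdd4 : d ≤ 1 / (4 * M ^ 2) := hdd.le.trans ((min_le_right _ _).trans (min_le_right _ _))
  have ht0 : 0 < t := lt_of_lt_of_le (one_div_pos.2 hM0) ht
  have hr0 : 0 < √t := Real.sqrt_pos.2 ht0
  have htI : t ∈ Ico 0 T := ⟨ht0.le, by linarith⟩
  have hvM : ‖v t‖ ≤ M := (hLG.hv.norm_le htI).trans hu₀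
  obtain ⟨hS, hSl⟩ := hstp d hd hdd1 R hR t ht ht1 σ (v t) L (hLG.hv.div t htI) hvM hnc hanti
    hldiv hsup hsup1 hbd hnr hL hl
  obtain ⟨w₀, hw₀⟩ : ∃ w₀, w₀ = v t - Hh R σ := ⟨_, rfl⟩
  rw [← hw₀] at hS hSl ⊢
  obtain ⟨hUc, hKc, hm⟩ := hmod d η t R _ _ σ hS
  have hUs0 : Us R η (bO (√t) w₀) (lO (√t) w₀) σ 0 = Hh R σ := by
    rw [Us, Ss, if_pos le_rfl]
  have hUsd : Us R η (bO (√t) w₀) (lO (√t) w₀) σ d =
      Hh R (nxt R η d (bO (√t) w₀) (lO (√t) w₀) σ) := by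
    rw [Us, Ss, if_neg (not_le.2 hd)]
  -- sup bound of the interpolated field
  have hq : ∀ s ∈ Icc 0 d, Cm * √(√s) ≤ 1 := by
    intro s hs
    have h1 : √(√s) ≤ 1 / Cm := by
      rw [Real.sqrt_le_left (by positivity), Real.sqrt_le_left (by positivity)]
      calc s ≤ d := hs.2
        _ ≤ 1 / Cm ^ 4 := hdd2
        _ = ((1 / Cm) ^ 2) ^ 2 := by
          rw [← pow_mul, one_div_pow]
    calc Cm * √(√s) ≤ Cm * (1 / Cm) := mul_le_mul_of_nonneg_left h1 hCm.le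
      _ = 1 := by field_simp
  have hHpσ : Bd (Hp R σ) (M + L) := by
    have h1 : Hp R σ = Hh R σ + -σ.l := by
      rw [Hh_eq]
      abel
    rw [h1]
    refine bd_add hbd ?_
    unfold Bd at *
    filter_upwards [hl, Lp.coeFn_neg σ.l] with x g1 g2
    rw [g2, Pi.neg_apply, norm_neg]
    exact g1
  have hb : ∀ s ∈ Icc 0 d, Bd (Us R η (bO (√t) w₀) (lO (√t) w₀) σ s) M₁ := by
    intro s hs
    rcases hs.1.eq_or_lt with h | h
    · rw [← h, hUs0]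
      unfold Bd at *
      filter_upwards [hbd] with x hx
      rw [hM₁]
      linarith
    · have h2 := (hm s hs).2.1
      have h3 : Us R η (bO (√t) w₀) (lO (√t) w₀) σ s =
          (Hp R (Ss R η (bO (√t) w₀) (lO (√t) w₀) σ s) - Hp R σ) + Hp R σ +
            (nxt R η s (bO (√t) w₀) (lO (√t) w₀) σ).l := by
        rw [Us, Hh_eq, Ss, if_neg (not_le.2 h)]
        abel
      rw [h3]
      have h4 := bd_add (bd_add h2 hHpσ) (hSl s ⟨h, hs.2⟩)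
      unfold Bd at h4 ⊢
      filter_upwards [h4] with x hx
      have := hq s hs
      rw [hM₁]
      linarith
  have hex : ∀ s : ℝ, ∃ DU : Fin 3 → V3, s ∈ Icc 0 d →
      ∀ k, IsWeakDeriv k (Us R η (bO (√t) w₀) (lO (√t) w₀) σ s) (DU k) ∧ ‖DU k‖ ≤ Cm := by
    intro s
    by_cases hs : s ∈ Icc 0 d
    · obtain ⟨-, -, -, -, DU, h5⟩ := hm s hs
      exact ⟨DU, fun _ => h5⟩
    · exact ⟨0, fun h => absurd h hs⟩
  choose DU hDU using hex
  have P := relF_of heq hS hLG htT hUc hKc (fun s hs => (hm s hs).2.2.1)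
    (fun s hs => (hm s ⟨hs.1.le, hs.2⟩).2.2.2.1 hs.1) hb hDU
  obtain ⟨I, hI⟩ : ∃ I, I = ∫ τ in Ioo t (t + d), ∑ k, ‖Dv τ k‖ ^ 2 := ⟨_, rfl⟩
  have hI0 : 0 ≤ I := by
    rw [hI]
    exact integral_nonneg fun τ => Finset.sum_nonneg fun k _ => sq_nonneg _
  obtain ⟨δ, hδ⟩ : ∃ δ, δ = Cv * (√d * √I + d) + 7 * N * (Cm * √(√d)) := ⟨_, rfl⟩
  have hrN : 1 / √t ≤ N := by
    have h1 := inv_le_sqrt hM ht ht1
    rw [div_le_iff₀ hM0] at h1
    rw [div_le_iff₀ hr0]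
    have h2 : √t * M ≤ N * √t := by
      rw [mul_comm N]
      exact mul_le_mul_of_nonneg_left (by linarith) hr0.le
    linarith
  have hIi : IntegrableOn (fun τ => ∑ k, ‖Dv τ k‖ ^ 2) (Ioo t (t + d)) volume :=
    (hLG.int (t + d) ⟨by linarith, htT⟩).mono_set (Ioo_subset_Ioo ht0.le le_rfl)
  have hci : IntegrableOn (fun _ : ℝ => Cr * (√d + 4 * δ ^ 2)) (Ioo t (t + d)) volume :=
    integrable_const _
  have hcs : IntegrableOn (fun τ => C₀ * M₁ ^ 2 * η * (∑ k, ‖Dv τ k‖ ^ 2) +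
      Cr * (√d + 4 * δ ^ 2)) (Ioo t (t + d)) volume :=
    (hIi.const_mul (C₀ * M₁ ^ 2 * η)).add hci
  have hvw : v t = w₀ + Hh R σ := by
    rw [hw₀, sub_add_cancel]
  have key := P.gron (by linarith) (K := 2 * L ^ 2) (by positivity)
    (ε := fun τ => C₀ * M₁ ^ 2 * η * (∑ k, ‖Dv τ k‖ ^ 2) + Cr * (√d + 4 * δ ^ 2))
    (fun τ => by
      have : 0 ≤ ∑ k, ‖Dv τ k‖ ^ 2 := Finset.sum_nonneg fun k _ => sq_nonneg _
      positivity)
    hcs (by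
      have hsubT : Ioo t (t + d) ⊆ Ioo 0 T := Ioo_subset_Ioo ht0.le htT.le
      filter_upwards [ae_restrict_of_ae_restrict_of_subset hsubT hLG.weak,
        ae_restrict_mem measurableSet_Ioo] with τ h1 h2
      have hs : τ - t ∈ Ioc 0 d := ⟨by linarith [h2.1], by linarith [h2.2]⟩
      have hsI : τ - t ∈ Icc 0 d := ⟨hs.1.le, hs.2⟩
      have hτT : τ ∈ Ico 0 T := ⟨ht0.le.trans h2.1.le, h2.2.trans htT⟩
      have h3 := href a₀ M₁ L d η t R σ w₀ (v τ) (Dv τ) (DU (τ - t)) hS hL hM₁0.le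
        (by rw [hM₁]; exact hN2) le_rfl hsup hsup1 hηs (τ - t) hs (hSl _ hs) (hb _ hsI)
        (by
          have := hb 0 ⟨le_rfl, hd.le⟩
          rwa [hUs0] at this) (hLG.hv.div τ hτT)
        ((hLG.hv.norm_le hτT).trans (hu₀.trans (by linarith))) h1 (fun k => (hDU _ hsI k).1)
      refine h3.trans ?_
      have hz : v τ - Us R η (bO (√t) w₀) (lO (√t) w₀) σ (τ - t) - w₀ =
          (v τ - v t) - (Us R η (bO (√t) w₀) (lO (√t) w₀) σ (τ - t) -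
            Us R η (bO (√t) w₀) (lO (√t) w₀) σ 0) := by
        rw [hUs0, hvw]
        abel
      obtain ⟨v1, v2⟩ := hvt T u₀ v Dv hLG hu₀ t d ht ht1 hd hdd3 htT τ
        ⟨h2.1.le, h2.2.le⟩
      rw [← hI] at v1 v2
      have hu1 : ‖Us R η (bO (√t) w₀) (lO (√t) w₀) σ (τ - t) -
            Us R η (bO (√t) w₀) (lO (√t) w₀) σ 0‖ ≤ Cm * √(√d) := by
        refine (hm _ hsI).1.trans ?_
        have : √(√(τ - t)) ≤ √(√d) := Real.sqrt_le_sqrt (Real.sqrt_le_sqrt hs.2)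
        exact mul_le_mul_of_nonneg_left this hCm.le
      have hq0 : 0 ≤ Cm * √(√d) := by positivity
      have b1 : ‖cvO (et0 (√t)) (v τ - Us R η (bO (√t) w₀) (lO (√t) w₀) σ (τ - t) - w₀)‖ ≤ δ := by
        rw [hz, map_sub, hδ]
        refine (norm_sub_le _ _).trans (add_le_add v1 ?_)
        have h4 := norm_cvO_le (kk_et0 hr0) (Us R η (bO (√t) w₀) (lO (√t) w₀) σ (τ - t) -
            Us R η (bO (√t) w₀) (lO (√t) w₀) σ 0)
        rw [one_mul] at h4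
        refine (h4.trans hu1).trans ?_
        have h5 : 1 ≤ 7 * N := by linarith
        exact le_mul_of_one_le_left hq0 h5
      have b2 : ∀ i, ‖cvO (pd i (et0 (√t))) (v τ - Us R η (bO (√t) w₀) (lO (√t) w₀) σ (τ - t) -
          w₀)‖ ≤ δ := by
        intro i
        rw [hz, map_sub, hδ]
        refine (norm_sub_le _ _).trans (add_le_add (v2 i) ?_)
        refine (norm_cvO_le (EIn.kk1 hr0 i) _).trans ?_
        have h5 : 7 / √t ≤ 7 * N := by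
          rw [div_eq_mul_one_div]
          exact mul_le_mul_of_nonneg_left hrN (by norm_num)
        exact mul_le_mul h5 hu1 (norm_nonneg _) (by positivity)
      have c1 := pow_le_pow_left₀ (norm_nonneg _) b1 2
      have c2 : ∑ i, ‖cvO (pd i (et0 (√t))) (v τ - Us R η (bO (√t) w₀) (lO (√t) w₀) σ (τ - t) -
          w₀)‖ ^ 2 ≤ 3 * δ ^ 2 := by
        calc _ ≤ ∑ _i : Fin 3, δ ^ 2 := Finset.sum_le_sum fun i _ =>
              pow_le_pow_left₀ (norm_nonneg _) (b2 i) 2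
          _ = _ := by
              rw [Finset.sum_const, Finset.card_univ, Fintype.card_fin]
              simp
      have c3 : √(τ - t) ≤ √d := Real.sqrt_le_sqrt hs.2
      have c4 : √(τ - t) + ‖cvO (et0 (√t)) (v τ - Us R η (bO (√t) w₀) (lO (√t) w₀) σ (τ - t) -
          w₀)‖ ^ 2 + ∑ i, ‖cvO (pd i (et0 (√t))) (v τ - Us R η (bO (√t) w₀) (lO (√t) w₀) σ
            (τ - t) - w₀)‖ ^ 2 ≤ √d + 4 * δ ^ 2 := by linarith
      have c5 := mul_le_mul_of_nonneg_left c4 hCr.le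
      linarith)
  have hPhi0 : RE u₀ (fun τ => Us R η (bO (√t) w₀) (lO (√t) w₀) σ (τ - t)) v Dv t =
      Phi u₀ v Dv t (Hh R σ) := by
    unfold RE Phi
    beta_reduce
    rw [sub_self, hUs0, norm_sub_sq_real]
    ring
  have hPhi1 : RE u₀ (fun τ => Us R η (bO (√t) w₀) (lO (√t) w₀) σ (τ - t)) v Dv (t + d) =
      Phi u₀ v Dv (t + d) (Hh R (nxt R η d (bO (√t) w₀) (lO (√t) w₀) σ)) := by
    unfold RE Phi
    beta_reduce
    rw [add_sub_cancel_left, hUsd, norm_sub_sq_real]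
    ring
  have hpos := P.le_RE (t := t) le_rfl (by linarith)
  rw [hPhi0] at hpos
  rw [hPhi0, hPhi1, add_sub_cancel_left] at key
  have hd2 : √d ^ 2 = d := Real.sq_sqrt hd.le
  have hd4 : √(√d) ^ 2 = √d := Real.sq_sqrt (Real.sqrt_nonneg _)
  have hIs : √I ^ 2 = I := Real.sq_sqrt hI0
  have hdsd : d ≤ √d := by
    apply Real.le_sqrt_of_sq_le
    nlinarith
  have hδ2 : δ ^ 2 ≤ 3 * (Cv ^ 2 * d * I + (Cv ^ 2 + 49 * N ^ 2 * Cm ^ 2) * √d) := by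
    have h1 : δ ^ 2 ≤ 3 * ((Cv * (√d * √I)) ^ 2 + (Cv * d) ^ 2 +
        (7 * N * (Cm * √(√d))) ^ 2) := by
      rw [hδ]
      nlinarith [sq_nonneg (Cv * (√d * √I) - Cv * d),
        sq_nonneg (Cv * (√d * √I) - 7 * N * (Cm * √(√d))),
        sq_nonneg (Cv * d - 7 * N * (Cm * √(√d)))]
    have h2 : (Cv * (√d * √I)) ^ 2 = Cv ^ 2 * d * I := by
      rw [mul_pow, mul_pow, hd2, hIs]
      ring
    have h3 : (7 * N * (Cm * √(√d))) ^ 2 = 49 * N ^ 2 * Cm ^ 2 * √d := by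
      rw [mul_pow, mul_pow, mul_pow, hd4]
      ring
    have h4 : (Cv * d) ^ 2 ≤ Cv ^ 2 * √d := by
      rw [mul_pow]
      apply mul_le_mul_of_nonneg_left _ (sq_nonneg _)
      nlinarith
    rw [h2, h3] at h1
    linarith
  have hfin := last (Φ₀ := Phi u₀ v Dv t (Hh R σ)) (I := I) (L := L) (M := M) (d := d) (η := η)
    (sd := √d) (se := √η) (C₀ := C₀) (M₁ := M₁) (Cr := Cr) (Cv := Cv) (N := N) (Cm := Cm)
    (δ := δ) ((sq_nonneg _).trans hpos) hI0 hd hL hLM (by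
      rw [le_div_iff₀ (by positivity)] at hdd4
      linarith) hη.le (by
      apply Real.le_sqrt_of_sq_le
      nlinarith) (Real.sqrt_nonneg _) hdsd hC₀.le hCr.le hδ2 (by
      rw [integral_add (hIi.const_mul _) hci, integral_const_mul, ← hI]
      simp [hd.le]) key
  rw [hI] at hfin
  refine hfin.trans (le_of_eq ?_)
  ring

end Pool.Agent.TF
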