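import Pool.Agent.TF.R.Sp
import Pool.Agent.TF.E.Src
import Pool.Agent.TF.E.Div

/-!
# Block R, row RA6: the modulus of continuity of the interpolated field
-/

set_option autoImplicit false

namespace Pool.Agent.TF

open MeasureTheory Set Filter Topology Pool.Agent.TO Pool.Agent.TB Pool.Agent.TC Pool.Agent.TP
open scoped ENNReal NNReal Real InnerProductSpace SchwartzMap LineDeriv Laplacian

namespace ModR

/-! ### differences of nice functions -/

variable {f g : E3 → E3}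

theorem nc_sub (hf : Nc f) (hg : Nc g) : Nc fun x => f x - g x := by
  have h := nc_add hf (nc_neg hg)
  simpa only [← sub_eq_add_neg] using h

theorem pd_neg_nc (hf : Nc f) (i : Fin 3) : pd i (fun x => -f x) = fun x => -pd i f x := by
  have h := pd_smul_nc (-1) hf i
  simpa using h

theorem pd_sub_nc (hf : Nc f) (hg : Nc g) (i : Fin 3) :
    pd i (fun x => f x - g x) = fun x => pd i f x - pd i g x := by
  have h := pd_add_nc hf (nc_neg hg) i
  rw [pd_neg_nc hg] at h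
  simpa only [← sub_eq_add_neg] using h

theorem pd_pd_sub_nc (hf : Nc f) (hg : Nc g) (i j : Fin 3) :
    pd i (pd j (fun x => f x - g x)) = fun x => pd i (pd j f) x - pd i (pd j g) x := by
  have h := pd_pd_add_nc hf (nc_neg hg) i j
  have h2 : pd i (pd j fun x => -g x) = fun x => -pd i (pd j g) x := by
    have h3 := pd_pd_smul_nc (-1) hg i j
    simpa using h3
  rw [h2] at h
  simpa only [← sub_eq_add_neg] using h

theorem vL_pd_sub (hf : Nc f) (hg : Nc g) (i : Fin 3) :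
    vL (pd i fun x => f x - g x) = vL (pd i f) - vL (pd i g) := by
  rw [pd_sub_nc hf hg, vL_sub (hf.m1 i) (hg.m1 i)]

theorem weak_nc (h0 : SpWk) (hf : Nc f) (k : Fin 3) : IsWeakDeriv k (vL f) (vL (pd k f)) :=
  h0 k f hf.c1 hf.m0 (hf.m1 k)

theorem weak_pd_nc (h0 : SpWk) (hf : Nc f) (k l : Fin 3) :
    IsWeakDeriv k (vL (pd l f)) (vL (pd k (pd l f))) :=
  h0 k (pd l f) (hf.pc l) (hf.m1 l) (hf.m2 k l)

/-- interpolation -/
theorem interp (h0 : SpWk) (hf : Nc f) (k : Fin 3) :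
    ‖vL (pd k f)‖ ^ 2 ≤ ‖vL f‖ * ‖vL (pd k (pd k f))‖ := by
  have h1 := weak_parts (f := vL f) (g := vL (pd k f)) (df := fun l => vL (pd l f))
    (dg := fun l => vL (pd l (pd k f))) (fun l => weak_nc h0 hf l) (k := k)
    (weak_pd_nc h0 hf k k)
  rw [real_inner_self_eq_norm_sq] at h1
  rw [h1]
  calc -⟪vL f, vL (pd k (pd k f))⟫_ℝ ≤ |⟪vL f, vL (pd k (pd k f))⟫_ℝ| := neg_le_abs _
    _ ≤ _ := abs_real_inner_le_norm _ _

/-- the derivative of a difference is small in `L²` if the difference is -/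
theorem interp_sub (h0 : SpWk) (hf : Nc f) (hg : Nc g) {N e : ℝ} (k : Fin 3)
    (hf2 : ‖vL (pd k (pd k f))‖ ≤ N) (hg2 : ‖vL (pd k (pd k g))‖ ≤ N)
    (he : ‖vL f - vL g‖ ≤ e) :
    ‖vL (pd k f) - vL (pd k g)‖ ≤ √(e * (2 * N)) := by
  have h1 := interp h0 (nc_sub hf hg) k
  rw [vL_pd_sub hf hg, vL_sub hf.m0 hg.m0, pd_pd_sub_nc hf hg, vL_sub (hf.m2 k k) (hg.m2 k k)] at h1
  apply Real.le_sqrt_of_sq_le
  refine h1.trans ?_
  have h2 : ‖vL (pd k (pd k f)) - vL (pd k (pd k g))‖ ≤ 2 * N := by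
    refine (norm_sub_le _ _).trans ?_
    linarith
  exact mul_le_mul he h2 (norm_nonneg _) ((norm_nonneg _).trans he)

/-! ### the heat semigroup applied to continuous curves -/

theorem heat_cont (h2 : SpHt) (h3 : SpHd) {F : ℝ → V3} {S : Set ℝ} (hS : S ⊆ Ioi 0)
    (hF : ContinuousOn F S) : ContinuousOn (fun s => cvO (hk s) (F s)) S := by
  obtain ⟨C, -, -, hc, -⟩ := h2
  intro s₀ hs₀
  have e1 : Tendsto (fun s => ‖F s - F s₀‖) (𝓝[S] s₀) (𝓝 0) :=
    tendsto_iff_norm_sub_tendsto_zero.1 (hF s₀ hs₀)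
  have e2 : Tendsto (fun s => ‖cvO (hk s) (F s₀) - cvO (hk s₀) (F s₀)‖) (𝓝[S] s₀) (𝓝 0) :=
    tendsto_iff_norm_sub_tendsto_zero.1 (((h3.2 (F s₀)) s₀ (hS hs₀)).mono hS)
  have e3 := e1.add e2
  rw [add_zero] at e3
  apply tendsto_iff_norm_sub_tendsto_zero.2
  refine squeeze_zero' (Eventually.of_forall fun _ => norm_nonneg _) ?_ e3
  filter_upwards [self_mem_nhdsWithin] with s hs
  have e4 : cvO (hk s) (F s) - cvO (hk s₀) (F s₀) =
      cvO (hk s) (F s - F s₀) + (cvO (hk s) (F s₀) - cvO (hk s₀) (F s₀)) := by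
    rw [map_sub]
    abel
  rw [e4]
  refine (norm_add_le _ _).trans ?_
  gcongr
  exact hc s (hS hs) _

/-! ### one potential -/

/-- the interpolated potential -/
noncomputable def Fs (b : E3 → E3) (lam : E3 → ℝ) (f S : E3 → E3) (s : ℝ) : E3 → E3 := by
  classical
  exact if s ≤ 0 then f else heat s (fun x => Jst s b lam f x + s • S x)

theorem Fs_zero (b : E3 → E3) (lam : E3 → ℝ) (f S : E3 → E3) {s : ℝ} (hs : s ≤ 0) :
    Fs b lam f S s = f := by
  unfold Fs
  rw [if_pos hs]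

theorem Fs_pos (b : E3 → E3) (lam : E3 → ℝ) (f S : E3 → E3) {s : ℝ} (hs : 0 < s) :
    Fs b lam f S s = heat s (fun x => Jst s b lam f x + s • S x) := by
  unfold Fs
  rw [if_neg (not_le.2 hs)]

/-- the hypotheses on one potential -/
structure Pot (N N' d r : ℝ) (b : E3 → E3) (lam : E3 → ℝ) (f S : E3 → E3) : Prop where
  hN : 1 ≤ N
  hN' : 0 ≤ N'
  hd : 0 < d
  dN : d * N ≤ 1
  coef : Coef N r N b lam
  col : CoL N b lam
  fb : Fb N N N f
  nc : ∀ s ∈ Icc 0 d, Nc (Fs b lam f S s)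
  t1 : ∀ i, ‖vL (pd i f)‖ ≤ N
  t2 : ∀ s ∈ Icc 0 d, ∀ i j, ‖vL (pd i (pd j (Fs b lam f S s)))‖ ≤ N
  s2 : ∀ s ∈ Icc 0 d, ∀ i j x, ‖pd i (pd j (Fs b lam f S s)) x‖ ≤ N
  sc : Continuous S
  sm : MemLp S 2 (volume : Measure E3)
  s0 : ∀ x, ‖S x‖ ≤ N'
  sn : ‖vL S‖ ≤ N'

section pot

variable {N N' d r : ℝ} {b : E3 → E3} {lam : E3 → ℝ} {f S : E3 → E3}

theorem Pot.d1 (P : Pot N N' d r b lam f S) : d ≤ 1 := by
  have h1 := P.dN
  have h2 := P.hN
  have h3 := P.hd
  nlinarith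

theorem sqrt_three (N : ℝ) (hN : 0 ≤ N) (x : Fin 3 → V3) (hx : ∀ k, ‖x k‖ ≤ N) :
    √(∑ k, ‖x k‖ ^ 2) ≤ 2 * N := by
  rw [Real.sqrt_le_left (by positivity)]
  calc ∑ k, ‖x k‖ ^ 2 ≤ ∑ _k : Fin 3, N ^ 2 :=
        Finset.sum_le_sum fun k _ => pow_le_pow_left₀ (norm_nonneg _) (hx k) 2
    _ = 3 * N ^ 2 := by
        rw [Finset.sum_const, Finset.card_univ, Fintype.card_fin, nsmul_eq_mul]
        norm_num
    _ ≤ (2 * N) ^ 2 := by nlinarith [sq_nonneg N]

theorem le_sqrt_self' {s : ℝ} (h0 : 0 ≤ s) (h1 : s ≤ 1) : s ≤ √s := by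
  apply Real.le_sqrt_of_sq_le
  nlinarith

/-- the potential in `L²` -/
theorem Pot.vL_eq (h1 : SpJd) (P : Pot N N' d r b lam f S) {s : ℝ} (hs : 0 < s) (hsd : s ≤ d) :
    vL (Fs b lam f S s) = cvO (hk s) (vL (Jst s b lam f) + s • vL S) := by
  obtain ⟨CJ, -, h1⟩ := h1
  obtain ⟨j1, -⟩ := h1 N r N N N N N d b lam f P.coef P.col P.fb P.hd P.dN
  obtain ⟨c1, m1, -⟩ := j1 s ⟨hs.le, hsd⟩
  have hc : Continuous fun x => Jst s b lam f x + s • S x := c1.add (P.sc.const_smul s)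
  have hm : MemLp (fun x => s • S x) 2 (volume : Measure E3) := P.sm.const_smul s
  rw [Fs_pos b lam f S hs, heat_eq_cvf, vL_cvf (kk_hk hs) hc.stronglyMeasurable (m1.add hm),
    vL_add m1 hm, vL_smul s P.sm]

/-- the modulus of continuity of the potential at `0` -/
theorem pot_bounds (h0 : SpWk) (h1 : SpJd) (h2 : SpHt) (N N' : ℝ) (hN : 1 ≤ N) (hN' : 0 ≤ N') :
    ∃ C > 0, ∀ (d r : ℝ) (b : E3 → E3) (lam : E3 → ℝ) (f S : E3 → E3),
      Pot N N' d r b lam f S → ∀ s ∈ Icc 0 d,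
      ‖vL (Fs b lam f S s) - vL f‖ ≤ C * √s ∧ ∀ x, ‖Fs b lam f S s x - f x‖ ≤ C * √s := by
  have h1' := h1
  obtain ⟨CJ, hCJ, h1⟩ := h1
  obtain ⟨CH, hCH, -, hc, hw, -, hsup⟩ := h2
  refine ⟨2 * CJ * N ^ 2 + 2 * CH * N + N', by positivity, ?_⟩
  intro d r b lam f S P s hs
  have hNN : (0:ℝ) ≤ N := by linarith
  rcases hs.1.eq_or_lt with h | hs0
  · subst h
    rw [Fs_zero b lam f S le_rfl]
    simp
  have hs1 : s ≤ 1 := hs.2.trans P.d1
  have hss : s ≤ √s := le_sqrt_self' hs.1 hs1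
  obtain ⟨j1, -⟩ := h1 N r N N N N N d b lam f P.coef P.col P.fb P.hd P.dN
  obtain ⟨c1, m1, -, -, -, k1, k2, -⟩ := j1 s hs
  constructor
  · rw [P.vL_eq h1' hs0 hs.2]
    have e : cvO (hk s) (vL (Jst s b lam f) + s • vL S) - vL f =
        cvO (hk s) (vL (Jst s b lam f) - vL f) + (cvO (hk s) (vL f) - vL f) +
          s • cvO (hk s) (vL S) := by
      rw [map_add, map_sub, map_smul]
      abel
    rw [e]
    have b1 : ‖cvO (hk s) (vL (Jst s b lam f) - vL f)‖ ≤ CJ * N * (N + N) * s :=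
      (hc s hs0 _).trans k1
    have b2 : ‖cvO (hk s) (vL f) - vL f‖ ≤ CH * √s * (2 * N) := by
      refine (hw s hs0 (vL f) (fun k => vL (pd k f)) fun k => weak_nc h0 P.fb.nc k).trans ?_
      exact mul_le_mul_of_nonneg_left (sqrt_three N hNN _ P.t1) (by positivity)
    have b3 : ‖s • cvO (hk s) (vL S)‖ ≤ s * N' := by
      rw [norm_smul, Real.norm_of_nonneg hs.1]
      exact mul_le_mul_of_nonneg_left ((hc s hs0 _).trans P.sn) hs.1
    have b4 : CJ * N * (N + N) * s ≤ CJ * N * (N + N) * √s :=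
      mul_le_mul_of_nonneg_left hss (by positivity)
    have b5 : s * N' ≤ √s * N' := mul_le_mul_of_nonneg_right hss hN'
    calc _ ≤ _ := norm_add₃_le
      _ ≤ CJ * N * (N + N) * √s + CH * √s * (2 * N) + √s * N' := by linarith
      _ = _ := by ring
  · intro x
    rw [Fs_pos b lam f S hs0]
    have hcont : Continuous fun x => Jst s b lam f x + s • S x := c1.add (P.sc.const_smul s)
    have hfc : Continuous f := P.fb.nc.cont
    have hbd : ∀ y, ‖Jst s b lam f y + s • S y - f y‖ ≤ CJ * N * (N + N) * s + s * N' := by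
      intro y
      have e : Jst s b lam f y + s • S y - f y = (Jst s b lam f y - f y) + s • S y := by abel
      rw [e]
      refine (norm_add_le _ _).trans (add_le_add (k2 y) ?_)
      rw [norm_smul, Real.norm_of_nonneg hs.1]
      exact mul_le_mul_of_nonneg_left (P.s0 y) hs.1
    have hbd2 : ∀ y, ‖Jst s b lam f y + s • S y‖ ≤ (CJ * N * (N + N) * s + s * N') + N := by
      intro y
      have e : Jst s b lam f y + s • S y = (Jst s b lam f y + s • S y - f y) + f y := by abel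
      rw [e]
      exact (norm_add_le _ _).trans (add_le_add (hbd y) (P.fb.f0 y))
    have e1 : heat s (fun x => Jst s b lam f x + s • S x) x - heat s f x =
        cvf (hk s) (fun x => Jst s b lam f x + s • S x - f x) x := by
      rw [heat_eq_cvf, heat_eq_cvf]
      unfold cvf
      rw [← integral_sub (integrable_cvf_bdd (integrable_hk hs0) hcont hbd2 x)
        (integrable_cvf_bdd (integrable_hk hs0) hfc P.fb.f0 x)]
      apply integral_congr_ae
      refine Eventually.of_forall fun y => ?_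
      simp only
      rw [← smul_sub]
    have e2 : heat s (fun x => Jst s b lam f x + s • S x) x - f x =
        (heat s (fun x => Jst s b lam f x + s • S x) x - heat s f x) + (heat s f x - f x) := by
      abel
    rw [e2, e1]
    have b1 := norm_cvf_le_sup (kk_hk hs0) hbd x
    rw [one_mul] at b1
    have b2 := hsup s hs0 f N N P.fb.nc.c1 P.fb.f0 P.fb.f1 x
    have b4 : CJ * N * (N + N) * s ≤ CJ * N * (N + N) * √s :=
      mul_le_mul_of_nonneg_left hss (by positivity)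
    have b5 : s * N' ≤ √s * N' := mul_le_mul_of_nonneg_right hss hN'
    have b6 : 0 ≤ CH * √s * N := by positivity
    calc _ ≤ _ := norm_add_le _ _
      _ ≤ CJ * N * (N + N) * √s + CH * √s * (2 * N) + √s * N' := by linarith
      _ = _ := by ring

/-- continuity of the potential in `L²` -/
theorem pot_cont (h0 : SpWk) (h1 : SpJd) (h2 : SpHt) (h3 : SpHd) (P : Pot N N' d r b lam f S) :
    ContinuousOn (fun s => vL (Fs b lam f S s)) (Icc 0 d) := by
  obtain ⟨C, hC, hb⟩ := pot_bounds h0 h1 h2 N N' P.hN P.hN'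
  have h1' := h1
  obtain ⟨CJ, hCJ, h1⟩ := h1
  obtain ⟨j1, -⟩ := h1 N r N N N N N d b lam f P.coef P.col P.fb P.hd P.dN
  have hJ : ContinuousOn (fun s => vL (Jst s b lam f)) (Icc 0 d) := fun s hs =>
    (j1 s hs).2.2.2.2.2.2.2.continuousWithinAt
  have hpos : ContinuousOn (fun s => vL (Fs b lam f S s)) (Ioc 0 d) := by
    have hF : ContinuousOn (fun s => vL (Jst s b lam f) + s • vL S) (Ioc 0 d) :=
      (hJ.mono Ioc_subset_Icc_self).add (continuousOn_id.smul continuousOn_const)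
    refine (heat_cont h2 h3 (fun s hs => hs.1) hF).congr fun s hs => ?_
    exact P.vL_eq h1' hs.1 hs.2
  intro s hs
  rcases hs.1.eq_or_lt with h | hs0
  · subst h
    apply tendsto_iff_norm_sub_tendsto_zero.2
    show Tendsto (fun e => ‖vL (Fs b lam f S e) - vL (Fs b lam f S 0)‖) (𝓝[Icc 0 d] 0) (𝓝 0)
    rw [Fs_zero b lam f S le_rfl]
    have h4 : Tendsto (fun s => C * √s) (𝓝[Icc 0 d] 0) (𝓝 0) := by
      have h5 : Continuous fun s : ℝ => C * √s := continuous_const.mul Real.continuous_sqrt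
      have h6 := (h5.tendsto 0).mono_left (nhdsWithin_le_nhds (s := Icc 0 d))
      simpa using h6
    refine squeeze_zero' (Eventually.of_forall fun _ => norm_nonneg _) ?_ h4
    filter_upwards [self_mem_nhdsWithin] with s hs
    exact (hb d r b lam f S P s hs).1
  · refine (hpos s ⟨hs0, hs.2⟩).mono_of_mem_nhdsWithin ?_
    have : Icc 0 d ∩ Ioi 0 ⊆ Ioc 0 d := fun x hx => ⟨hx.2, hx.1.2⟩
    exact Filter.mem_of_superset (inter_mem self_mem_nhdsWithin
      (mem_nhdsWithin_of_mem_nhds (Ioi_mem_nhds hs0))) this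

/-- the derivatives of the potential are continuous in `L²` -/
theorem pot_cont_pd (h0 : SpWk) (h1 : SpJd) (h2 : SpHt) (h3 : SpHd)
    (P : Pot N N' d r b lam f S) (k : Fin 3) :
    ContinuousOn (fun s => vL (pd k (Fs b lam f S s))) (Icc 0 d) := by
  intro s hs
  have h5 := tendsto_iff_norm_sub_tendsto_zero.1 (pot_cont h0 h1 h2 h3 P s hs)
  have h6 : Tendsto (fun s' => √(‖vL (Fs b lam f S s') - vL (Fs b lam f S s)‖ * (2 * N)))
      (𝓝[Icc 0 d] s) (𝓝 0) := by
    have h7 := (h5.mul_const (2 * N)).sqrt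
    simpa using h7
  apply tendsto_iff_norm_sub_tendsto_zero.2
  refine squeeze_zero' (Eventually.of_forall fun _ => norm_nonneg _) ?_ h6
  filter_upwards [self_mem_nhdsWithin] with s' hs'
  exact interp_sub h0 (P.nc s' hs') (P.nc s hs) k (P.t2 s' hs' k k) (P.t2 s hs k k) le_rfl

end pot

end ModR

end Pool.Agent.TF
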