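import Pool.Agent.TF.R.ModA

/-!
# Block R, row RA6: the interpolated states
-/

set_option autoImplicit false

namespace Pool.Agent.TF

open MeasureTheory Set Filter Topology Pool.Agent.TO Pool.Agent.TB Pool.Agent.TC Pool.Agent.TP
open scoped ENNReal NNReal Real InnerProductSpace SchwartzMap LineDeriv Laplacian

namespace ModR

variable {R : Fin 3 → V3 →L[ℝ] V3} {η : ℝ} {b : E3 → E3} {lam : E3 → ℝ} {σ : Sta}

theorem Ss_zero {s : ℝ} (hs : s ≤ 0) : Ss R η b lam σ s = σ := by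
  unfold Ss
  rw [if_pos hs]

theorem Ss_pos {s : ℝ} (hs : 0 < s) : Ss R η b lam σ s = nxt R η s b lam σ := by
  unfold Ss
  rw [if_neg (not_le.2 hs)]

theorem Ss_g (s : ℝ) (k : Fin 3) (j : Option (Fin 3)) :
    (Ss R η b lam σ s).g k j = Fs b lam (σ.g k j) (fun _ => 0) s := by
  rcases le_or_gt s 0 with hs | hs
  · rw [Ss_zero hs, Fs_zero _ _ _ _ hs]
  · rw [Ss_pos hs, Fs_pos _ _ _ _ hs]
    simp only [smul_zero, add_zero]
    rfl

theorem Ss_h (s : ℝ) (k : Fin 3) :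
    (Ss R η b lam σ s).h k = Fs b lam (σ.h k) (src R η σ k) s := by
  rcases le_or_gt s 0 with hs | hs
  · rw [Ss_zero hs, Fs_zero _ _ _ _ hs]
  · rw [Ss_pos hs, Fs_pos _ _ _ _ hs]
    rfl

theorem Ss_l_pos {s : ℝ} (hs : 0 < s) : (Ss R η b lam σ s).l = cvO (hk s) σ.l := by
  rw [Ss_pos hs]
  rfl

/-! ### sums over the words -/

theorem sum12 {x : Fin 3 → Option (Fin 3) → V3} {M : ℝ} (h : ∀ k j, ‖x k j‖ ≤ M) :
    ‖∑ k, ∑ j, x k j‖ ≤ 12 * M := by
  have h1 : ‖∑ k, ∑ j, x k j‖ ≤ ∑ _k : Fin 3, ∑ _j : Option (Fin 3), M :=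
    (norm_sum_le _ _).trans (Finset.sum_le_sum fun k _ =>
      (norm_sum_le _ _).trans (Finset.sum_le_sum fun j _ => h k j))
  simp only [Finset.sum_const, Finset.card_univ, Fintype.card_fin, Fintype.card_option,
    nsmul_eq_mul] at h1
  push_cast at h1
  linarith

theorem sum3' {x : Fin 3 → V3} {M : ℝ} (h : ∀ k, ‖x k‖ ≤ M) : ‖∑ k, x k‖ ≤ 3 * M := by
  have h1 : ‖∑ k, x k‖ ≤ ∑ _k : Fin 3, M :=
    (norm_sum_le _ _).trans (Finset.sum_le_sum fun k _ => h k)
  simp only [Finset.sum_const, Finset.card_univ, Fintype.card_fin, nsmul_eq_mul] at h1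
  push_cast at h1
  linarith

theorem bd_sum4 {f : Option (Fin 3) → V3} {A : ℝ} (hf : ∀ k, Bd (f k) A) :
    Bd (∑ k, f k) (4 * A) := by
  rw [Fintype.sum_option]
  exact bd_mono (bd_add (hf none) (bd_sum3 fun k => hf (some k))) (by linarith)

theorem LP_sub (f g : V3) : LP R (f - g) = LP R f - LP R g := by
  unfold LP
  simp only [map_sub, Finset.sum_sub_distrib]
  abel

theorem continuous_LP : Continuous (LP R) := by
  unfold LP
  refine continuous_id.add (continuous_finsetSum _ fun i _ => continuous_finsetSum _ fun l _ => ?_)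
  exact (R i).continuous.comp ((R l).continuous.comp (PM l i).continuous)

theorem bd_LP (hR : RZ R) {f : V3} {A : ℝ} (h0 : Bd f A) (h1 : ∀ i l, Bd (R i (R l f)) A) :
    Bd (LP R f) (10 * A) := by
  unfold LP
  have h2 : ∀ i, Bd (∑ l, R i (R l (PM l i f))) (3 * A) := fun i => bd_sum3 fun l => by
    rw [hR.pm, hR.pm]
    exact bd_PM _ _ (h1 i l)
  exact bd_mono (bd_add h0 (bd_sum3 h2)) (by linarith)

/-! ### the hypotheses for the potentials of a state -/

variable {N d t : ℝ}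

theorem Stp.N0 (P : Stp N d η t R b lam σ) : 0 ≤ N := by linarith [P.hN]

theorem src_facts (P : Stp N d η t R b lam σ) (k : Fin 3) :
    Continuous (src R η σ k) ∧ MemLp (src R η σ k) 2 (volume : Measure E3) ∧
      (∀ x, ‖src R η σ k x‖ ≤ 43 * N ^ 2) ∧ ‖vL (src R η σ k)‖ ≤ 43 * N ^ 2 := by
  have hN := P.hN
  have hN0 := Stp.N0 P
  have h0 := P.nr 0 ⟨le_rfl, P.hd.le⟩
  rw [Ss_zero le_rfl] at h0
  have hB := src_bounds P.hη hN0 P.bd k
  have e : src R η σ k = fun x => -heat η (tens k (Hh R σ) (Hh R σ) : V3) x := rfl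
  have hH := norm_Hh_le P.hR h0
  have h2 : N ^ 2 ≤ 43 * N ^ 2 := by nlinarith [sq_nonneg N]
  refine ⟨?_, ?_, fun x => ?_, ?_⟩
  · rw [e]
    exact hB.nc.cont.neg
  · rw [e]
    exact hB.nc.m0.neg
  · rw [e]
    simp only
    rw [norm_neg]
    exact (hB.s0 x).trans h2
  · rw [e, vL_neg hB.nc.m0, norm_neg]
    refine hB.t0.trans ?_
    calc N * ‖Hh R σ‖ ≤ N * (43 * N) := mul_le_mul_of_nonneg_left hH hN0
      _ = _ := by ring

theorem pot_g (P : Stp N d η t R b lam σ) (k : Fin 3) (j : Option (Fin 3)) :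
    Pot N (43 * N ^ 2) d (√t) b lam (σ.g k j) (fun _ => 0) := by
  have hN0 := Stp.N0 P
  have z : (0:ℝ) ∈ Icc 0 d := ⟨le_rfl, P.hd.le⟩
  have h0 := P.nr 0 z
  have h1 := P.sup 0 z
  have h2 := P.sup1 0 z
  have h3 := P.nc 0 z
  rw [Ss_zero le_rfl] at h0 h1 h2 h3
  refine ⟨P.hN, by positivity, P.hd, P.dN, P.coef, P.col,
    ⟨h3.1 k j, h1.1 k j, h2.1 k j, h0.gs k j⟩, fun s hs => ?_, h0.g1 k j, fun s hs i i' => ?_,
    fun s hs i i' x => ?_, continuous_const, MemLp.zero', fun x => ?_, ?_⟩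
  · rw [← Ss_g (R := R) (η := η) s k j]
    exact (P.nc s hs).1 k j
  · rw [← Ss_g (R := R) (η := η) s k j]
    exact (P.nr s hs).g2 k j i i'
  · rw [← Ss_g (R := R) (η := η) s k j]
    exact (P.nr s hs).gs k j i i' x
  · rw [norm_zero]
    positivity
  · rw [vL_zero, norm_zero]
    positivity

theorem pot_h (P : Stp N d η t R b lam σ) (k : Fin 3) :
    Pot N (43 * N ^ 2) d (√t) b lam (σ.h k) (src R η σ k) := by
  have hN0 := Stp.N0 P
  have z : (0:ℝ) ∈ Icc 0 d := ⟨le_rfl, P.hd.le⟩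
  have h0 := P.nr 0 z
  have h1 := P.sup 0 z
  have h2 := P.sup1 0 z
  have h3 := P.nc 0 z
  rw [Ss_zero le_rfl] at h0 h1 h2 h3
  obtain ⟨s1, s2, s3, s4⟩ := src_facts P k
  refine ⟨P.hN, by positivity, P.hd, P.dN, P.coef, P.col,
    ⟨h3.2 k, h1.2 k, h2.2 k, h0.hs k⟩, fun s hs => ?_, h0.h1 k, fun s hs i i' => ?_,
    fun s hs i i' x => ?_, s1, s2, s3, s4⟩
  · rw [← Ss_h (R := R) (η := η) s k]
    exact (P.nc s hs).2 k
  · rw [← Ss_h (R := R) (η := η) s k]
    exact (P.nr s hs).h2 k i i'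
  · rw [← Ss_h (R := R) (η := η) s k]
    exact (P.nr s hs).hs k i i' x

/-! ### continuity -/

theorem cont_l (h2 : SpHt) (h3 : SpHd) :
    ContinuousOn (fun s => (Ss R η b lam σ s).l) (Icc 0 d) := by
  obtain ⟨-, -, -, -, -, ht, -⟩ := h2
  intro s hs
  rcases hs.1.eq_or_lt with h | hs0
  · subst h
    have e0 : (Ss R η b lam σ 0).l = σ.l := by rw [Ss_zero le_rfl]
    have h5 : ContinuousWithinAt (fun s => (Ss R η b lam σ s).l) (Ioi 0) 0 := by
      show Tendsto (fun s => (Ss R η b lam σ s).l) (𝓝[>] 0) (𝓝 (Ss R η b lam σ 0).l)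
      rw [e0]
      refine (ht σ.l).congr' ?_
      filter_upwards [self_mem_nhdsWithin] with s hs
      exact (Ss_l_pos hs).symm
    have h6 : ContinuousWithinAt (fun s => (Ss R η b lam σ s).l) (Ici 0) 0 := by
      rw [← continuousWithinAt_Ioi_iff_Ici]
      exact h5
    exact h6.mono Icc_subset_Ici_self
  · have h5 : ContinuousAt (fun s => cvO (hk s) σ.l) s :=
      (h3.2 σ.l).continuousAt (Ioi_mem_nhds hs0)
    have h6 : ContinuousAt (fun s => (Ss R η b lam σ s).l) s := by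
      refine h5.congr ?_
      filter_upwards [Ioi_mem_nhds hs0] with s' hs'
      exact (Ss_l_pos hs').symm
    exact h6.continuousWithinAt

theorem cont_Us (h0 : SpWk) (h1 : SpJd) (h2 : SpHt) (h3 : SpHd) (P : Stp N d η t R b lam σ) :
    ContinuousOn (Us R η b lam σ) (Icc 0 d) := by
  unfold Us Hh
  refine ((continuousOn_finsetSum _ fun k _ => continuousOn_finsetSum _ fun j _ => ?_).add
    (continuous_LP.comp_continuousOn (continuousOn_finsetSum _ fun k _ => ?_))).add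
    (cont_l h2 h3)
  · refine (To R j).continuous.comp_continuousOn ?_
    have h4 := pot_cont_pd h0 h1 h2 h3 (pot_g P k j) k
    refine h4.congr fun s _ => ?_
    simp only
    rw [Ss_g]
  · have h4 := pot_cont_pd h0 h1 h2 h3 (pot_h P k) k
    refine h4.congr fun s _ => ?_
    simp only
    rw [Ss_h]

theorem cont_Kf (h1 : SpJd) (h2 : SpHt) (h3 : SpHd) (P : Stp N d η t R b lam σ) (k : Fin 3) :
    ContinuousOn (fun s => Kf R η b lam σ s k) (Ioo 0 d) := by
  obtain ⟨CJ, hCJ, h1⟩ := h1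
  have key : ∀ f, Fb N N N f → ContinuousOn (fun s => vL (dJst s b lam f)) (Icc 0 d) := by
    intro f hf
    obtain ⟨-, j2⟩ := h1 N (√t) N N N N N d b lam f P.coef P.col hf P.hd P.dN
    intro s hs
    apply tendsto_iff_norm_sub_tendsto_zero.2
    have h4 : Tendsto (fun s' => CJ * N * N * (N + N + N) * |s' - s|) (𝓝[Icc 0 d] s) (𝓝 0) := by
      have h5 : Continuous fun s' : ℝ => CJ * N * N * (N + N + N) * |s' - s| := by fun_prop
      have h6 := (h5.tendsto s).mono_left (nhdsWithin_le_nhds (s := Icc 0 d))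
      simpa using h6
    refine squeeze_zero' (Eventually.of_forall fun _ => norm_nonneg _) ?_ h4
    filter_upwards [self_mem_nhdsWithin] with s' hs'
    exact j2 s' hs' s hs
  have hsub : Ioo (0:ℝ) d ⊆ Icc 0 d := Ioo_subset_Icc_self
  have hpos : Ioo (0:ℝ) d ⊆ Ioi 0 := fun s hs => hs.1
  unfold Kf
  refine (continuousOn_finsetSum _ fun j _ => ?_).add ?_
  · exact (To R j).continuous.comp_continuousOn
      (heat_cont h2 h3 hpos ((key _ (pot_g P k j).fb).mono hsub))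
  · exact heat_cont h2 h3 hpos (((key _ (pot_h P k).fb).mono hsub).add continuousOn_const)

end ModR

end Pool.Agent.TF
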