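import Pool.Agent.TC.Rel

/-!
# The mollified equation with a forcing term in divergence form
-/

set_option autoImplicit false

namespace Pool.Agent.TF

open MeasureTheory Set Filter Topology Pool.Agent.TO Pool.Agent.TB Pool.Agent.TC
open scoped ENNReal NNReal Real InnerProductSpace SchwartzMap LineDeriv Laplacian

variable {r : ℝ}

/-- `ψ ↦ ∂_k (mol ψ)` -/
noncomputable def DK0 (k : Fin 3) (hr : 0 < r) : 𝓢(E3, E3) →ₗ[ℝ] V3 where
  toFun ψ := (∂_{ee k} (mol hr ψ)).toLp 2 (volume : Measure E3)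
  map_add' ψ ψ' := by
    rw [mol, mK_add]
    simp only [LineDeriv.lineDerivOp_add]
    rfl
  map_smul' c ψ := by
    rw [mol, mK_smul]
    simp only [LineDeriv.lineDerivOp_smul]
    rfl

theorem DK0_bdd (k : Fin 3) (hr : 0 < r) : ∃ C, ∀ ψ, ‖DK0 k hr ψ‖ ≤ C * ‖emb ψ‖ := by
  obtain ⟨C, hC, h⟩ := TC.exists_const
  have hom := om_pos
  refine ⟨C / r ^ 4 * (om * r ^ 3), fun ψ => ?_⟩
  change ‖(∂_{ee k} (mol hr ψ)).toLp 2 (volume : Measure E3)‖ ≤ _
  rw [mol, lineDeriv_mK_left]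
  exact norm_mK_toLp_le (h r hr k).1 (by positivity) hr.le ψ

/-- the partial derivative of the mollified field -/
noncomputable def DK (k : Fin 3) (hr : 0 < r) : V3 →L[ℝ] V3 := (DK0 k hr).extendOfNorm emb

theorem DK_emb (k : Fin 3) (hr : 0 < r) (ψ : 𝓢(E3, E3)) :
    DK k hr (emb ψ) = emb (∂_{ee k} (mol hr ψ)) :=
  LinearMap.extendOfNorm_eq dense_emb (DK0_bdd k hr) ψ

/-- on weakly differentiable fields -/
theorem DK_SS (k : Fin 3) (hr : 0 < r) {f : V3} {df : Fin 3 → V3}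
    (hf : ∀ k, IsWeakDeriv k f (df k)) : DK k hr (SS hr f) = SS hr (SS hr (df k)) := by
  obtain ⟨ψ, h1, h2⟩ := exists_seq_H1 hf
  have l1 : Tendsto (fun n => DK k hr (SS hr (emb (ψ n)))) atTop (𝓝 (DK k hr (SS hr f))) :=
    ((DK k hr).continuous.tendsto _).comp (((SS hr).continuous.tendsto f).comp h1)
  have l2 : Tendsto (fun n => SS hr (SS hr (emb (∂_{ee k} (ψ n))))) atTop
      (𝓝 (SS hr (SS hr (df k)))) :=
    ((SS hr).continuous.tendsto _).comp (((SS hr).continuous.tendsto _).comp (h2 k))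
  refine tendsto_nhds_unique l1 (l2.congr fun n => ?_)
  rw [SS_emb, SS_emb, SS_emb, DK_emb, lineDeriv_mol, lineDeriv_mol]

/-- the forcing term, tested -/
noncomputable def rg (hr : 0 < r) (h : V3) (G : Fin 3 → V3) : ℝ := ∑ k, ⟪DK k hr h, G k⟫_ℝ

theorem rg_emb (hr : 0 < r) (ψ : 𝓢(E3, E3)) (G : Fin 3 → V3) :
    rg hr (emb ψ) G = ∑ k, ⟪emb (∂_{ee k} (mol hr ψ)), G k⟫_ℝ := by
  simp only [rg, DK_emb]

theorem rg_sub (hr : 0 < r) (h h' : V3) (G : Fin 3 → V3) :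
    rg hr h G - rg hr h' G = rg hr (h - h') G := by
  unfold rg
  simp only [map_sub, inner_sub_left, Finset.sum_sub_distrib]

/-- the bound for the forcing term -/
noncomputable def dr (hr : 0 < r) (G : Fin 3 → V3) : ℝ := ∑ k, ‖DK k hr‖ * ‖G k‖

theorem dr_nonneg (hr : 0 < r) (G : Fin 3 → V3) : 0 ≤ dr hr G := by
  unfold dr
  positivity

theorem abs_rg_le (hr : 0 < r) (h : V3) (G : Fin 3 → V3) : |rg hr h G| ≤ dr hr G * ‖h‖ := by
  unfold rg dr
  rw [Finset.sum_mul]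
  refine (Finset.abs_sum_le_sum_abs _ _).trans (Finset.sum_le_sum fun k _ => ?_)
  calc |⟪DK k hr h, G k⟫_ℝ| ≤ ‖DK k hr h‖ * ‖G k‖ := abs_real_inner_le_norm _ _
    _ ≤ (‖DK k hr‖ * ‖h‖) * ‖G k‖ := by
        gcongr
        exact (DK k hr).le_opNorm h
    _ = _ := by ring

/-- the integrand of the mollified equation with forcing -/
noncomputable def rf (hr : 0 < r) (h f : V3) (G : Fin 3 → V3) : ℝ := rh hr h f + rg hr h G

theorem rf_sub (hr : 0 < r) (h h' f : V3) (G : Fin 3 → V3) :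
    rf hr h f G - rf hr h' f G = rf hr (h - h') f G := by
  rw [rf, rf, rf, ← rh_sub, ← rg_sub]
  ring

theorem abs_rf_le (hr : 0 < r) (h : V3) {f : V3} (G : Fin 3 → V3) {C : ℝ} (hf : ‖f‖ ≤ C) :
    |rf hr h f G| ≤ (cr hr C + dr hr G) * ‖h‖ := by
  rw [rf, add_mul]
  exact (abs_add_le _ _).trans (add_le_add (abs_rh_le hr h hf) (abs_rg_le hr h G))

/-- a solution of `∂ₜ U = Δ U - ℙ ∂_k (U_k U + G_k)` on `[s₀, t₁]`, bounded in `L²` by `C` -/
structure FEq (s₀ t₁ C : ℝ) (U : ℝ → V3) (G : ℝ → Fin 3 → V3) : Prop where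
  hC : ∀ t ∈ Icc s₀ t₁, ‖U t‖ ≤ C
  meas : AEStronglyMeasurable U (volume.restrict (Ioo s₀ t₁))
  measG : ∀ k, AEStronglyMeasurable (fun t => G t k) (volume.restrict (Ioo s₀ t₁))
  intG : IntegrableOn (fun τ => ∑ k, ‖G τ k‖ ^ 2) (Ioo s₀ t₁) volume
  div : ∀ t ∈ Icc s₀ t₁, IsDivFree (U t)
  eqn : ∀ s t, s₀ ≤ s → s ≤ t → t ≤ t₁ → ∀ φ : 𝓢(E3, E3), TestDivFree φ →
    ⟪emb φ, U t⟫_ℝ - ⟪emb φ, U s⟫_ℝ =
      ∫ τ in s..t, (rhs φ (U τ) + ∑ k, ⟪emb (∂_{ee k} φ), G τ k⟫_ℝ)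

/-- a Leray solution -/
theorem feq_of_leray {T : ℝ} {u₀ : V3} {u : ℝ → V3} (h : IsLeray T u₀ u) {s₀ t₁ : ℝ}
    (hs : 0 ≤ s₀) (ht : t₁ < T) : FEq s₀ t₁ ‖u₀‖ u (fun _ _ => 0) where
  hC t h1 := h.norm_le ⟨hs.trans h1.1, h1.2.trans_lt ht⟩
  meas := h.meas.mono_measure (Measure.restrict_mono (Ioo_subset_Ioo hs ht.le) le_rfl)
  measG k := aestronglyMeasurable_const
  intG := by simp
  div t h1 := h.div t ⟨hs.trans h1.1, h1.2.trans_lt ht⟩
  eqn s t h1 h2 h3 φ hφ := by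
    simp only [inner_zero_right, Finset.sum_const_zero, add_zero]
    exact h.eqn'' (hs.trans h1) h2 (h3.trans_lt ht) hφ

variable {s₀ t₁ C : ℝ} {U : ℝ → V3} {G : ℝ → Fin 3 → V3}

theorem FEq.meas_comp (h : FEq s₀ t₁ C U G) {β : Type*} [TopologicalSpace β] {g : V3 → β}
    (hg : Continuous g) {s t : ℝ} (hs : s₀ ≤ s) (ht : t ≤ t₁) :
    AEStronglyMeasurable (fun τ => g (U τ)) (volume.restrict (Ioo s t)) :=
  hg.comp_aestronglyMeasurable (h.meas.mono_measure (Measure.restrict_mono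
    (Ioo_subset_Ioo hs ht) le_rfl))

theorem FEq.int_norm (h : FEq s₀ t₁ C U G) (k : Fin 3) {s t : ℝ} (hs : s₀ ≤ s)
    (ht : t ≤ t₁) : IntegrableOn (fun τ => ‖G τ k‖) (Ioo s t) volume := by
  have hsub : Ioo s t ⊆ Ioo s₀ t₁ := Ioo_subset_Ioo hs ht
  have hi := h.intG.mono_set hsub
  have hm : AEStronglyMeasurable (fun τ => ‖G τ k‖) (volume.restrict (Ioo s t)) :=
    (h.measG k).norm.mono_measure (Measure.restrict_mono hsub le_rfl)
  have h1 : IntegrableOn (fun _ : ℝ => (1:ℝ)) (Ioo s t) volume := by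
    simp
  refine (h1.add hi).mono' hm (Eventually.of_forall fun τ => ?_)
  rw [norm_norm, Pi.add_apply]
  have h2 : ‖G τ k‖ ^ 2 ≤ ∑ k, ‖G τ k‖ ^ 2 :=
    Finset.single_le_sum (f := fun k => ‖G τ k‖ ^ 2) (fun i _ => by positivity)
      (Finset.mem_univ k)
  nlinarith [sq_nonneg (‖G τ k‖ - 1)]

theorem FEq.int_dr (h : FEq s₀ t₁ C U G) (hr : 0 < r) {s t : ℝ} (hs : s₀ ≤ s)
    (ht : t ≤ t₁) : IntegrableOn (fun τ => dr hr (G τ)) (Ioo s t) volume := by
  unfold dr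
  exact integrable_finsetSum _ fun k _ => (h.int_norm k hs ht).const_mul _

theorem FEq.int_rf (h : FEq s₀ t₁ C U G) (hr : 0 < r) (f : V3) {s t : ℝ} (hs : s₀ ≤ s)
    (hst : s ≤ t) (ht : t ≤ t₁) :
    IntervalIntegrable (fun τ => rf hr f (U τ) (G τ)) volume s t := by
  rw [intervalIntegrable_iff_integrableOn_Ioo_of_le hst]
  have hi : IntegrableOn (fun τ => (cr hr C + dr hr (G τ)) * ‖f‖) (Ioo s t) volume :=
    ((by simp : IntegrableOn (fun _ : ℝ => cr hr C) (Ioo s t) volume).add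
      (h.int_dr hr hs ht)).mul_const _
  refine hi.mono' ?_ ?_
  · unfold rf rg
    refine (h.meas_comp (continuous_rh hr f) hs ht).add
      (Finset.aestronglyMeasurable_fun_sum _ fun k _ => ?_)
    have h1 : Continuous fun g : V3 => ⟪DK k hr f, g⟫_ℝ := by fun_prop
    exact h1.comp_aestronglyMeasurable ((h.measG k).mono_measure (Measure.restrict_mono
      (Ioo_subset_Ioo hs ht) le_rfl))
  · rw [ae_restrict_iff' measurableSet_Ioo]
    exact Eventually.of_forall fun τ hτ =>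
      abs_rf_le hr f (G τ) (h.hC τ ⟨hs.trans hτ.1.le, hτ.2.le.trans ht⟩)

/-- the equation tested with mollified fields -/
theorem FEq.tested (hu : FEq s₀ t₁ C U G) (hr : 0 < r) {h : V3} (hh : Adm h) {s t : ℝ}
    (hs : s₀ ≤ s) (hst : s ≤ t) (ht : t ≤ t₁) :
    ⟪SS hr h, U t⟫_ℝ - ⟪SS hr h, U s⟫_ℝ = ∫ τ in s..t, rf hr h (U τ) (G τ) := by
  obtain ⟨ψ, h1, h2⟩ := hh
  have e1 : ∀ n, ⟪SS hr (emb (ψ n)), U t⟫_ℝ - ⟪SS hr (emb (ψ n)), U s⟫_ℝ =
      ∫ τ in s..t, rf hr (emb (ψ n)) (U τ) (G τ) := by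
    intro n
    simp only [rf, rh_emb, rg_emb]
    rw [SS_emb]
    exact hu.eqn s t hs hst ht _ (test_mK _ (h1 n))
  have l1 : Tendsto (fun n => ⟪SS hr (emb (ψ n)), U t⟫_ℝ - ⟪SS hr (emb (ψ n)), U s⟫_ℝ) atTop
      (𝓝 (⟪SS hr h, U t⟫_ℝ - ⟪SS hr h, U s⟫_ℝ)) := by
    have h3 := ((SS hr).continuous.tendsto h).comp h2
    exact (h3.inner tendsto_const_nhds).sub (h3.inner tendsto_const_nhds)
  have l2 : Tendsto (fun n => ∫ τ in s..t, rf hr (emb (ψ n)) (U τ) (G τ)) atTop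
      (𝓝 (∫ τ in s..t, rf hr h (U τ) (G τ))) := by
    rw [tendsto_iff_norm_sub_tendsto_zero]
    set I : ℝ := ∫ τ in Ioo s t, (cr hr C + dr hr (G τ)) with hI
    have h3 := (tendsto_iff_norm_sub_tendsto_zero.1 h2).const_mul I
    rw [mul_zero] at h3
    refine squeeze_zero (fun n => norm_nonneg _) (fun n => ?_) h3
    rw [← intervalIntegral.integral_sub (hu.int_rf hr _ hs hst ht)
      (hu.int_rf hr _ hs hst ht)]
    simp only [rf_sub]
    rw [intervalIntegral.integral_of_le hst, integral_Ioc_eq_integral_Ioo, hI,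
      ← integral_mul_const]
    refine norm_integral_le_of_norm_le
      (((by simp : IntegrableOn (fun _ : ℝ => cr hr C) (Ioo s t) volume).add
      (hu.int_dr hr hs ht)).mul_const _) ?_
    rw [ae_restrict_iff' measurableSet_Ioo]
    exact Eventually.of_forall fun τ hτ =>
      abs_rf_le hr _ (G τ) (hu.hC τ ⟨hs.trans hτ.1.le, hτ.2.le.trans ht⟩)
  simp only [e1] at l1
  exact tendsto_nhds_unique l1 l2

/-- the energy formula for linear combinations of two solutions -/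
theorem comb_formula' {C' : ℝ} {V : ℝ → V3} {G' : ℝ → Fin 3 → V3} (hu : FEq s₀ t₁ C U G)
    (hv : FEq s₀ t₁ C' V G') (hr : 0 < r) (a b : ℝ) {s t : ℝ}
    (hs : s₀ ≤ s) (hst : s ≤ t) (ht : t ≤ t₁) :
    IntervalIntegrable (fun τ => a * rf hr (SS hr (a • U τ + b • V τ)) (U τ) (G τ) +
      b * rf hr (SS hr (a • U τ + b • V τ)) (V τ) (G' τ)) volume s t ∧
    ‖SS hr (a • U t + b • V t)‖ ^ 2 - ‖SS hr (a • U s + b • V s)‖ ^ 2 =
      2 * ∫ τ in s..t, (a * rf hr (SS hr (a • U τ + b • V τ)) (U τ) (G τ) +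
        b * rf hr (SS hr (a • U τ + b • V τ)) (V τ) (G' τ)) := by
  have hC0 : 0 ≤ C := (norm_nonneg _).trans (hu.hC s ⟨hs, hst.trans ht⟩)
  have hC0' : 0 ≤ C' := (norm_nonneg _).trans (hv.hC s ⟨hs, hst.trans ht⟩)
  have hmem : ∀ x ∈ Icc s t, x ∈ Icc s₀ t₁ := fun x hx => ⟨hs.trans hx.1, hx.2.trans ht⟩
  have hadm : ∀ x ∈ Icc s t, Adm (SS hr (a • U x + b • V x)) := fun x hx =>
    ((adm_of_divFree (hu.div x (hmem x hx))).add (adm_of_divFree (hv.div x (hmem x hx))) a b).mol hr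
  set m : ℝ → ℝ := fun τ => |a| * (cr hr C + dr hr (G τ)) + |b| * (cr hr C' + dr hr (G' τ))
    with hm
  have hm0 : ∀ τ, 0 ≤ m τ := by
    intro τ
    exact add_nonneg (mul_nonneg (abs_nonneg _) (add_nonneg (cr_nonneg hr hC0)
      (dr_nonneg hr (G τ)))) (mul_nonneg (abs_nonneg _) (add_nonneg (cr_nonneg hr hC0')
      (dr_nonneg hr (G' τ))))
  have hmi : IntervalIntegrable m volume s t := by
    rw [intervalIntegrable_iff_integrableOn_Ioo_of_le hst]
    exact (((by simp : IntegrableOn (fun _ : ℝ => cr hr C) (Ioo s t) volume).add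
      (hu.int_dr hr hs ht)).const_mul _).add
      (((by simp : IntegrableOn (fun _ : ℝ => cr hr C') (Ioo s t) volume).add
      (hv.int_dr hr hs ht)).const_mul _)
  have h1 : ∀ x ∈ Icc s t, IntervalIntegrable
      (fun τ => a * rf hr (SS hr (a • U x + b • V x)) (U τ) (G τ) +
        b * rf hr (SS hr (a • U x + b • V x)) (V τ) (G' τ)) volume s t := fun x _ =>
    ((hu.int_rf hr _ hs hst ht).const_mul a).add ((hv.int_rf hr _ hs hst ht).const_mul b)
  have h2 : ∀ x ∈ Icc s t, ∀ y ∈ Icc s t, ∀ z ∈ Icc s t, y ≤ z →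
      ⟪SS hr (a • U x + b • V x), SS hr (a • U z + b • V z)⟫_ℝ -
        ⟪SS hr (a • U x + b • V x), SS hr (a • U y + b • V y)⟫_ℝ =
      ∫ τ in y..z, (a * rf hr (SS hr (a • U x + b • V x)) (U τ) (G τ) +
        b * rf hr (SS hr (a • U x + b • V x)) (V τ) (G' τ)) := by
    intro x hx y hy z hz hyz
    have hy0 : s₀ ≤ y := hs.trans hy.1
    have hz0 : z ≤ t₁ := hz.2.trans ht
    rw [intervalIntegral.integral_add
      ((hu.int_rf hr _ hy0 hyz hz0).const_mul a)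
      ((hv.int_rf hr _ hy0 hyz hz0).const_mul b),
      intervalIntegral.integral_const_mul, intervalIntegral.integral_const_mul,
      ← hu.tested hr (hadm x hx) hy0 hyz hz0, ← hv.tested hr (hadm x hx) hy0 hyz hz0,
      symm_SS, symm_SS, inner_add_right, inner_add_right, inner_smul_right, inner_smul_right,
      inner_smul_right, inner_smul_right]
    ring
  have h3 : ∀ᵐ τ ∂(volume.restrict (Ioo s t)), ∀ x ∈ Icc s t, ∀ y ∈ Icc s t,
      |(a * rf hr (SS hr (a • U x + b • V x)) (U τ) (G τ) +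
        b * rf hr (SS hr (a • U x + b • V x)) (V τ) (G' τ)) -
        (a * rf hr (SS hr (a • U y + b • V y)) (U τ) (G τ) +
        b * rf hr (SS hr (a • U y + b • V y)) (V τ) (G' τ))| ≤
      m τ * ‖SS hr (a • U x + b • V x) - SS hr (a • U y + b • V y)‖ := by
    filter_upwards [ae_restrict_mem measurableSet_Ioo] with τ hτ x _ y _
    have hτ' : τ ∈ Icc s₀ t₁ := hmem τ (Ioo_subset_Icc_self hτ)
    have e1 : a * rf hr (SS hr (a • U x + b • V x)) (U τ) (G τ) +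
        b * rf hr (SS hr (a • U x + b • V x)) (V τ) (G' τ) -
        (a * rf hr (SS hr (a • U y + b • V y)) (U τ) (G τ) +
        b * rf hr (SS hr (a • U y + b • V y)) (V τ) (G' τ)) =
        a * rf hr (SS hr (a • U x + b • V x) - SS hr (a • U y + b • V y)) (U τ) (G τ) +
        b * rf hr (SS hr (a • U x + b • V x) - SS hr (a • U y + b • V y)) (V τ) (G' τ) := by
      rw [← rf_sub, ← rf_sub]
      ring
    rw [e1]
    refine (abs_add_le _ _).trans ?_
    rw [abs_mul, abs_mul, hm, add_mul, mul_assoc, mul_assoc]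
    have g1 := abs_rf_le hr (SS hr (a • U x + b • V x) - SS hr (a • U y + b • V y)) (G τ)
      (hu.hC τ hτ')
    have g2 := abs_rf_le hr (SS hr (a • U x + b • V x) - SS hr (a • U y + b • V y)) (G' τ)
      (hv.hC τ hτ')
    exact add_le_add (mul_le_mul_of_nonneg_left g1 (abs_nonneg _))
      (mul_le_mul_of_nonneg_left g2 (abs_nonneg _))
  have key := norm_sq_formula (𝕜 := ℝ) (y := fun τ => SS hr (a • U τ + b • V τ))
    (Γ := fun x τ => a * rf hr (SS hr (a • U x + b • V x)) (U τ) (G τ) +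
        b * rf hr (SS hr (a • U x + b • V x)) (V τ) (G' τ)) (m := m) hst
    hmi (Eventually.of_forall hm0) h1 h2 h3
  exact key.2

theorem rg_zero (hr : 0 < r) (h : V3) : rg hr h (fun _ => 0) = 0 := by simp [rg]

theorem rf_zero (hr : 0 < r) (h f : V3) : rf hr h f (fun _ => 0) = rh hr h f := by
  rw [rf, rg_zero, add_zero]

/-- the derivative of `Zr` with forcing -/
noncomputable def zf (hr : 0 < r) (f g : V3) (G : Fin 3 → V3) : ℝ :=
  zr hr f g - rg hr (SS hr (g - f)) G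

theorem Zf_formula {C' : ℝ} {V : ℝ → V3} (hu : FEq s₀ t₁ C U G)
    (hv : FEq s₀ t₁ C' V (fun _ _ => 0)) (hr : 0 < r) {s t : ℝ}
    (hs : s₀ ≤ s) (hst : s ≤ t) (ht : t ≤ t₁) :
    IntervalIntegrable (fun τ => zf hr (U τ) (V τ) (G τ)) volume s t ∧
    Zr hr (U t) (V t) - Zr hr (U s) (V s) = 2 * ∫ τ in s..t, zf hr (U τ) (V τ) (G τ) := by
  obtain ⟨i1, e1⟩ := comb_formula' hu hv hr (-1) 1 hs hst ht
  obtain ⟨i2, e2⟩ := comb_formula' hu hv hr 0 1 hs hst ht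
  have hw : ∀ τ, (-1 : ℝ) • U τ + (1:ℝ) • V τ = V τ - U τ := fun τ => by
    rw [neg_smul, one_smul, one_smul]
    abel
  have hv' : ∀ τ, (0 : ℝ) • U τ + (1:ℝ) • V τ = V τ := fun τ => by
    rw [zero_smul, one_smul, zero_add]
  simp only [hw] at i1 e1
  simp only [hv', zero_mul, zero_add, one_mul] at i2 e2
  have e3 : ∀ τ, zf hr (U τ) (V τ) (G τ) = (-1 * rf hr (SS hr (V τ - U τ)) (U τ) (G τ) +
      1 * rf hr (SS hr (V τ - U τ)) (V τ) (fun _ => 0)) -
      rf hr (SS hr (V τ)) (V τ) (fun _ => 0) := by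
    intro τ
    have h1 : rh hr (SS hr (V τ)) (V τ) = rh hr (SS hr (V τ - U τ)) (V τ) +
        rh hr (SS hr (U τ)) (V τ) := by
      rw [← rh_add_smul, ← map_add, sub_add_cancel]
    rw [rf_zero, rf_zero, h1, zf, zr, rf]
    ring
  constructor
  · simp only [e3]
    exact i1.sub i2
  · simp only [e3]
    rw [intervalIntegral.integral_sub i1 i2, mul_sub, ← e1, ← e2, Zr, Zr]
    ring

end Pool.Agent.TF
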