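import Pool.Agent.TF.R.Op
import Pool.Agent.TG.Gron

/-!
# The relative energy of a Leray solution and a forced solution
-/

set_option autoImplicit false

namespace Pool.Agent.TF

open MeasureTheory Set Filter Topology Pool.Agent.TO Pool.Agent.TB Pool.Agent.TC
open scoped ENNReal NNReal Real InnerProductSpace SchwartzMap LineDeriv Laplacian

theorem tendsto_rg {w : V3} {dw : Fin 3 → V3} (h : ∀ k, IsWeakDeriv k w (dw k))
    (G : Fin 3 → V3) :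
    Tendsto (fun n => rg (rn_pos n) (SS (rn_pos n) w) G) atTop (𝓝 (∑ k, ⟪dw k, G k⟫_ℝ)) := by
  unfold rg
  refine tendsto_finsetSum _ fun k _ => ?_
  have e : ∀ n, DK k (rn_pos n) (SS (rn_pos n) w) = SS (rn_pos n) (SS (rn_pos n) (dw k)) :=
    fun n => DK_SS k (rn_pos n) h
  simp only [e]
  exact (tendsto_SS_SS _).inner tendsto_const_nhds

theorem sum_mul_norm_le {du dv : Fin 3 → V3} (G : Fin 3 → V3) :
    ∑ k, ‖dv k - du k‖ * ‖G k‖ ≤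
      ∑ k, ‖du k‖ ^ 2 + ∑ k, ‖dv k‖ ^ 2 + ∑ k, ‖G k‖ ^ 2 := by
  rw [← Finset.sum_add_distrib, ← Finset.sum_add_distrib]
  refine Finset.sum_le_sum fun k _ => ?_
  have h1 : ‖dv k - du k‖ ≤ ‖dv k‖ + ‖du k‖ := norm_sub_le _ _
  have h2 : ‖dv k - du k‖ * ‖G k‖ ≤ (‖dv k‖ + ‖du k‖) * ‖G k‖ :=
    mul_le_mul_of_nonneg_right h1 (norm_nonneg _)
  nlinarith [sq_nonneg (‖dv k‖ + ‖du k‖ - 2 * ‖G k‖), sq_nonneg (‖dv k‖ - ‖du k‖),
    sq_nonneg (‖dv k‖ + ‖du k‖), norm_nonneg (dv k), norm_nonneg (du k), norm_nonneg (G k)]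

theorem abs_rg_SS_le {r : ℝ} (hr : 0 < r) {w : V3} {dw : Fin 3 → V3}
    (h : ∀ k, IsWeakDeriv k w (dw k)) (G : Fin 3 → V3) :
    |rg hr (SS hr w) G| ≤ ∑ k, ‖dw k‖ * ‖G k‖ := by
  unfold rg
  refine (Finset.abs_sum_le_sum_abs _ _).trans (Finset.sum_le_sum fun k _ => ?_)
  rw [DK_SS k hr h]
  refine (abs_real_inner_le_norm _ _).trans ?_
  exact mul_le_mul_of_nonneg_right ((norm_SS_le hr _).trans (norm_SS_le hr _)) (norm_nonneg _)

/-- the limit of `zf` -/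
noncomputable def z0f (u v : V3) (du dv G : Fin 3 → V3) : ℝ :=
  z0 u v du dv - ∑ k, ⟪dv k - du k, G k⟫_ℝ

theorem tendsto_zf {u v : V3} {A : ℝ} (hu : Bd u A) (hdv : IsDivFree v)
    {du dv : Fin 3 → V3} (h : ∀ k, IsWeakDeriv k u (du k)) (h' : ∀ k, IsWeakDeriv k v (dv k))
    (G : Fin 3 → V3) :
    Tendsto (fun n => zf (rn_pos n) u v G) atTop (𝓝 (z0f u v du dv G)) := by
  unfold zf z0f
  exact (tendsto_zr hu hdv h h').sub (tendsto_rg (fun k => (h' k).sub (h k)) G)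

theorem abs_zf_le {r : ℝ} (hr : 0 < r) {u v : V3} {A : ℝ} (hA : 0 ≤ A) (hu : Bd u A)
    (hdv : IsDivFree v) {du dv : Fin 3 → V3} (h : ∀ k, IsWeakDeriv k u (du k))
    (h' : ∀ k, IsWeakDeriv k v (dv k)) (G : Fin 3 → V3) :
    |zf hr u v G| ≤ 4 * (∑ k, ‖du k‖ ^ 2 + ∑ k, ‖dv k‖ ^ 2) +
      2 * A ^ 2 * (‖u‖ ^ 2 + ‖v‖ ^ 2) + ∑ k, ‖G k‖ ^ 2 := by
  have h1 := abs_zr_le hr hA hu hdv h h'
  have h2 := (abs_rg_SS_le hr (fun k => (h' k).sub (h k)) G).trans (sum_mul_norm_le G)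
  unfold zf
  refine (abs_sub _ _).trans ?_
  linarith

/-- a Leray solution `v` and a bounded forced solution `U`, with their gradients -/
structure RelF (T : ℝ) (v₀ : V3) (v : ℝ → V3) (Dv : ℝ → Fin 3 → V3) (s₀ t₁ C : ℝ)
    (U : ℝ → V3) (DU G : ℝ → Fin 3 → V3) (a : ℝ → ℝ) : Prop where
  hv : IsLeray T v₀ v
  hDv : ∀ᵐ t ∂(volume.restrict (Ioo 0 T)), ∀ k, IsWeakDeriv k (v t) (Dv t k)
  hDvi : ∀ t ∈ Ico 0 T, IntegrableOn (fun τ => ∑ k, ‖Dv τ k‖ ^ 2) (Ioo 0 t) volume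
  hen : ∀ t ∈ Ico 0 T, ‖v t‖ ^ 2 + 2 * ∫ τ in Ioo 0 t, ∑ k, ‖Dv τ k‖ ^ 2 ≤ ‖v₀‖ ^ 2
  hs : 0 ≤ s₀
  ht : t₁ < T
  hU : FEq s₀ t₁ C U G
  ha0 : ∀ t, 0 ≤ a t
  hUa : ∀ᵐ t ∂(volume.restrict (Ioo s₀ t₁)), Bd (U t) (a t)
  hai : IntegrableOn (fun τ => a τ ^ 2) (Ioo s₀ t₁) volume
  hDU : ∀ᵐ t ∂(volume.restrict (Ioo s₀ t₁)), ∀ k, IsWeakDeriv k (U t) (DU t k)
  hDUi : IntegrableOn (fun τ => ∑ k, ‖DU τ k‖ ^ 2) (Ioo s₀ t₁) volume

variable {T : ℝ} {v₀ : V3} {v : ℝ → V3} {Dv : ℝ → Fin 3 → V3} {s₀ t₁ C : ℝ}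
  {U : ℝ → V3} {DU G : ℝ → Fin 3 → V3} {a : ℝ → ℝ}

/-- the functional `‖v - U‖² - ‖v‖²` -/
theorem RelF.Z_formula (P : RelF T v₀ v Dv s₀ t₁ C U DU G a) {s t : ℝ} (hs : s₀ ≤ s)
    (hst : s ≤ t) (ht : t ≤ t₁) :
    IntegrableOn (fun τ => z0f (U τ) (v τ) (DU τ) (Dv τ) (G τ)) (Ioo s t) volume ∧
    (‖v t - U t‖ ^ 2 - ‖v t‖ ^ 2) - (‖v s - U s‖ ^ 2 - ‖v s‖ ^ 2) =
      2 * ∫ τ in Ioo s t, z0f (U τ) (v τ) (DU τ) (Dv τ) (G τ) := by
  have hC0 : 0 ≤ C := (norm_nonneg _).trans (P.hU.hC s ⟨hs, hst.trans ht⟩)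
  set g : ℝ → ℝ := fun τ => z0f (U τ) (v τ) (DU τ) (Dv τ) (G τ) with hg
  set F : ℕ → ℝ → ℝ := fun n τ => zf (rn_pos n) (U τ) (v τ) (G τ) with hF
  set M : ℝ → ℝ := fun τ => 4 * (∑ k, ‖DU τ k‖ ^ 2 + ∑ k, ‖Dv τ k‖ ^ 2) +
    2 * a τ ^ 2 * (C ^ 2 + ‖v₀‖ ^ 2) + ∑ k, ‖G τ k‖ ^ 2 with hM
  have hs0 : 0 ≤ s := P.hs.trans hs
  have htT : t < T := ht.trans_lt P.ht
  have hsub1 : Ioo s t ⊆ Ioo s₀ t₁ := Ioo_subset_Ioo hs ht
  have hsubT : Ioo s t ⊆ Ioo 0 T := Ioo_subset_Ioo hs0 htT.le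
  have hsub0 : Ioo s t ⊆ Ioo 0 t := Ioo_subset_Ioo hs0 le_rfl
  have ht0 : t ∈ Ico 0 T := ⟨hs0.trans hst, htT⟩
  have hDU := ae_restrict_of_ae_restrict_of_subset hsub1 P.hDU
  have hDv := ae_restrict_of_ae_restrict_of_subset hsubT P.hDv
  have hua := ae_restrict_of_ae_restrict_of_subset hsub1 P.hUa
  have hMi : IntegrableOn M (Ioo s t) volume :=
    ((((P.hDUi.mono_set hsub1).add ((P.hDvi t ht0).mono_set hsub0)).const_mul 4).add
      (((P.hai.mono_set hsub1).const_mul 2).mul_const _)).add (P.hU.intG.mono_set hsub1)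
  have hV : FEq s₀ t₁ ‖v₀‖ v (fun _ _ => 0) := feq_of_leray P.hv P.hs P.ht
  have hFi : ∀ n, IntegrableOn (F n) (Ioo s t) volume := by
    intro n
    have := (Zf_formula P.hU hV (rn_pos n) hs hst ht).1
    rwa [intervalIntegrable_iff_integrableOn_Ioo_of_le hst] at this
  have hlim : ∀ᵐ τ ∂(volume.restrict (Ioo s t)), Tendsto (fun n => F n τ) atTop (𝓝 (g τ)) := by
    filter_upwards [hDU, hDv, hua, ae_restrict_mem measurableSet_Ioo] with τ h1 h2 h3 h4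
    exact tendsto_zf h3 (P.hv.div τ ⟨hs0.trans h4.1.le, h4.2.trans htT⟩) h1 h2 (G τ)
  have hbound : ∀ n, ∀ᵐ τ ∂(volume.restrict (Ioo s t)), ‖F n τ‖ ≤ M τ := by
    intro n
    filter_upwards [hDU, hDv, hua, ae_restrict_mem measurableSet_Ioo] with τ h1 h2 h3 h4
    have hτ : τ ∈ Ico 0 T := ⟨hs0.trans h4.1.le, h4.2.trans htT⟩
    rw [Real.norm_eq_abs]
    refine (abs_zf_le (rn_pos n) (P.ha0 τ) h3 (P.hv.div τ hτ) h1 h2 (G τ)).trans ?_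
    have g1 := P.hU.hC τ ⟨hs.trans h4.1.le, h4.2.le.trans ht⟩
    have g2 := P.hv.norm_le hτ
    simp only [hM]
    gcongr
  have hgi : IntegrableOn g (Ioo s t) volume := by
    refine Integrable.mono' hMi (aestronglyMeasurable_of_tendsto_ae atTop (fun n => (hFi n).1)
      hlim) ?_
    filter_upwards [hlim, ae_all_iff.2 hbound] with τ h1 h2
    exact le_of_tendsto h1.norm (Eventually.of_forall h2)
  refine ⟨hgi, ?_⟩
  have lim1 : Tendsto (fun n => 2 * ∫ τ in Ioo s t, F n τ) atTop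
      (𝓝 (2 * ∫ τ in Ioo s t, g τ)) :=
    (tendsto_integral_of_dominated_convergence M (fun n => (hFi n).1) hMi hbound hlim).const_mul 2
  have lz : ∀ τ, Tendsto (fun n => Zr (rn_pos n) (U τ) (v τ)) atTop
      (𝓝 (‖v τ - U τ‖ ^ 2 - ‖v τ‖ ^ 2)) := fun τ =>
    ((tendsto_SS (v τ - U τ)).norm.pow 2).sub ((tendsto_SS (v τ)).norm.pow 2)
  have heq : ∀ n : ℕ, Zr (rn_pos n) (U t) (v t) - Zr (rn_pos n) (U s) (v s) =
      2 * ∫ τ in Ioo s t, F n τ := by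
    intro n
    rw [(Zf_formula P.hU hV (rn_pos n) hs hst ht).2, intervalIntegral.integral_of_le hst,
      integral_Ioc_eq_integral_Ioo]
  have lim2 := (lz t).sub (lz s)
  simp only [heq] at lim2
  exact tendsto_nhds_unique lim2 lim1

theorem RelF.le_RE (P : RelF T v₀ v Dv s₀ t₁ C U DU G a) {t : ℝ} (h1 : s₀ ≤ t) (h2 : t ≤ t₁) :
    ‖v t - U t‖ ^ 2 ≤ RE v₀ U v Dv t := by
  have := P.hen t ⟨P.hs.trans h1, h2.trans_lt P.ht⟩
  unfold RE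
  linarith

/-- the relative energy at any time -/
theorem RelF.RE_le (_P : RelF T v₀ v Dv s₀ t₁ C U DU G a) (t : ℝ) :
    RE v₀ U v Dv t ≤ ‖v₀‖ ^ 2 - ‖v t‖ ^ 2 + ‖v t - U t‖ ^ 2 := by
  have : 0 ≤ ∫ τ in Ioo 0 t, ∑ k, ‖Dv τ k‖ ^ 2 := integral_nonneg fun τ =>
    Finset.sum_nonneg fun k _ => by positivity
  unfold RE
  linarith

/-- the derivative of the relative energy -/
noncomputable def ref (u v : V3) (du dv G : Fin 3 → V3) : ℝ :=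
  -∑ k, ‖dv k - du k‖ ^ 2 + ∑ k, ⟪dv k - du k, tens k (v - u) u - G k⟫_ℝ

theorem RelF.RE_formula (P : RelF T v₀ v Dv s₀ t₁ C U DU G a) {s t : ℝ} (hs : s₀ ≤ s)
    (hst : s ≤ t) (ht : t ≤ t₁) :
    IntegrableOn (fun τ => ref (U τ) (v τ) (DU τ) (Dv τ) (G τ)) (Ioo s t) volume ∧
    RE v₀ U v Dv t - RE v₀ U v Dv s =
      2 * ∫ τ in Ioo s t, ref (U τ) (v τ) (DU τ) (Dv τ) (G τ) := by
  obtain ⟨i1, e1⟩ := P.Z_formula hs hst ht
  have hs0 : 0 ≤ s := P.hs.trans hs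
  have ht0 : t ∈ Ico 0 T := ⟨hs0.trans hst, ht.trans_lt P.ht⟩
  have i2 := (P.hDvi t ht0).mono_set (Ioo_subset_Ioo hs0 le_rfl : Ioo s t ⊆ Ioo 0 t)
  have e2 : ∀ τ, ref (U τ) (v τ) (DU τ) (Dv τ) (G τ) =
      z0f (U τ) (v τ) (DU τ) (Dv τ) (G τ) - ∑ k, ‖Dv τ k‖ ^ 2 := by
    intro τ
    unfold ref z0f z0
    simp only [inner_sub_right, Finset.sum_sub_distrib]
    ring
  simp only [e2]
  refine ⟨i1.sub i2, ?_⟩
  rw [integral_sub i1 i2, mul_sub, ← e1]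
  have e3 : ∫ τ in Ioo 0 t, ∑ k, ‖Dv τ k‖ ^ 2 = (∫ τ in Ioo 0 s, ∑ k, ‖Dv τ k‖ ^ 2) +
      ∫ τ in Ioo s t, ∑ k, ‖Dv τ k‖ ^ 2 := by
    have j1 : IntervalIntegrable (fun τ => ∑ k, ‖Dv τ k‖ ^ 2) volume 0 s := by
      rw [intervalIntegrable_iff_integrableOn_Ioo_of_le hs0]
      exact P.hDvi s ⟨hs0, hst.trans_lt (ht.trans_lt P.ht)⟩
    have j2 : IntervalIntegrable (fun τ => ∑ k, ‖Dv τ k‖ ^ 2) volume s t := by
      rwa [intervalIntegrable_iff_integrableOn_Ioo_of_le hst]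
    have j3 := intervalIntegral.integral_add_adjacent_intervals j1 j2
    rw [intervalIntegral.integral_of_le hs0, intervalIntegral.integral_of_le hst,
      intervalIntegral.integral_of_le (hs0.trans hst), integral_Ioc_eq_integral_Ioo,
      integral_Ioc_eq_integral_Ioo, integral_Ioc_eq_integral_Ioo] at j3
    exact j3.symm
  unfold RE
  rw [e3]
  ring

/-- **The relative energy inequality.** -/
theorem RelF.gron (P : RelF T v₀ v Dv s₀ t₁ C U DU G a) (hst : s₀ ≤ t₁) {K : ℝ} (hK : 0 ≤ K)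
    {ε : ℝ → ℝ} (hε0 : ∀ τ, 0 ≤ ε τ) (hε : IntegrableOn ε (Ioo s₀ t₁) volume)
    (h : ∀ᵐ τ ∂(volume.restrict (Ioo s₀ t₁)),
      ref (U τ) (v τ) (DU τ) (Dv τ) (G τ) ≤ K * ‖v τ - U τ‖ ^ 2 + ε τ) :
    RE v₀ U v Dv t₁ ≤ (RE v₀ U v Dv s₀ + 2 * ∫ τ in Ioo s₀ t₁, ε τ) *
      Real.exp (2 * K * (t₁ - s₀)) := by
  set F : ℝ → ℝ := fun τ => ref (U τ) (v τ) (DU τ) (Dv τ) (G τ) with hF
  have hFi : IntervalIntegrable F volume s₀ t₁ := by
    rw [intervalIntegrable_iff_integrableOn_Ioo_of_le hst]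
    exact (P.RE_formula le_rfl hst le_rfl).1
  have hεi : IntervalIntegrable ε volume s₀ t₁ := by
    rwa [intervalIntegrable_iff_integrableOn_Ioo_of_le hst]
  have hsub : ∀ x ∈ Icc s₀ t₁, uIcc s₀ x ⊆ uIcc s₀ t₁ := by
    intro x hx
    rw [uIcc_of_le hx.1, uIcc_of_le hst]
    exact Icc_subset_Icc le_rfl hx.2
  have hsub' : ∀ x ∈ Icc s₀ t₁, uIcc x t₁ ⊆ uIcc s₀ t₁ := by
    intro x hx
    rw [uIcc_of_le hx.2, uIcc_of_le hst]
    exact Icc_subset_Icc hx.1 le_rfl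
  set f : ℝ → ℝ := fun x => RE v₀ U v Dv x + 2 * ∫ τ in x..t₁, ε τ with hf
  have key := TG.gronwall (f := f) (g := fun τ => 2 * F τ - 2 * ε τ) (k := fun _ => 2 * K)
    hst ((hFi.const_mul 2).sub (hεi.const_mul 2)) (by simp) (fun _ => by positivity) (by
      intro x hx
      have i1 := hFi.mono_set (hsub x hx)
      have i2 := hεi.mono_set (hsub x hx)
      have i3 := hεi.mono_set (hsub' x hx)
      have e1 := (P.RE_formula le_rfl hx.1 hx.2).2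
      have e2 := intervalIntegral.integral_add_adjacent_intervals i2 i3
      rw [intervalIntegral.integral_sub (i1.const_mul 2) (i2.const_mul 2),
        intervalIntegral.integral_const_mul, intervalIntegral.integral_const_mul]
      rw [← integral_Ioc_eq_integral_Ioo, ← intervalIntegral.integral_of_le hx.1] at e1
      simp only [hf]
      rw [← e2]
      change RE v₀ U v Dv x - RE v₀ U v Dv s₀ = 2 * ∫ τ in s₀..x, F τ at e1
      linarith) (by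
      filter_upwards [h, ae_restrict_mem measurableSet_Ioo] with τ h1 h2
      have h3 := P.le_RE h2.1.le h2.2.le
      have h4 : 0 ≤ ∫ σ in τ..t₁, ε σ := intervalIntegral.integral_nonneg h2.2.le fun σ _ => hε0 σ
      have h5 : ‖v τ - U τ‖ ^ 2 ≤ f τ := by
        simp only [hf]
        linarith
      have h6 : F τ ≤ K * ‖v τ - U τ‖ ^ 2 + ε τ := h1
      have h7 := mul_le_mul_of_nonneg_left h5 hK
      linarith)
  simp only [hf, intervalIntegral.integral_same, mul_zero, add_zero,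
    intervalIntegral.integral_const, smul_eq_mul] at key
  rw [← integral_Ioc_eq_integral_Ioo, ← intervalIntegral.integral_of_le hst,
    mul_comm (2 * K) (t₁ - s₀)]
  exact key

/-- the bound for the derivative of the relative energy -/
theorem ref_le {u v : V3} {du dv G : Fin 3 → V3} {E : ℝ}
    (h : ∑ k, ⟪dv k - du k, tens k (v - u) u - G k⟫_ℝ ≤
      (1 / 2) * ∑ k, ‖dv k - du k‖ ^ 2 + E) : ref u v du dv G ≤ E := by
  have : 0 ≤ ∑ k, ‖dv k - du k‖ ^ 2 := Finset.sum_nonneg fun k _ => by positivity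
  unfold ref
  linarith

end Pool.Agent.TF
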