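import Pool.Agent.TF.Flow
import Pool.Agent.TF.R.Rel

/-!
# Block R: the rows

One step of the scheme is interpolated by `Us s`, `0 ≤ s ≤ d`: the field of the state
`nxt R η s b lam σ` for `s > 0`, and of `σ` for `s = 0`.
-/

set_option autoImplicit false

namespace Pool.Agent.TF

open MeasureTheory Set Filter Topology Pool.Agent.TO Pool.Agent.TB Pool.Agent.TC Pool.Agent.TP
open scoped ENNReal NNReal Real InnerProductSpace SchwartzMap LineDeriv Laplacian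

/-- the part of the field given by the potentials: `Hh R σ = Hp R σ + σ.l` -/
noncomputable def Hp (R : Fin 3 → V3 →L[ℝ] V3) (σ : Sta) : V3 :=
  (∑ k, ∑ j, To R j (vL (pd k (σ.g k j)))) + LP R (∑ k, vL (pd k (σ.h k)))

theorem Hh_eq (R : Fin 3 → V3 →L[ℝ] V3) (σ : Sta) : Hh R σ = Hp R σ + σ.l := rfl

/-- the `L²` norm of a scalar function -/
noncomputable def nL (m : E3 → ℝ) : ℝ := (eLpNorm m 2 (volume : Measure E3)).toReal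

/-- the coefficients are square integrable -/
structure CoL (B : ℝ) (b : E3 → E3) (lam : E3 → ℝ) : Prop where
  mb : MemLp b 2 (volume : Measure E3)
  ml : MemLp lam 2 (volume : Measure E3)
  nb : ‖vL b‖ ≤ B
  nl : nL lam ≤ B

/-- sup bounds of one potential -/
structure Fb (F₀ F₁ F₂ : ℝ) (f : E3 → E3) : Prop where
  nc : Nc f
  f0 : ∀ x, ‖f x‖ ≤ F₀
  f1 : ∀ i x, ‖pd i f x‖ ≤ F₁
  f2 : ∀ i j x, ‖pd i (pd j f) x‖ ≤ F₂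

/-- `(b · ∇) f` -/
noncomputable def bg (b : E3 → E3) (f : E3 → E3) (x : E3) : E3 := ∑ i, (b x) i • pd i f x

/-- `λ f + (b · ∇) f` -/
noncomputable def tr0 (b : E3 → E3) (lam : E3 → ℝ) (f : E3 → E3) (x : E3) : E3 :=
  lam x • f x + bg b f x

/-- the derivative of `s ↦ Jst s b lam f` -/
noncomputable def dJst (s : ℝ) (b : E3 → E3) (lam : E3 → ℝ) (f : E3 → E3) (x : E3) : E3 :=
  -(lam x • f (x - s • b x)) - (1 - s * lam x) • ∑ i, (b x) i • pd i f (x - s • b x)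

/-- the interpolated state -/
noncomputable def Ss (R : Fin 3 → V3 →L[ℝ] V3) (η : ℝ) (b : E3 → E3) (lam : E3 → ℝ) (σ : Sta)
    (s : ℝ) : Sta := by
  classical
  exact if s ≤ 0 then σ else nxt R η s b lam σ

/-- the interpolated field -/
noncomputable def Us (R : Fin 3 → V3 →L[ℝ] V3) (η : ℝ) (b : E3 → E3) (lam : E3 → ℝ) (σ : Sta)
    (s : ℝ) : V3 := Hh R (Ss R η b lam σ s)

/-- the forcing term: `∂_s U = Δ U + ℙ ∑ ∂_k K_k` -/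
noncomputable def Kf (R : Fin 3 → V3 →L[ℝ] V3) (η : ℝ) (b : E3 → E3) (lam : E3 → ℝ) (σ : Sta)
    (s : ℝ) (k : Fin 3) : V3 :=
  (∑ j, To R j (cvO (hk s) (vL (dJst s b lam (σ.g k j))))) +
    cvO (hk s) (vL (dJst s b lam (σ.h k)) + vL (src R η σ k))

/-- `∑ T_j ∂_k (b_i g_{kj}) + ℙ ∑ ∂_k (b_i h_k)` -/
noncomputable def TBs (R : Fin 3 → V3 →L[ℝ] V3) (b : E3 → E3) (σ : Sta) (i : Fin 3) : V3 :=
  (∑ k, ∑ j, To R j (vL (pd k fun x => (b x) i • σ.g k j x))) +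
    LP R (∑ k, vL (pd k fun x => (b x) i • σ.h k x))

/-- the sign of the transpose of `T_j` -/
def sj : Option (Fin 3) → ℝ
  | none => 1
  | some _ => -1

/-- the data of one step; `N` bounds everything -/
structure Stp (N d η t : ℝ) (R : Fin 3 → V3 →L[ℝ] V3) (b : E3 → E3) (lam : E3 → ℝ) (σ : Sta) :
    Prop where
  hR : RZ R
  hN : 1 ≤ N
  t1 : t ≤ 1
  tN : 1 / N ≤ t
  hd : 0 < d
  dN : d * N ≤ 1
  hη : 0 < η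
  coef : Coef N (√t) N b lam
  col : CoL N b lam
  nc : ∀ s ∈ Icc 0 d, NcS (Ss R η b lam σ s)
  dv : ∀ s ∈ Icc 0 d, IsDivFree (Us R η b lam σ s)
  sup : ∀ s ∈ Icc 0 d, SupS N (Ss R η b lam σ s)
  sup1 : ∀ s ∈ Icc 0 d, SupS1 N (Ss R η b lam σ s)
  nr : ∀ s ∈ Icc 0 d, NrS N (Ss R η b lam σ s)
  bd : Bd (Hh R σ) N

/-! ## Rows -/

/-- Row RA0 (`Wk.lean`): classical derivatives are weak derivatives. -/
def SpWk : Prop := ∀ (k : Fin 3) (f : E3 → E3), ContDiff ℝ 1 f →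
  MemLp f 2 (volume : Measure E3) → MemLp (pd k f) 2 (volume : Measure E3) →
  IsWeakDeriv k (vL f) (vL (pd k f))

/-- Row RA1 (`Jd.lean`): the transport step in `L²`, differentiable in `s`. -/
def SpJd : Prop := ∃ C > 0, ∀ (c r Λ B F₀ F₁ F₂ d : ℝ) (b : E3 → E3) (lam : E3 → ℝ)
  (f : E3 → E3), Coef c r Λ b lam → CoL B b lam → Fb F₀ F₁ F₂ f → 0 < d → d * Λ ≤ 1 →
  (∀ s ∈ Icc 0 d, Continuous (Jst s b lam f) ∧ MemLp (Jst s b lam f) 2 (volume : Measure E3) ∧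
    Continuous (dJst s b lam f) ∧ MemLp (dJst s b lam f) 2 (volume : Measure E3) ∧
    ‖vL (dJst s b lam f)‖ ≤ C * B * (F₀ + F₁) ∧
    ‖vL (Jst s b lam f) - vL f‖ ≤ C * B * (F₀ + F₁) * s ∧
    (∀ x, ‖Jst s b lam f x - f x‖ ≤ C * Λ * (F₀ + F₁) * s) ∧
    HasDerivWithinAt (fun s => vL (Jst s b lam f)) (vL (dJst s b lam f)) (Icc 0 d) s) ∧
  ∀ s ∈ Icc 0 d, ∀ s' ∈ Icc 0 d, ‖vL (dJst s b lam f) - vL (dJst s' b lam f)‖ ≤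
    C * B * Λ * (F₀ + F₁ + F₂) * |s - s'|

/-- Row RA2 (`Ht.lean`): the heat semigroup near `s = 0`. -/
def SpHt : Prop := ∃ C > 0, (∀ s > 0, ∀ f g : V3, ⟪f, cvO (hk s) g⟫_ℝ = ⟪cvO (hk s) f, g⟫_ℝ) ∧
  (∀ s > 0, ∀ f : V3, ‖cvO (hk s) f‖ ≤ ‖f‖) ∧
  (∀ s > 0, ∀ (f : V3) (df : Fin 3 → V3), (∀ k, IsWeakDeriv k f (df k)) →
    ‖cvO (hk s) f - f‖ ≤ C * √s * √(∑ k, ‖df k‖ ^ 2)) ∧
  (∀ f : V3, Tendsto (fun s => cvO (hk s) f) (𝓝[>] 0) (𝓝 f)) ∧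
  ∀ s > 0, ∀ (f : E3 → E3) (F₀ F₁ : ℝ), ContDiff ℝ 1 f → (∀ x, ‖f x‖ ≤ F₀) →
    (∀ i x, ‖pd i f x‖ ≤ F₁) → ∀ x, ‖heat s f x - f x‖ ≤ C * √s * F₁

/-- Row RA3 (`Hd.lean`): the heat equation in `L²`. -/
def SpHd : Prop := (∀ s > 0, ∀ (f : V3) (df ddf : Fin 3 → V3), (∀ k, IsWeakDeriv k f (df k)) →
    (∀ k, IsWeakDeriv k (df k) (ddf k)) →
    HasDerivAt (fun s => cvO (hk s) f) (cvO (hk s) (∑ k, ddf k)) s) ∧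
  ∀ f : V3, ContinuousOn (fun s => cvO (hk s) f) (Ioi 0)

/-- Row RA4 (`Lp.lean`): transposes, the Leray projection. -/
def SpLP : Prop := ∀ R, RZ R → (∀ j (f g : V3), ⟪f, To R j g⟫_ℝ = sj j * ⟪To R j f, g⟫_ℝ) ∧
  (∀ f g : V3, ⟪LP R f, g⟫_ℝ = ⟪f, LP R g⟫_ℝ) ∧ (∀ f : V3, IsDivFree f → LP R f = f) ∧
  (∀ j k (f g : V3), IsWeakDeriv k f g → IsWeakDeriv k (To R j f) (To R j g)) ∧
  ∀ k (f g : V3), IsWeakDeriv k f g → IsWeakDeriv k (LP R f) (LP R g)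

/-- Row RA5 (`Eq.lean`): the equation of the interpolated field. -/
def SpEq : Prop := ∀ (c r Λ B M d η : ℝ) (R : Fin 3 → V3 →L[ℝ] V3) (b : E3 → E3)
  (lam : E3 → ℝ) (σ : Sta), RZ R → Coef c r Λ b lam → CoL B b lam → 0 < d → d * Λ ≤ 1 →
  0 < η → NcS σ → Bd (Hh R σ) M → ∀ φ : 𝓢(E3, E3), TestDivFree φ → ∀ s s' : ℝ, 0 ≤ s →
  s ≤ s' → s' ≤ d → ⟪emb φ, Us R η b lam σ s'⟫_ℝ - ⟪emb φ, Us R η b lam σ s⟫_ℝ =
    ∫ τ in s..s', (⟪emb (Δ φ), Us R η b lam σ τ⟫_ℝ -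
      ∑ k, ⟪emb (∂_{ee k} φ), Kf R η b lam σ τ k⟫_ℝ)

/-- Row RA6 (`Mod.lean`): the modulus of continuity of the interpolated field. -/
def SpMod : Prop := ∀ N : ℝ, 1 ≤ N → ∃ C > 0, ∀ (d η t : ℝ) (R : Fin 3 → V3 →L[ℝ] V3)
  (b : E3 → E3) (lam : E3 → ℝ) (σ : Sta), Stp N d η t R b lam σ →
  ContinuousOn (Us R η b lam σ) (Icc 0 d) ∧ (∀ k, ContinuousOn (fun s => Kf R η b lam σ s k)
    (Ioo 0 d)) ∧ ∀ s ∈ Icc 0 d, ‖Us R η b lam σ s - Us R η b lam σ 0‖ ≤ C * √(√s) ∧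
    Bd (Hp R (Ss R η b lam σ s) - Hp R σ) (C * √(√s)) ∧ ‖Us R η b lam σ s‖ ≤ C ∧
    (0 < s → ∀ k, ‖Kf R η b lam σ s k‖ ≤ C) ∧
    ∃ DU : Fin 3 → V3, ∀ k, IsWeakDeriv k (Us R η b lam σ s) (DU k) ∧ ‖DU k‖ ≤ C

/-- Row RB1 (`Key.lean`): the commutator of one word with the transport. -/
def SpKey : Prop := ∀ W : List (Fin 3), ∃ C > 0, ∀ R, RZ R → ∀ (i k : Fin 3) (f b : E3 → E3)
  (a a' F₂ : ℝ) (w : V3) (dw : Fin 3 → V3), Fb a a' F₂ f → ContDiff ℝ 1 b →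
  MemLp b 2 (volume : Measure E3) → MemLp (pd k b) 2 (volume : Measure E3) →
  (∀ l, IsWeakDeriv l w (dw l)) →
  ‖tens i w (Wd R W (vL (pd k f))) - Wd R W (vL (pd k fun x => (b x) i • f x))‖ ≤
    C * (a * √(∑ l, ‖dw l‖ ^ 2) + a' * ‖w - vL b‖ + a * ‖vL (pd k b)‖)

/-- Row RB2 (`Str.lean`): the same for the field of a state. -/
def SpStr : Prop := ∃ C > 0, ∀ R, RZ R → ∀ (i : Fin 3) (σ : Sta) (b : E3 → E3)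
  (a a' : ℝ) (w : V3) (dw : Fin 3 → V3), NcS σ → SupS a σ → SupS1 a' σ → ContDiff ℝ 1 b →
  MemLp b 2 (volume : Measure E3) → (∀ k, MemLp (pd k b) 2 (volume : Measure E3)) →
  (∀ l, IsWeakDeriv l w (dw l)) →
  ‖tens i w (Hp R σ) - TBs R b σ i‖ ≤ C * (a * √(∑ l, ‖dw l‖ ^ 2) + a' * ‖w - vL b‖ +
    a * √(∑ k, ‖vL (pd k b)‖ ^ 2))

/-- Row RB3 (`Tb.lean`): the transport terms in divergence form. -/
def SpTb : Prop := ∀ R, RZ R → ∀ (c r Λ B : ℝ) (b : E3 → E3) (lam : E3 → ℝ) (σ : Sta)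
  (w : V3) (dw : Fin 3 → V3), Coef c r Λ b lam → CoL B b lam → NcS σ → IsDivFree w →
  (∀ l, IsWeakDeriv l w (dw l)) →
  ∑ k, ⟪dw k, (∑ j, To R j (vL (bg b (σ.g k j)))) + vL (bg b (σ.h k))⟫_ℝ =
    ∑ i, ⟪dw i, TBs R b σ i⟫_ℝ

/-- Row RB4 (`Dam.lean`): the damping term, and the error of the forcing term. -/
def SpDam : Prop := (∀ (a : ℝ) (lam : E3 → ℝ) (f : E3 → E3), MemLp lam 2 (volume : Measure E3) →
    Continuous f → (∀ x, ‖f x‖ ≤ a) → MemLp (fun x => lam x • f x) 2 (volume : Measure E3) ∧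
      ‖vL fun x => lam x • f x‖ ≤ a * nL lam) ∧
  ∀ N : ℝ, 1 ≤ N → ∃ C > 0, ∀ (r d : ℝ) (b : E3 → E3) (lam : E3 → ℝ) (f : E3 → E3), 1 / N ≤ r →
    Coef N r N b lam → CoL N b lam → Fb N N N f → 0 < d → d * N ≤ 1 → ∀ s ∈ Ioc 0 d,
    MemLp (bg b f) 2 (volume : Measure E3) ∧
    ‖cvO (hk s) (vL (dJst s b lam f)) + (vL (fun x => lam x • f x) + vL (bg b f))‖ ≤ C * √s

/-- Row RC1 (`Vt.lean`): averages of a Leray solution are continuous in time. -/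
def SpVt : Prop := ∀ M > 0, ∃ C > 0, ∀ (T : ℝ) (u₀ : V3) (v : ℝ → V3) (Dv : ℝ → Fin 3 → V3),
  LG T u₀ v Dv → ‖u₀‖ ≤ M → ∀ t d : ℝ, 1 / M ≤ t → t ≤ 1 → 0 < d → d ≤ 1 → t + d < T →
  ∀ τ ∈ Icc t (t + d),
    ‖cvO (et0 (√t)) (v τ - v t)‖ ≤
      C * (√d * √(∫ τ in Ioo t (t + d), ∑ k, ‖Dv τ k‖ ^ 2) + d) ∧
    ∀ i, ‖cvO (pd i (et0 (√t))) (v τ - v t)‖ ≤
      C * (√d * √(∫ τ in Ioo t (t + d), ∑ k, ‖Dv τ k‖ ^ 2) + d)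

/-- Row RC2 (`Co.lean`): the coefficients and the field `w`. -/
def SpCo : Prop := ∃ C > 0, ∀ (r : ℝ) (w₀ w : V3) (dw : Fin 3 → V3), 0 < r → r ≤ 1 →
  (∀ l, IsWeakDeriv l w (dw l)) →
  ContDiff ℝ 1 (bO r w₀) ∧ (∀ k, MemLp (pd k (bO r w₀)) 2 (volume : Measure E3)) ∧
  CoL (C * ‖w₀‖ / r) (bO r w₀) (lO r w₀) ∧
  ‖w - vL (bO r w₀)‖ ≤ C * (r * √(∑ l, ‖dw l‖ ^ 2) + ‖cvO (et0 r) (w - w₀)‖) ∧
  √(∑ k, ‖vL (pd k (bO r w₀))‖ ^ 2) ≤ C * (√(∑ l, ‖dw l‖ ^ 2) + ‖cvO (et0 r) (w - w₀)‖ / r) ∧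
  nL (lO r w₀) ≤ C * (√(∑ l, ‖dw l‖ ^ 2) + √(∑ i, ‖cvO (pd i (et0 r)) (w - w₀)‖ ^ 2))

/-- Row RD1 (`Sc.lean`): the smoothed source. -/
def SpSc : Prop := ∃ C > 0, ∀ (M s η : ℝ) (U U₀ : V3) (DU : Fin 3 → V3) (k : Fin 3), 0 < s →
  0 < η → Bd U M → Bd U₀ M → (∀ l, IsWeakDeriv l U (DU l)) →
  ‖tens k U U - cvO (hk s) (cvO (hk η) (tens k U₀ U₀))‖ ≤
    C * (√η + √s) * M * √(∑ l, ‖DU l‖ ^ 2) + 2 * M * ‖U - U₀‖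

/-- Row RE1 (`Ref.lean`): the derivative of the relative energy. -/
def SpRef : Prop := ∃ a₀ > 0, ∃ C₀ > 0, ∀ N : ℝ, 1 ≤ N → ∃ C > 0, ∀ (a M L d η t : ℝ)
  (R : Fin 3 → V3 →L[ℝ] V3) (σ : Sta) (w₀ u : V3) (dv DU : Fin 3 → V3),
  Stp N d η t R (bO (√t) w₀) (lO (√t) w₀) σ → 0 ≤ L → 0 ≤ M → M ≤ N → a ≤ a₀ → SupS a σ →
  SupS1 (a / √t) σ → C₀ * √η * M ≤ 1 → ∀ s ∈ Ioc 0 d, Bd (nxt R η s (bO (√t) w₀) (lO (√t) w₀) σ).l L →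
  Bd (Us R η (bO (√t) w₀) (lO (√t) w₀) σ s) M → Bd (Hh R σ) M → IsDivFree u → ‖u‖ ≤ N →
  (∀ k, IsWeakDeriv k u (dv k)) →
  (∀ k, IsWeakDeriv k (Us R η (bO (√t) w₀) (lO (√t) w₀) σ s) (DU k)) →
  ref (Us R η (bO (√t) w₀) (lO (√t) w₀) σ s) u DU dv
    (fun k => -tens k (Us R η (bO (√t) w₀) (lO (√t) w₀) σ s)
      (Us R η (bO (√t) w₀) (lO (√t) w₀) σ s) - Kf R η (bO (√t) w₀) (lO (√t) w₀) σ s k) ≤
    2 * L ^ 2 * ‖u - Us R η (bO (√t) w₀) (lO (√t) w₀) σ s‖ ^ 2 +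
      C₀ * M ^ 2 * η * ∑ k, ‖dv k‖ ^ 2 +
      C * (√s +
        ‖cvO (et0 (√t)) (u - Us R η (bO (√t) w₀) (lO (√t) w₀) σ s - w₀)‖ ^ 2 +
        ∑ i, ‖cvO (pd i (et0 (√t))) (u - Us R η (bO (√t) w₀) (lO (√t) w₀) σ s - w₀)‖ ^ 2)

end Pool.Agent.TF
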