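import Pool.Agent.TF.R.Sp
import Pool.Agent.TF.E.Dk3

/-!
# Block R, row RA0: classical derivatives are weak derivatives
-/

set_option autoImplicit false

namespace Pool.Agent.TF

open MeasureTheory Set Filter Topology Pool.Agent.TO Pool.Agent.TB Pool.Agent.TC Pool.Agent.TP
open scoped ENNReal NNReal Real InnerProductSpace SchwartzMap LineDeriv Laplacian

/-- the product rule -/
theorem pd_mul (k : Fin 3) {β : E3 → ℝ} {f : E3 → E3} (hβ : ContDiff ℝ 1 β)
    (hf : ContDiff ℝ 1 f) (x : E3) :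
    pd k (fun x => β x • f x) x = β x • pd k f x + pd k β x • f x := by
  unfold pd
  have h1 : DifferentiableAt ℝ β x := (hβ.differentiable one_ne_zero) x
  have h2 : DifferentiableAt ℝ f x := (hf.differentiable one_ne_zero) x
  have h3 := (h1.hasFDerivAt.smul h2.hasFDerivAt).fderiv
  have h4 : fderiv ℝ (fun x => β x • f x) x =
      β x • fderiv ℝ f x + (fderiv ℝ β x).smulRight (f x) := h3
  rw [h4]
  rfl

/-- derivatives of a coordinate -/
theorem Wk.pd_coord (k i : Fin 3) {b : E3 → E3} (hb : ContDiff ℝ 1 b) (x : E3) :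
    pd k (fun x => (b x) i) x = (pd k b x) i := by
  unfold pd
  have h2 : DifferentiableAt ℝ b x := (hb.differentiable one_ne_zero) x
  have h3 := (((EuclideanSpace.proj i : E3 →L[ℝ] ℝ).hasFDerivAt).comp x
    h2.hasFDerivAt).fderiv
  have h4 : fderiv ℝ (fun x => (b x) i) x =
      (EuclideanSpace.proj i : E3 →L[ℝ] ℝ).comp (fderiv ℝ b x) := h3
  rw [h4]
  rfl

theorem Wk.integrable_inner {f g : E3 → E3} (hf : MemLp f 2 (volume : Measure E3))
    (hg : MemLp g 2 (volume : Measure E3)) : Integrable (fun x => ⟪f x, g x⟫_ℝ) := by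
  have h1 := L2.integrable_inner (𝕜 := ℝ) hf.toLp hg.toLp
  refine h1.congr ?_
  filter_upwards [hf.coeFn_toLp, hg.coeFn_toLp] with x h2 h3
  rw [h2, h3]

/-- Row RA0. -/
theorem wk_ok : SpWk := by
  intro k f hf h0 h1 φ
  have e1 : ∫ x, ⟪(∂_{ee k} φ) x, vL f x⟫_ℝ = ∫ x, ⟪(∂_{ee k} φ) x, f x⟫_ℝ := by
    refine integral_congr_ae ?_
    filter_upwards [coe_vL h0] with x hx
    rw [hx]
  have e2 : ∫ x, ⟪φ x, vL (pd k f) x⟫_ℝ = ∫ x, ⟪φ x, pd k f x⟫_ℝ := by
    refine integral_congr_ae ?_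
    filter_upwards [coe_vL h1] with x hx
    rw [hx]
  rw [e1, e2]
  have h2 := integral_bilinear_hasLineDerivAt_right_eq_neg_left_of_integrable
    (μ := (volume : Measure E3)) (B := innerSL ℝ) (f := φ) (f' := fun x => (∂_{ee k} φ) x)
    (g := f) (g' := pd k f) (v := ee k)
    (Wk.integrable_inner (f := fun x => (∂_{ee k} φ) x) ((∂_{ee k} φ).memLp 2 volume) h0)
    (Wk.integrable_inner (f := φ) (φ.memLp 2 volume) h1)
    (Wk.integrable_inner (f := φ) (φ.memLp 2 volume) h0)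
    (fun x _ => by
      rw [SchwartzMap.lineDerivOp_apply_eq_fderiv]
      exact (φ.differentiableAt.hasFDerivAt.hasLineDerivAt (ee k)))
    (fun x _ => ((hf.differentiable one_ne_zero) x).hasFDerivAt.hasLineDerivAt (ee k))
  have h3 : ∫ x, ⟪φ x, pd k f x⟫_ℝ = -∫ x, ⟪(∂_{ee k} φ) x, f x⟫_ℝ := h2
  rw [h3, neg_neg]

end Pool.Agent.TF
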